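import Pool.Agent.H5.DF.Thin

/-!
BK inequality for increasing events on a finite Bernoulli product (MP_0d9ad5_pr, job DF-2).
Proof by induction on the number of coordinates, for a monotone relation `z` instead of `A × B`,
with finite sums; then the finite sums are identified with the product measure.
-/

namespace H5DF

open MeasureTheory

/-- Weight of a configuration. -/
def wt {ι : Type*} [Fintype ι] (p : ℝ) (ω : ι → Bool) : ℝ := ∏ i, (if ω i then p else 1 - p)

open Classical in
/-- Indicator of a proposition. -/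
noncomputable def ind (P : Prop) : ℝ := if P then 1 else 0

lemma ind_t {P : Prop} (h : P) : ind P = 1 := by simp [ind, h]

lemma ind_f {P : Prop} (h : ¬ P) : ind P = 0 := by simp [ind, h]

lemma ind_nonneg (P : Prop) : 0 ≤ ind P := by
  by_cases h : P
  · rw [ind_t h]; norm_num
  · rw [ind_f h]

/-- Probability of an event as a finite sum. -/
noncomputable def pr {ι : Type*} [Fintype ι] [DecidableEq ι] (p : ℝ) (S : (ι → Bool) → Prop) : ℝ :=
  ∑ ω : ι → Bool, wt p ω * ind (S ω)

/-- Probability of a relation of two independent configurations. -/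
noncomputable def pr2 {ι : Type*} [Fintype ι] [DecidableEq ι] (p : ℝ) (z : (ι → Bool) → (ι → Bool) → Prop) : ℝ :=
  ∑ ω : ι → Bool, ∑ ω' : ι → Bool, wt p ω * wt p ω' * ind (z ω ω')

lemma wt_nonneg {ι : Type*} [Fintype ι] {p : ℝ} (h0 : 0 ≤ p) (h1 : p ≤ 1) (ω : ι → Bool) :
    0 ≤ wt p ω := by
  unfold wt
  refine Finset.prod_nonneg fun i _ => ?_
  split_ifs
  · exact h0
  · linarith

lemma sum_cons {n : ℕ} (f : (Fin (n + 1) → Bool) → ℝ) :
    ∑ ω, f ω = (∑ x : Fin n → Bool, f (Fin.cons true x)) +
      ∑ x : Fin n → Bool, f (Fin.cons false x) := by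
  rw [← (Fin.consEquiv (fun _ : Fin (n + 1) => Bool)).sum_comp, Fintype.sum_prod_type,
    Fintype.sum_bool]
  rfl

lemma wt_cons {n : ℕ} (p : ℝ) (b : Bool) (x : Fin n → Bool) :
    wt p (Fin.cons b x : Fin (n + 1) → Bool) = (if b then p else 1 - p) * wt p x := by
  unfold wt
  rw [Fin.prod_univ_succ]
  simp

/-- Disjoint occurrence for a relation. -/
def Dj {ι : Type*} (z : (ι → Bool) → (ι → Bool) → Prop) (ω : ι → Bool) : Prop :=
  ∃ c : ι → Bool, z (fun i => ω i && c i) (fun i => ω i && !c i)

/-- Monotone relations. -/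
def MonoR {ι : Type*} (z : (ι → Bool) → (ι → Bool) → Prop) : Prop :=
  ∀ a b a' b' : ι → Bool, (∀ i, a i = true → a' i = true) → (∀ i, b i = true → b' i = true) →
    z a b → z a' b'

lemma dj_cons_false {n : ℕ} (z : (Fin (n + 1) → Bool) → (Fin (n + 1) → Bool) → Prop)
    (x : Fin n → Bool) :
    Dj z (Fin.cons false x) ↔ Dj (fun a b => z (Fin.cons false a) (Fin.cons false b)) x := by
  have e1 : ∀ (c : Fin (n + 1) → Bool) (x : Fin n → Bool),
      (fun i => (Fin.cons false x : Fin (n + 1) → Bool) i && c i) =
        Fin.cons false (fun i => x i && c i.succ) := by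
    intro c x; funext i; refine Fin.cases ?_ (fun j => ?_) i <;> simp
  have e2 : ∀ (c : Fin (n + 1) → Bool) (x : Fin n → Bool),
      (fun i => (Fin.cons false x : Fin (n + 1) → Bool) i && !c i) =
        Fin.cons false (fun i => x i && !c i.succ) := by
    intro c x; funext i; refine Fin.cases ?_ (fun j => ?_) i <;> simp
  constructor
  · rintro ⟨c, hc⟩
    rw [e1, e2] at hc
    exact ⟨fun i => c i.succ, hc⟩
  · rintro ⟨c, hc⟩
    refine ⟨Fin.cons false c, ?_⟩
    rw [e1, e2]
    simpa using hc

lemma dj_cons_true {n : ℕ} (z : (Fin (n + 1) → Bool) → (Fin (n + 1) → Bool) → Prop)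
    (x : Fin n → Bool) :
    Dj z (Fin.cons true x) ↔ Dj (fun a b => z (Fin.cons true a) (Fin.cons false b) ∨
      z (Fin.cons false a) (Fin.cons true b)) x := by
  have e1 : ∀ (c : Fin (n + 1) → Bool) (x : Fin n → Bool),
      (fun i => (Fin.cons true x : Fin (n + 1) → Bool) i && c i) =
        Fin.cons (c 0) (fun i => x i && c i.succ) := by
    intro c x; funext i; refine Fin.cases ?_ (fun j => ?_) i <;> simp
  have e2 : ∀ (c : Fin (n + 1) → Bool) (x : Fin n → Bool),
      (fun i => (Fin.cons true x : Fin (n + 1) → Bool) i && !c i) =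
        Fin.cons (!c 0) (fun i => x i && !c i.succ) := by
    intro c x; funext i; refine Fin.cases ?_ (fun j => ?_) i <;> simp
  constructor
  · rintro ⟨c, hc⟩
    rw [e1, e2] at hc
    refine ⟨fun i => c i.succ, ?_⟩
    cases h : c 0
    · right; simpa [h] using hc
    · left; simpa [h] using hc
  · rintro ⟨c, hc | hc⟩
    · refine ⟨Fin.cons true c, ?_⟩
      rw [e1, e2]
      simpa using hc
    · refine ⟨Fin.cons false c, ?_⟩
      rw [e1, e2]
      simpa using hc

/-- BK for monotone relations, `Fin n` coordinates. -/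
lemma bk_fin {p : ℝ} (h0 : 0 ≤ p) (h1 : p ≤ 1) : ∀ (n : ℕ)
    (z : (Fin n → Bool) → (Fin n → Bool) → Prop), MonoR z → pr p (Dj z) ≤ pr2 p z := by
  intro n
  induction n with
  | zero =>
    intro z hz
    have hu : ∀ a b : Fin 0 → Bool, a = b := fun a b => Subsingleton.elim a b
    unfold pr pr2
    have hw : ∀ x : Fin 0 → Bool, wt p x = 1 := fun x => by simp [wt]
    have key : ∀ x y w : Fin 0 → Bool,
        wt p x * ind (Dj z x) ≤ wt p y * wt p w * ind (z y w) := by
      intro x y w
      rw [hw, hw, hw, one_mul, one_mul, one_mul]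
      by_cases h : Dj z x
      · have h2 : z y w := by
          obtain ⟨c, hc⟩ := h
          rwa [hu (fun i => x i && c i) y, hu (fun i => x i && !c i) w] at hc
        rw [ind_t h, ind_t h2]
      · rw [ind_f h]; exact ind_nonneg _
    rw [Fintype.sum_unique, Fintype.sum_unique, Fintype.sum_unique]
    exact key _ _ _
  | succ n ih =>
    intro z hz
    set z00 : (Fin n → Bool) → (Fin n → Bool) → Prop :=
      fun a b => z (Fin.cons false a) (Fin.cons false b) with hz00
    set z10 : (Fin n → Bool) → (Fin n → Bool) → Prop :=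
      fun a b => z (Fin.cons true a) (Fin.cons false b) with hz10
    set z01 : (Fin n → Bool) → (Fin n → Bool) → Prop :=
      fun a b => z (Fin.cons false a) (Fin.cons true b) with hz01
    set z11 : (Fin n → Bool) → (Fin n → Bool) → Prop :=
      fun a b => z (Fin.cons true a) (Fin.cons true b) with hz11
    have hmono : ∀ u v : Bool, MonoR (fun a b : Fin n → Bool => z (Fin.cons u a) (Fin.cons v b)) := by
      intro u v a b a' b' ha hb h
      refine hz _ _ _ _ ?_ ?_ h
      · intro i; refine Fin.cases ?_ (fun j => ?_) i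
        · simp
        · simpa using ha j
      · intro i; refine Fin.cases ?_ (fun j => ?_) i
        · simp
        · simpa using hb j
    have hor : MonoR (fun a b : Fin n → Bool => z10 a b ∨ z01 a b) := by
      intro a b a' b' ha hb h
      rcases h with h | h
      · exact Or.inl (hmono true false a b a' b' ha hb h)
      · exact Or.inr (hmono false true a b a' b' ha hb h)
    have hL : pr p (Dj z) = p * pr p (Dj fun a b => z10 a b ∨ z01 a b) +
        (1 - p) * pr p (Dj z00) := by
      unfold pr
      rw [sum_cons, Finset.mul_sum, Finset.mul_sum]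
      congr 1
      · refine Finset.sum_congr rfl fun x _ => ?_
        rw [wt_cons, dj_cons_true]
        simp only [if_true]
        ring
      · refine Finset.sum_congr rfl fun x _ => ?_
        rw [wt_cons, dj_cons_false]
        simp only [Bool.false_eq_true, if_false]
        ring
    have hR : pr2 p z = ∑ x : Fin n → Bool, ∑ y : Fin n → Bool,
        wt p x * wt p y * (p * p * ind (z11 x y) +
          p * (1 - p) * ind (z10 x y) + (1 - p) * p * ind (z01 x y) +
          (1 - p) * (1 - p) * ind (z00 x y)) := by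
      unfold pr2
      rw [sum_cons, ← Finset.sum_add_distrib]
      refine Finset.sum_congr rfl fun x _ => ?_
      rw [sum_cons, sum_cons, ← Finset.sum_add_distrib, ← Finset.sum_add_distrib,
        ← Finset.sum_add_distrib]
      refine Finset.sum_congr rfl fun y _ => ?_
      simp only [wt_cons, if_true, Bool.false_eq_true, if_false, hz11, hz10, hz01, hz00]
      ring
    calc pr p (Dj z) = p * pr p (Dj fun a b => z10 a b ∨ z01 a b) +
        (1 - p) * pr p (Dj z00) := hL
      _ ≤ p * pr2 p (fun a b => z10 a b ∨ z01 a b) + (1 - p) * pr2 p z00 := by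
          have i1 := ih (fun a b => z10 a b ∨ z01 a b) hor
          have i2 := ih z00 (hmono false false)
          have := mul_le_mul_of_nonneg_left i1 h0
          have := mul_le_mul_of_nonneg_left i2 (show (0:ℝ) ≤ 1 - p by linarith)
          linarith
      _ ≤ pr2 p z := by
          rw [hR]
          unfold pr2
          rw [Finset.mul_sum, Finset.mul_sum, ← Finset.sum_add_distrib]
          refine Finset.sum_le_sum fun x _ => ?_
          rw [Finset.mul_sum, Finset.mul_sum, ← Finset.sum_add_distrib]
          refine Finset.sum_le_sum fun y _ => ?_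
          have hw : 0 ≤ wt p x * wt p y := mul_nonneg (wt_nonneg h0 h1 x) (wt_nonneg h0 h1 y)
          have m1 : z00 x y → z10 x y := fun h => hz _ _ _ _ (by
            intro i; refine Fin.cases ?_ (fun j => ?_) i <;> simp) (by simp) h
          have m2 : z00 x y → z01 x y := fun h => hz _ _ _ _ (by simp) (by
            intro i; refine Fin.cases ?_ (fun j => ?_) i <;> simp) h
          have m3 : z10 x y → z11 x y := fun h => hz _ _ _ _ (by simp) (by
            intro i; refine Fin.cases ?_ (fun j => ?_) i <;> simp) h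
          have m4 : z01 x y → z11 x y := fun h => hz _ _ _ _ (by
            intro i; refine Fin.cases ?_ (fun j => ?_) i <;> simp) (by simp) h
          have key : p * ind (z10 x y ∨ z01 x y) + (1 - p) * ind (z00 x y) ≤
              p * p * ind (z11 x y) + p * (1 - p) * ind (z10 x y) +
              (1 - p) * p * ind (z01 x y) + (1 - p) * (1 - p) * ind (z00 x y) := by
            have hp : 0 ≤ p * (1 - p) := mul_nonneg h0 (by linarith)
            by_cases c00 : z00 x y
            · rw [ind_t c00, ind_t (m1 c00), ind_t (m2 c00), ind_t (m3 (m1 c00)),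
                ind_t (Or.inl (m1 c00))]
              nlinarith
            · rw [ind_f c00]
              by_cases c10 : z10 x y
              · rw [ind_t c10, ind_t (m3 c10), ind_t (Or.inl c10)]
                have := mul_nonneg hp (ind_nonneg (z01 x y))
                nlinarith
              · by_cases c01 : z01 x y
                · rw [ind_f c10, ind_t c01, ind_t (m4 c01), ind_t (Or.inr c01)]
                  nlinarith
                · rw [ind_f c10, ind_f c01, ind_f (not_or.mpr ⟨c10, c01⟩)]
                  have := mul_nonneg (mul_nonneg h0 h0) (ind_nonneg (z11 x y))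
                  nlinarith
          have := mul_le_mul_of_nonneg_left key hw
          linarith

lemma pr_equiv {ι κ : Type*} [Fintype ι] [Fintype κ] [DecidableEq ι] [DecidableEq κ] (e : ι ≃ κ) (p : ℝ)
    (S : (ι → Bool) → Prop) : pr p S = pr p (fun ω : κ → Bool => S (fun i => ω (e i))) := by
  classical
  unfold pr
  rw [← (Equiv.arrowCongr e (Equiv.refl Bool)).sum_comp]
  refine Finset.sum_congr rfl fun ω _ => ?_
  have h1 : (fun i => (Equiv.arrowCongr e (Equiv.refl Bool)) ω (e i)) = ω := by
    funext i; simp [Equiv.arrowCongr]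
  have h2 : wt p ((Equiv.arrowCongr e (Equiv.refl Bool)) ω) = wt p ω := by
    unfold wt
    rw [← e.prod_comp]
    refine Finset.prod_congr rfl fun i _ => ?_
    simp [Equiv.arrowCongr]
  beta_reduce
  rw [h1, h2]

lemma bk_pr {ι : Type*} [Fintype ι] [DecidableEq ι] {p : ℝ} (h0 : 0 ≤ p) (h1 : p ≤ 1)
    (A B : Set (ι → Bool)) (hA : ∀ a b : ι → Bool, (∀ i, a i = true → b i = true) → a ∈ A → b ∈ A)
    (hB : ∀ a b : ι → Bool, (∀ i, a i = true → b i = true) → a ∈ B → b ∈ B) :
    pr p (fun ω => ∃ c : ι → Bool, (fun i => ω i && c i) ∈ A ∧ (fun i => ω i && !c i) ∈ B) ≤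
      pr p (fun ω => ω ∈ A) * pr p (fun ω => ω ∈ B) := by
  classical
  set e := Fintype.equivFin ι
  rw [pr_equiv e, pr_equiv e p (fun ω => ω ∈ A), pr_equiv e p (fun ω => ω ∈ B)]
  set z : (Fin (Fintype.card ι) → Bool) → (Fin (Fintype.card ι) → Bool) → Prop :=
    fun a b => (fun i => a (e i)) ∈ A ∧ (fun i => b (e i)) ∈ B with hzdef
  have hz : MonoR z := by
    intro a b a' b' ha hb h
    exact ⟨hA _ _ (fun i => ha (e i)) h.1, hB _ _ (fun i => hb (e i)) h.2⟩
  have h := bk_fin h0 h1 _ z hz
  have hl : (fun ω : Fin (Fintype.card ι) → Bool => ∃ c : ι → Bool,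
      (fun i => ω (e i) && c i) ∈ A ∧ (fun i => ω (e i) && !c i) ∈ B) = Dj z := by
    funext ω
    apply propext
    constructor
    · rintro ⟨c, hc⟩
      refine ⟨fun i => c (e.symm i), ?_⟩
      simpa [hzdef] using hc
    · rintro ⟨c, hc⟩
      exact ⟨fun i => c (e i), hc⟩
  rw [hl]
  refine h.trans (le_of_eq ?_)
  unfold pr2 pr
  rw [Finset.sum_mul_sum]
  refine Finset.sum_congr rfl fun x _ => Finset.sum_congr rfl fun y _ => ?_
  by_cases hx : (fun i => x (e i)) ∈ A <;> by_cases hy : (fun i => y (e i)) ∈ B <;>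
    simp [hzdef, hx, hy, ind]

lemma bern_pi_eq {ι : Type*} [Fintype ι] [DecidableEq ι] {p : ℝ} (h0 : 0 ≤ p) (h1 : p ≤ 1)
    (S : Set (ι → Bool)) :
    (Measure.infinitePi fun _ : ι => bern p) S = ENNReal.ofReal (pr p (fun ω => ω ∈ S)) := by
  classical
  have := isProb_bern h0 h1
  rw [Measure.infinitePi_eq_pi]
  have hS : S = ((Finset.univ.filter (fun ω => ω ∈ S) : Finset (ι → Bool)) : Set (ι → Bool)) := by
    ext ω; simp
  conv_lhs => rw [hS]
  rw [← sum_measure_singleton, Finset.sum_filter]
  unfold pr
  rw [ENNReal.ofReal_sum_of_nonneg]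
  · refine Finset.sum_congr rfl fun ω _ => ?_
    by_cases hω : ω ∈ S
    · simp only [hω, if_true]
      rw [Measure.pi_singleton, ind_t trivial, mul_one]
      unfold wt
      rw [ENNReal.ofReal_prod_of_nonneg]
      · refine Finset.prod_congr rfl fun i _ => ?_
        cases h : ω i <;> simp [bern]
      · intro i _
        split_ifs
        · exact h0
        · linarith
    · simp only [hω, if_false]
      rw [ind_f not_false]; simp
  · intro ω _
    exact mul_nonneg (wt_nonneg h0 h1 ω) (ind_nonneg _)

theorem bk_bern {ι : Type*} [Fintype ι] (p : ℝ) (h0 : 0 ≤ p) (h1 : p ≤ 1)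
    (A B : Set (ι → Bool)) (hA : ∀ a b : ι → Bool, (∀ i, a i = true → b i = true) → a ∈ A → b ∈ A)
    (hB : ∀ a b : ι → Bool, (∀ i, a i = true → b i = true) → a ∈ B → b ∈ B) :
    (Measure.infinitePi fun _ : ι => bern p)
        {ω | ∃ c : ι → Bool, (fun i => ω i && c i) ∈ A ∧ (fun i => ω i && !c i) ∈ B} ≤
      (Measure.infinitePi fun _ : ι => bern p) A * (Measure.infinitePi fun _ : ι => bern p) B := by
  classical
  have hnn : 0 ≤ pr p (fun ω => ω ∈ A) :=
    Finset.sum_nonneg fun ω _ => mul_nonneg (wt_nonneg h0 h1 ω) (ind_nonneg _)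
  rw [bern_pi_eq h0 h1, bern_pi_eq h0 h1, bern_pi_eq h0 h1, ← ENNReal.ofReal_mul hnn]
  exact ENNReal.ofReal_le_ofReal (bk_pr h0 h1 A B hA hB)

end H5DF
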