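import Pool.Agent.H5.DF.Pot

/-!
The potential of the infinite cluster: the averaged potential at the attachment point
(MP_0d9ad5_pr).
-/

namespace H5DF

open MeasureTheory

variable {d : ℕ}

/-- Lattice ball. -/
noncomputable def ballF (k : ℕ) : Finset (V d) := Finset.Icc (fun _ => -(k : ℤ)) (fun _ => (k : ℤ))

lemma norm_le_iff_coord (k : ℕ) (w : V d) : ‖w‖ ≤ k ↔ ∀ i, |w i| ≤ (k : ℤ) := by
  rw [pi_norm_le_iff_of_nonneg (Nat.cast_nonneg _)]
  refine forall_congr' fun i => ?_
  rw [Int.norm_eq_abs]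
  constructor
  · intro h; exact_mod_cast h
  · intro h; exact_mod_cast h

lemma mem_ballF {k : ℕ} {w : V d} : w ∈ ballF k ↔ ‖w‖ ≤ k := by
  rw [norm_le_iff_coord, ballF, Finset.mem_Icc, Pi.le_def, Pi.le_def]
  constructor
  · rintro ⟨h1, h2⟩ i
    exact abs_le.2 ⟨h1 i, h2 i⟩
  · intro h
    exact ⟨fun i => (abs_le.1 (h i)).1, fun i => (abs_le.1 (h i)).2⟩

lemma step_norm_le (s : Dir d) : ‖(step s : V d)‖ ≤ 1 := by
  have h : ‖(step s : V d)‖ ≤ ((1 : ℕ) : ℝ) := by
    rw [norm_le_iff_coord]
    intro i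
    have := step_coord_le i s
    exact_mod_cast this
  simpa using h

lemma walk_norm_le {ω : Cfg d} {x y : V d} (P : (G ω).Walk x y) : ‖y - x‖ ≤ P.length := by
  induction P with
  | nil => simp
  | @cons a b c hab P ih =>
    obtain ⟨s, rfl, -⟩ := hab
    have h1 : c - a = (c - (a + step s)) + step s := by abel
    rw [h1]
    refine (norm_add_le _ _).trans ?_
    have := step_norm_le s
    push_cast [SimpleGraph.Walk.length_cons]
    linarith

open Classical in
/-- The stationary part of the potential. -/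
noncomputable def gK (i0 : Fin d) (K k : ℕ) (r : ℝ) (ω : Cfg d) : ℝ :=
  ∑ w ∈ ballF k, if (cluster ω 0).Infinite ∧ Att (G ω) k 0 w then hK i0 K r ω w else 0

lemma gK_meas (i0 : Fin d) (K k : ℕ) {r : ℝ} (h0 : 0 ≤ r) (h1 : r ≤ 1) :
    Measurable (gK (d := d) i0 K k r) := by
  unfold gK
  refine Finset.measurable_fun_sum _ fun w _ => ?_
  refine Measurable.ite ?_ (hK_meas i0 K h0 h1 w) measurable_const
  exact (meas_inf 0).inter (meas_att k 0 w)

lemma gK_eq (i0 : Fin d) (K k : ℕ) (r : ℝ) {ω : Cfg d} (hinf : (cluster ω 0).Infinite)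
    {w : V d} (hw : Att (G ω) k 0 w) : gK i0 K k r ω = hK i0 K r ω w := by
  classical
  have hnorm : ‖w‖ ≤ k := by
    obtain ⟨w', hw', P, hP⟩ := att_exists (G ω) k 0 hinf
    have hww := att_unique (G ω) k 0 hinf w w' hw hw'
    subst hww
    have := walk_norm_le P
    rw [sub_zero] at this
    exact this.trans (by exact_mod_cast hP)
  unfold gK
  rw [Finset.sum_eq_single w]
  · rw [if_pos ⟨hinf, hw⟩]
  · intro w' _ hne
    rw [if_neg]
    rintro ⟨-, h⟩
    exact hne (att_unique (G ω) k 0 hinf w' w h hw)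
  · intro h
    exact absurd (mem_ballF.2 hnorm) h

lemma gK_bound (i0 : Fin d) (K k : ℕ) {r : ℝ} (h0 : 0 ≤ r) (h1 : r ≤ 1) (ω : Cfg d) :
    |gK i0 K k r ω| ≤ (k : ℝ) + K := by
  classical
  by_cases hinf : (cluster ω 0).Infinite
  · obtain ⟨w, hw, P, hP⟩ := att_exists (G ω) k 0 hinf
    rw [gK_eq i0 K k r hinf hw]
    have hnorm : ‖w‖ ≤ k := by
      have := walk_norm_le P
      rw [sub_zero] at this
      exact this.trans (by exact_mod_cast hP)
    have h2 := abs_coord_le i0 w
    have h3 := hK_int_bound i0 K h0 h1 ω w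
    rw [abs_le] at h2 ⊢
    constructor <;> linarith [h2.1, h2.2, h3.1, h3.2]
  · have : gK i0 K k r ω = 0 := by
      unfold gK
      refine Finset.sum_eq_zero fun w _ => ?_
      rw [if_neg]
      rintro ⟨h, -⟩
      exact hinf h
    rw [this, abs_zero]
    positivity

/-- Existence of the attachment point and the gradient formula. -/
lemma psi_cases (i0 : Fin d) (K k : ℕ) {r : ℝ} (h0 : 0 ≤ r) (h1 : r ≤ 1) {ω : Cfg d}
    (hinf : (cluster ω 0).Infinite) {s : Dir d} (hs : ω (edge 0 s) = true) :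
    (¬ Live (G ω) k 0 → (step s i0 : ℝ) + gK i0 K k r (shift (step s) ω) - gK i0 K k r ω = 0) ∧
    |(step s i0 : ℝ) + gK i0 K k r (shift (step s) ω) - gK i0 K k r ω| ≤
      |hK i0 K r ω (step s) - hK i0 K r ω 0| := by
  have hadj : (G ω).Adj 0 (step s) := by
    have := adj_of_open hs
    rwa [zero_add] at this
  have hinf' : (cluster ω (step s)).Infinite := by
    have := (inf_adj hs).2 hinf
    rwa [zero_add] at this
  obtain ⟨w, hw, -⟩ := att_exists (G ω) k 0 hinf
  obtain ⟨w', hw', -⟩ := att_exists (G ω) k (step s) hinf'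
  have e1 : gK i0 K k r ω = hK i0 K r ω w := gK_eq i0 K k r hinf hw
  have e2 : gK i0 K k r (shift (step s) ω) = hK i0 K r ω w' - step s i0 := by
    have hi : (cluster (shift (step s) ω) 0).Infinite := by
      rw [inf_shift, zero_add]; exact hinf'
    have ha : Att (G (shift (step s) ω)) k 0 (w' - step s) := by
      rw [att_shift, zero_add, sub_add_cancel]; exact hw'
    rw [gK_eq i0 K k r hi ha, hK_shift i0 K h0 h1, sub_add_cancel]
  have e3 : (step s i0 : ℝ) + gK i0 K k r (shift (step s) ω) - gK i0 K k r ω =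
      hK i0 K r ω w' - hK i0 K r ω w := by
    rw [e1, e2]; ring
  have hself : ∀ x : V d, Live (G ω) k x → Att (G ω) k x x := fun x hx =>
    ⟨hx, SimpleGraph.Walk.nil, fun y hy hne => absurd (by simpa using hy) hne⟩
  rw [e3]
  constructor
  · intro hl
    have h2 := att_adj (G ω) k 0 (step s) hinf hadj hl w hw
    have h3 := att_unique (G ω) k (step s) hinf' w w' h2 hw'
    rw [h3, sub_self]
  · by_cases hl : Live (G ω) k 0
    · have hw0 : w = 0 := att_unique (G ω) k 0 hinf w 0 hw (hself 0 hl)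
      by_cases hl' : Live (G ω) k (step s)
      · have hw1 : w' = step s := att_unique (G ω) k (step s) hinf' w' _ hw' (hself _ hl')
        rw [hw0, hw1]
      · have h2 := att_adj (G ω) k (step s) 0 hinf' hadj.symm hl' w' hw'
        have h3 := att_unique (G ω) k 0 hinf w w' hw h2
        rw [h3, sub_self, abs_zero]
        exact abs_nonneg _
    · have h2 := att_adj (G ω) k 0 (step s) hinf hadj hl w hw
      have h3 := att_unique (G ω) k (step s) hinf' w w' h2 hw'
      rw [h3, sub_self, abs_zero]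
      exact abs_nonneg _

end H5DF
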