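import Pool.Agent.H5.DF.Energy

/-!
The energy of the averaged potential, second part (MP_0d9ad5_pr).
-/

namespace H5DF

open MeasureTheory ENNReal

variable {d : ℕ}

lemma lintegral_thin (p r : ℝ) (hp0 : 0 ≤ p) (hp1 : p ≤ 1) (hr0 : 0 ≤ r) (hr1 : r ≤ 1)
    (F : Cfg d → ENNReal) (hF : Measurable F) :
    ∫⁻ ω, ∫⁻ η, F (inter ω η) ∂(perc d r) ∂(perc d p) = ∫⁻ ω, F ω ∂(perc d (p * r)) := by
  haveI := isPP (d := d) hp0 hp1
  haveI := isPP (d := d) hr0 hr1
  have h1 : perc d (p * r) = ((perc d p).prod (perc d r)).map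
      (fun x : Cfg d × Cfg d => inter x.1 x.2) := (thin_law p r hp0 hp1 hr0 hr1).symm
  rw [h1, lintegral_map hF measurable_inter]
  exact (lintegral_prod (μ := perc d p) (ν := perc d r)
    (fun x : Cfg d × Cfg d => F (inter x.1 x.2)) (hF.comp measurable_inter).aemeasurable).symm

lemma integrable_of_bdd {Ω : Type*} [MeasurableSpace Ω] (μ : Measure Ω) [IsFiniteMeasure μ]
    {f : Ω → ℝ} (hf : Measurable f) (C : ℝ) (hC : ∀ x, |f x| ≤ C) : Integrable f μ :=
  Integrable.of_bound hf.aestronglyMeasurable C (Filter.Eventually.of_forall fun x => by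
    rw [Real.norm_eq_abs]; exact hC x)

lemma sq_integral_le {Ω : Type*} [MeasurableSpace Ω] (μ : Measure Ω) [IsProbabilityMeasure μ]
    {f : Ω → ℝ} (hf : Measurable f) (C : ℝ) (hC : ∀ x, |f x| ≤ C) :
    (∫ x, f x ∂μ) ^ 2 ≤ ∫ x, f x ^ 2 ∂μ := by
  set c := ∫ x, f x ∂μ with hc
  have hC0 : 0 ≤ C ∨ IsEmpty Ω := by
    rcases isEmpty_or_nonempty Ω with h | ⟨⟨x⟩⟩
    · exact Or.inr h
    · exact Or.inl ((abs_nonneg _).trans (hC x))
  have i1 : Integrable f μ := integrable_of_bdd μ hf C hC
  have i2 : Integrable (fun x => f x ^ 2) μ := by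
    refine integrable_of_bdd μ (hf.pow_const 2) (C ^ 2) fun x => ?_
    rw [abs_of_nonneg (sq_nonneg _), ← sq_abs]
    have := hC x
    gcongr
  have h1 : 0 ≤ ∫ x, (f x - c) ^ 2 ∂μ := integral_nonneg fun x => sq_nonneg _
  have h2 : ∫ x, (f x - c) ^ 2 ∂μ = (∫ x, f x ^ 2 ∂μ) - 2 * c * c + c ^ 2 := by
    have e : (fun x => (f x - c) ^ 2) = fun x => (f x ^ 2 - 2 * c * f x) + c ^ 2 := by
      funext x; ring
    have e1 := integral_add (μ := μ) (f := fun x => f x ^ 2 - 2 * c * f x) (g := fun _ => c ^ 2)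
      (i2.sub (i1.const_mul (2 * c))) (integrable_const _)
    have e2 := integral_sub (μ := μ) (f := fun x => f x ^ 2) (g := fun x => 2 * c * f x)
      i2 (i1.const_mul (2 * c))
    rw [e, e1, e2, integral_const_mul, ← hc]
    simp
  nlinarith

/-- Real version of `closed_coord`. -/
lemma closed_coord_real (r : ℝ) (h0 : 0 ≤ r) (h1 : r ≤ 1) (e : Ed d) (F : Cfg d → ℝ)
    (hF : Measurable F) (hF0 : ∀ η, 0 ≤ F η) (C : ℝ) (hC : ∀ η, F η ≤ C) :
    ∫ η, (if η e = false then F η else 0) ∂(perc d r) =
      (1 - r) * ∫ η, F (Function.update η e false) ∂(perc d r) := by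
  haveI := isPP (d := d) h0 h1
  have hmeas : Measurable fun η : Cfg d => (if η e = false then F η else 0) := by
    refine Measurable.ite ?_ hF measurable_const
    have h3 : Measurable fun η : Cfg d => η e := measurable_pi_apply e
    exact h3 (measurableSet_singleton false)
  have hmeas' : Measurable fun η : Cfg d => F (Function.update η e false) :=
    hF.comp (measurable_upd e false)
  have hC0 : 0 ≤ C := (hF0 (fun _ => false)).trans (hC _)
  rw [integral_eq_lintegral_of_nonneg_ae
      (Filter.Eventually.of_forall fun η => by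
        show (0 : ℝ) ≤ if η e = false then F η else 0
        split_ifs
        · exact hF0 η
        · exact le_refl _) hmeas.aestronglyMeasurable,
    integral_eq_lintegral_of_nonneg_ae (Filter.Eventually.of_forall fun η => hF0 _)
      hmeas'.aestronglyMeasurable]
  have h2 : ∫⁻ η, ENNReal.ofReal (if η e = false then F η else 0) ∂(perc d r) =
      ∫⁻ η, (if η e = false then ENNReal.ofReal (F η) else 0) ∂(perc d r) := by
    refine lintegral_congr fun η => ?_
    split_ifs <;> simp
  rw [h2, closed_coord r h0 h1 e (fun η => ENNReal.ofReal (F η)) hF.ennreal_ofReal,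
    ENNReal.toReal_mul, ENNReal.toReal_ofReal (by linarith)]

lemma mK_diff_int (i0 : Fin d) (K : ℕ) {r : ℝ} (h0 : 0 ≤ r) (h1 : r ≤ 1) (ω : Cfg d)
    (x y : V d) : hK i0 K r ω y - hK i0 K r ω x =
      ∫ η, (mK i0 K (inter ω η) y - mK i0 K (inter ω η) x) ∂(perc d r) := by
  haveI := isPP (d := d) h0 h1
  have e : (fun η : Cfg d => mK i0 K (inter ω η) y - mK i0 K (inter ω η) x) =
      fun η => ((y i0 : ℝ) - x i0) - ((dl i0 K (inter ω η) y : ℝ) - dl i0 K (inter ω η) x) := by
    funext η
    unfold mK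
    ring
  have e1 := integral_sub (μ := perc d r) (f := fun _ => ((y i0 : ℝ) - x i0))
    (g := fun η => ((dl i0 K (inter ω η) y : ℝ) - dl i0 K (inter ω η) x)) (integrable_const _)
    ((integrable_dl_inter i0 K h0 h1 y ω).sub (integrable_dl_inter i0 K h0 h1 x ω))
  have e2 := integral_sub (μ := perc d r) (f := fun η => (dl i0 K (inter ω η) y : ℝ))
    (g := fun η => (dl i0 K (inter ω η) x : ℝ)) (integrable_dl_inter i0 K h0 h1 y ω)
    (integrable_dl_inter i0 K h0 h1 x ω)
  rw [e, e1, e2]
  unfold hK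
  simp only [integral_const, probReal_univ, smul_eq_mul, one_mul]
  ring

/-- The gradient of the averaged potential over an open edge at `0`. -/
lemma grad_le (i0 : Fin d) (K : ℕ) {r : ℝ} (h0 : 0 ≤ r) (h1 : r ≤ 1) {ω : Cfg d}
    {s : Dir d} (hs : ω (edge 0 s) = true) :
    (hK i0 K r ω (step s) - hK i0 K r ω 0) ^ 2 ≤
      2 * (perc d r).real {η | ¬ Good K (inter ω η) 0} +
      2 * ((1 - r) ^ 2 * ∫ η, (1 + dl i0 K (inter ω (Function.update η (edge 0 s) false)) 0 +
        dl i0 K (inter ω (Function.update η (edge 0 s) false)) (step s) : ℝ) ^ 2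
          ∂(perc d r)) := by
  classical
  haveI := isPP (d := d) h0 h1
  set e : Ed d := edge 0 s with he
  set F : Cfg d → ℝ := fun η => 1 + dl i0 K (inter ω η) 0 + dl i0 K (inter ω η) (step s) with hF
  have hFm : Measurable F :=
    (measurable_const.add (meas_dl_inter' i0 K 0 ω)).add (meas_dl_inter' i0 K (step s) ω)
  have hF0 : ∀ η, 0 ≤ F η := fun η => by positivity
  have hFC : ∀ η, F η ≤ 1 + K + K := fun η => by
    have a1 : (dl i0 K (inter ω η) 0 : ℝ) ≤ K := by exact_mod_cast dl_le i0 K (inter ω η) 0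
    have a2 : (dl i0 K (inter ω η) (step s) : ℝ) ≤ K := by
      exact_mod_cast dl_le i0 K (inter ω η) (step s)
    simp only [hF]
    linarith
  have hSm : MeasurableSet {η : Cfg d | ¬ Good K (inter ω η) 0} := by
    have h3 : Measurable fun η : Cfg d => inter ω η :=
      measurable_inter.comp (measurable_prodMk_left (x := ω))
    exact (h3 (meas_good K 0)).compl
  set A : Cfg d → ℝ := ({η : Cfg d | ¬ Good K (inter ω η) 0}).indicator (fun _ => (1 : ℝ)) with hA
  set B : Cfg d → ℝ := fun η => if η e = false then F η else 0 with hB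
  have hAm : Measurable A := measurable_const.indicator hSm
  have hBm : Measurable B := by
    refine Measurable.ite ?_ hFm measurable_const
    have h3 : Measurable fun η : Cfg d => η e := measurable_pi_apply e
    exact h3 (measurableSet_singleton false)
  have hA0 : ∀ η, 0 ≤ A η := fun η => Set.indicator_nonneg (fun _ _ => zero_le_one) η
  have hA1 : ∀ η, A η ≤ 1 := fun η => Set.indicator_le_self' (fun _ _ => zero_le_one) η
  have hB0 : ∀ η, 0 ≤ B η := fun η => by
    simp only [hB]; split_ifs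
    · exact hF0 η
    · exact le_refl _
  have hB1 : ∀ η, B η ≤ 1 + K + K := fun η => by
    simp only [hB]; split_ifs
    · exact hFC η
    · positivity
  have hAi : Integrable A (perc d r) := integrable_of_bdd _ hAm 1 fun η => by
    rw [abs_of_nonneg (hA0 η)]; exact hA1 η
  have hBi : Integrable B (perc d r) := integrable_of_bdd _ hBm (1 + K + K) fun η => by
    rw [abs_of_nonneg (hB0 η)]; exact hB1 η
  have hAint : ∫ η, A η ∂(perc d r) = (perc d r).real {η | ¬ Good K (inter ω η) 0} := by
    simp only [hA]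
    rw [integral_indicator hSm]
    simp
  have hBint : ∫ η, B η ∂(perc d r) = (1 - r) * ∫ η, F (Function.update η e false) ∂(perc d r) :=
    closed_coord_real r h0 h1 e F hFm hF0 _ hFC
  have hgrad : |hK i0 K r ω (step s) - hK i0 K r ω 0| ≤
      (∫ η, A η ∂(perc d r)) + ∫ η, B η ∂(perc d r) := by
    rw [mK_diff_int i0 K h0 h1, ← integral_add hAi hBi]
    have hmm : ∀ x : V d, Measurable fun η : Cfg d => mK i0 K (inter ω η) x := fun x =>
      measurable_const.sub (meas_dl_inter' i0 K x ω)
    refine (abs_integral_le_integral_abs).trans (integral_mono_of_nonneg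
      (Filter.Eventually.of_forall fun η => abs_nonneg _) (hAi.add hBi)
      (Filter.Eventually.of_forall fun η => ?_))
    show |mK i0 K (inter ω η) (step s) - mK i0 K (inter ω η) 0| ≤ A η + B η
    have hd0 : mK i0 K (inter ω η) (step s) = mK i0 K (inter ω η) (0 + step s) := by
      rw [zero_add]
    by_cases hη : η e = false
    · have h3 := mK_diff i0 K (inter ω η) 0 s
      rw [zero_add] at h3
      have h4 : B η = F η := by simp only [hB, hη, if_true]
      rw [h4]
      have := hA0 η
      simp only [hF]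
      linarith
    · have hη' : inter ω η (edge 0 s) = true := by
        show (ω e && η e) = true
        rw [hs]
        cases h5 : η e
        · exact absurd h5 hη
        · rfl
      have h4 : B η = 0 := by simp only [hB, hη]; simp
      rw [h4, add_zero, hd0]
      by_cases hg : Good K (inter ω η) 0
      · rw [mK_diff_open i0 K hη' hg, abs_zero]
        exact hA0 η
      · have h5 : A η = 1 := by
          simp only [hA]
          exact Set.indicator_of_mem (show η ∈ {η : Cfg d | ¬ Good K (inter ω η) 0} from hg) _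
        rw [h5]
        exact mK_diff_open' i0 K hη' hg
  have ha0 : 0 ≤ ∫ η, A η ∂(perc d r) := integral_nonneg hA0
  have ha1 : ∫ η, A η ∂(perc d r) ≤ 1 := by
    rw [hAint]; exact measureReal_le_one
  have hb0 : 0 ≤ ∫ η, B η ∂(perc d r) := integral_nonneg hB0
  have hFu : Measurable fun η : Cfg d => F (Function.update η e false) :=
    hFm.comp (measurable_upd e false)
  have hJ : (∫ η, F (Function.update η e false) ∂(perc d r)) ^ 2 ≤
      ∫ η, (F (Function.update η e false)) ^ 2 ∂(perc d r) :=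
    sq_integral_le _ hFu (1 + K + K) fun η => by
      rw [abs_of_nonneg (hF0 _)]; exact hFC _
  have hsq : (hK i0 K r ω (step s) - hK i0 K r ω 0) ^ 2 ≤
      ((∫ η, A η ∂(perc d r)) + ∫ η, B η ∂(perc d r)) ^ 2 := by
    rw [← sq_abs]
    gcongr
  have hfin : ((∫ η, A η ∂(perc d r)) + ∫ η, B η ∂(perc d r)) ^ 2 ≤
      2 * (∫ η, A η ∂(perc d r)) + 2 * (∫ η, B η ∂(perc d r)) ^ 2 := by
    nlinarith [sq_nonneg ((∫ η, A η ∂(perc d r)) - ∫ η, B η ∂(perc d r))]
  refine hsq.trans (hfin.trans ?_)
  rw [hAint, hBint, mul_pow]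
  have h2 : 0 ≤ (1 - r) ^ 2 := sq_nonneg _
  have h3 : (1 - r) ^ 2 * (∫ η, F (Function.update η e false) ∂(perc d r)) ^ 2 ≤
      (1 - r) ^ 2 * ∫ η, (F (Function.update η e false)) ^ 2 ∂(perc d r) := by
    gcongr
  linarith

end H5DF
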