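import Mathlib

/-!
Menger's theorem for TWO edge-disjoint walks from a set `X` to a set `S` (job DF-1, MP_0d9ad5_pr).

If no single edge separates `X` from `S` then there are two edge-disjoint walks from `X` to `S`.

PROOF. Walk along a walk `v_0 ∈ X, …, v_n ∈ S` of `G` and keep edge-disjoint PATHS `P : x → v_i`
and `Q : y → (v_i or a point of S)`, `x, y ∈ X` (`State`); the step uses a walk from `X` to `S` that
avoids the edge `s(v_i, v_{i+1})`, from its last vertex on `P` or `Q` on (`exists_tail_walk`).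
-/

namespace H5DF

open SimpleGraph

variable {V : Type*} {G : SimpleGraph V}

/-- For a walk `R : a → b` with a vertex in `U` there are `z ∈ U` and `R' : z → b` with edges among
those of `R` and no vertex of `R'.support.tail` in `U`. -/
theorem exists_tail_walk (U : Set V) {a b : V} (R : G.Walk a b) (hU : ∃ z ∈ R.support, z ∈ U) :
    ∃ z ∈ U, ∃ R' : G.Walk z b, (∀ e ∈ R'.edges, e ∈ R.edges) ∧
      ∀ w ∈ R'.support.tail, w ∉ U := by
  induction R with
  | nil =>
      obtain ⟨z, hz, hzU⟩ := hU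
      simp only [Walk.support_nil, List.mem_singleton] at hz
      subst hz
      exact ⟨z, hzU, Walk.nil, by simp, by simp⟩
  | @cons u v w h p ih =>
      by_cases hp : ∃ z ∈ p.support, z ∈ U
      · obtain ⟨z, hz, R', h1, h2⟩ := ih hp
        refine ⟨z, hz, R', fun e he => ?_, h2⟩
        rw [Walk.edges_cons]
        exact List.mem_cons_of_mem _ (h1 e he)
      · push Not at hp
        obtain ⟨z, hz, hzU⟩ := hU
        rw [Walk.support_cons, List.mem_cons] at hz
        rcases hz with rfl | hz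
        · refine ⟨z, hzU, Walk.cons h p, fun e he => he, fun w hw => ?_⟩
          rw [Walk.support_cons, List.tail_cons] at hw
          exact hp w hw
        · exact absurd hzU (hp z hz)

/-- Every edge of a walk has an end in the tail of its support. -/
theorem exists_mem_tail {a b : V} (R : G.Walk a b) (e : Sym2 V) (he : e ∈ R.edges) :
    ∃ w ∈ R.support.tail, w ∈ e := by
  cases R with
  | nil => simp at he
  | @cons u v w h p =>
      rw [Walk.edges_cons, List.mem_cons] at he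
      rw [Walk.support_cons, List.tail_cons]
      rcases he with rfl | he
      · exact ⟨v, p.start_mem_support, Sym2.mem_mk_right _ _⟩
      · induction e using Sym2.ind with
        | _ c d =>
          exact ⟨c, Walk.fst_mem_support_of_mem_edges p he, Sym2.mem_mk_left _ _⟩

/-- A vertex of an edge of a walk is in its support. -/
theorem mem_support_of_mem_edge {a b : V} (R : G.Walk a b) (e : Sym2 V) (he : e ∈ R.edges)
    (w : V) (hw : w ∈ e) : w ∈ R.support := by
  induction e using Sym2.ind with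
  | _ c d =>
    rcases Sym2.mem_iff.1 hw with rfl | rfl
    · exact Walk.fst_mem_support_of_mem_edges R he
    · exact Walk.snd_mem_support_of_mem_edges R he

/-- Extend a path by an edge (or cut it at the new vertex). -/
theorem exists_ext {x v w : V} (P : G.Walk x v) (hP : P.IsPath) (hvw : G.Adj v w) :
    ∃ P' : G.Walk x w, P'.IsPath ∧ ∀ e ∈ P'.edges, e = s(v, w) ∨ e ∈ P.edges := by
  classical
  by_cases hw : w ∈ P.support
  · exact ⟨P.takeUntil w hw, hP.takeUntil hw,
      fun e he => Or.inr (P.edges_takeUntil_subset_edges hw he)⟩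
  · refine ⟨P.concat hvw, hP.concat hw hvw, fun e he => ?_⟩
    rw [Walk.edges_concat, List.concat_eq_append, List.mem_append, List.mem_singleton] at he
    exact he.symm

/-- Cut a path at a vertex different from its end: the end is avoided. -/
theorem exists_cut {x v w : V} (P : G.Walk x v) (hP : P.IsPath) (hw : w ∈ P.support)
    (hvw : w ≠ v) :
    ∃ P' : G.Walk x w, P'.IsPath ∧ (∀ e ∈ P'.edges, e ∈ P.edges) ∧ v ∉ P'.support := by
  classical
  exact ⟨P.takeUntil w hw, hP.takeUntil hw, fun e he => P.edges_takeUntil_subset_edges hw he,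
    Walk.endpoint_notMem_support_takeUntil hP hw hvw.symm⟩

/-- The state of the induction at the vertex `v`. -/
def State (G : SimpleGraph V) (X S : Set V) (v : V) : Prop :=
  ∃ x ∈ X, ∃ y ∈ X, ∃ P : G.Walk x v, P.IsPath ∧
    ((∃ Q : G.Walk y v, Q.IsPath ∧ ∀ e ∈ P.edges, e ∉ Q.edges) ∨
      ∃ s ∈ S, ∃ Q : G.Walk y s, Q.IsPath ∧ ∀ e ∈ P.edges, e ∉ Q.edges)

/-- Auxiliary step: one path is extended, the other one is rerouted to `S`. -/
theorem reroute {X S : Set V} {x y v w z s : V} (hx : x ∈ X) (hy : y ∈ X) (hs : s ∈ S)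
    (P : G.Walk x v) (hP : P.IsPath) (Q : G.Walk y v)
    (hPQ : ∀ e ∈ P.edges, e ∉ Q.edges) (hvw : G.Adj v w)
    (hfQ : s(v, w) ∉ Q.edges) (hz : z ∈ Q.support) (R : G.Walk z s)
    (hR : ∀ e ∈ R.edges, e ∉ P.edges) (hfR : s(v, w) ∉ R.edges) : State G X S w := by
  classical
  obtain ⟨P', hP', hP'e⟩ := exists_ext P hP hvw
  refine ⟨x, hx, y, hy, P', hP', Or.inr ⟨s, hs, ((Q.takeUntil z hz).append R).bypass,
    Walk.bypass_isPath _, fun e he he2 => ?_⟩⟩
  have he3 := Walk.edges_bypass_subset_edges _ he2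
  rw [Walk.edges_append, List.mem_append] at he3
  rcases he3 with he3 | he3
  · have he4 := Q.edges_takeUntil_subset_edges hz he3
    rcases hP'e e he with rfl | he5
    · exact hfQ he4
    · exact hPQ e he5 he4
  · rcases hP'e e he with rfl | he5
    · exact hfR he3
    · exact hR e he3 he5

/-- The step when both paths end at `v`. -/
theorem step_both {X S : Set V} {x y v w : V} (hx : x ∈ X) (hy : y ∈ X)
    (h : ∀ g : Sym2 V, ∃ x ∈ X, ∃ s ∈ S, (G.deleteEdges {g}).Reachable x s)
    (P : G.Walk x v) (hP : P.IsPath) (Q : G.Walk y v) (hQ : Q.IsPath)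
    (hPQ : ∀ e ∈ P.edges, e ∉ Q.edges) (hvw : G.Adj v w) : State G X S w := by
  classical
  by_cases hfP : s(v, w) ∈ P.edges
  · obtain ⟨P', hP', hP'e, hv⟩ := exists_cut P hP (Walk.snd_mem_support_of_mem_edges P hfP)
      hvw.ne'
    obtain ⟨Q', hQ', hQ'e⟩ := exists_ext Q hQ hvw
    refine ⟨x, hx, y, hy, P', hP', Or.inl ⟨Q', hQ', fun e he he2 => ?_⟩⟩
    rcases hQ'e e he2 with rfl | he3
    · exact hv (Walk.fst_mem_support_of_mem_edges P' he)
    · exact hPQ e (hP'e e he) he3
  by_cases hfQ : s(v, w) ∈ Q.edges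
  · obtain ⟨Q', hQ', hQ'e, hv⟩ := exists_cut Q hQ (Walk.snd_mem_support_of_mem_edges Q hfQ)
      hvw.ne'
    obtain ⟨P', hP', hP'e⟩ := exists_ext P hP hvw
    refine ⟨x, hx, y, hy, P', hP', Or.inl ⟨Q', hQ', fun e he he2 => ?_⟩⟩
    rcases hP'e e he with rfl | he3
    · exact hv (Walk.fst_mem_support_of_mem_edges Q' he2)
    · exact hPQ e he3 (hQ'e e he2)
  obtain ⟨x', hx', s, hs, ⟨R0⟩⟩ := h s(v, w)
  have hle : G.deleteEdges {s(v, w)} ≤ G := SimpleGraph.deleteEdges_le _
  set R : G.Walk x' s := R0.mapLe hle with hRdef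
  have hfR : s(v, w) ∉ R.edges := by
    intro hmem
    rw [hRdef, Walk.edges_mapLe_eq_edges] at hmem
    have := R0.edges_subset_edgeSet hmem
    rw [SimpleGraph.edgeSet_deleteEdges] at this
    exact this.2 rfl
  by_cases hU : ∃ z ∈ R.support, z ∈ {z | z ∈ P.support ∨ z ∈ Q.support}
  · obtain ⟨z, hz, R', hR'e, hR't⟩ := exists_tail_walk _ R hU
    have hR'P : ∀ e ∈ R'.edges, e ∉ P.edges := by
      intro e he he2
      obtain ⟨u, hu, hue⟩ := exists_mem_tail R' e he
      exact hR't u hu (Or.inl (mem_support_of_mem_edge P e he2 u hue))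
    have hR'Q : ∀ e ∈ R'.edges, e ∉ Q.edges := by
      intro e he he2
      obtain ⟨u, hu, hue⟩ := exists_mem_tail R' e he
      exact hR't u hu (Or.inr (mem_support_of_mem_edge Q e he2 u hue))
    rcases hz with hz | hz
    · exact reroute hy hx hs Q hQ P (fun e he he2 => hPQ e he2 he) hvw hfP hz R' hR'Q
        (fun he => hfR (hR'e _ he))
    · exact reroute hx hy hs P hP Q hPQ hvw hfQ hz R' hR'P (fun he => hfR (hR'e _ he))
  · push Not at hU
    obtain ⟨P', hP', hP'e⟩ := exists_ext P hP hvw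
    refine ⟨x, hx, x', hx', P', hP', Or.inr ⟨s, hs, R.bypass, R.bypass_isPath,
      fun e he he2 => ?_⟩⟩
    have he3 := R.edges_bypass_subset_edges he2
    rcases hP'e e he with rfl | he4
    · exact hfR he3
    · induction e using Sym2.ind with
      | _ c d =>
        exact hU c (Walk.fst_mem_support_of_mem_edges R he3)
          (Or.inl (Walk.fst_mem_support_of_mem_edges P he4))

/-- The induction step. -/
theorem State.step {X S : Set V} {v w : V}
    (h : ∀ g : Sym2 V, ∃ x ∈ X, ∃ s ∈ S, (G.deleteEdges {g}).Reachable x s)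
    (hv : State G X S v) (hvw : G.Adj v w) : State G X S w := by
  classical
  obtain ⟨x, hx, y, hy, P, hP, ⟨Q, hQ, hPQ⟩ | ⟨s, hs, Q, hQ, hPQ⟩⟩ := hv
  · exact step_both hx hy h P hP Q hQ hPQ hvw
  obtain ⟨P', hP', hP'e⟩ := exists_ext P hP hvw
  by_cases hfQ : s(v, w) ∈ Q.edges
  · have hwQ : w ∈ Q.support := Walk.snd_mem_support_of_mem_edges Q hfQ
    set Q1 := Q.takeUntil w hwQ with hQ1
    have hQ1P : Q1.IsPath := hQ.takeUntil hwQ
    have hQ1e : ∀ e ∈ Q1.edges, e ∈ Q.edges := fun e he => Q.edges_takeUntil_subset_edges hwQ he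
    by_cases hf1 : s(v, w) ∈ Q1.edges
    · obtain ⟨Q2, hQ2, hQ2e, -⟩ := exists_cut Q1 hQ1P (Walk.fst_mem_support_of_mem_edges Q1 hf1)
        hvw.ne
      exact step_both hx hy h P hP Q2 hQ2
        (fun e he he2 => hPQ e he (hQ1e e (hQ2e e he2))) hvw
    · refine ⟨x, hx, y, hy, P', hP', Or.inl ⟨Q1, hQ1P, fun e he he2 => ?_⟩⟩
      rcases hP'e e he with rfl | he3
      · exact hf1 he2
      · exact hPQ e he3 (hQ1e e he2)
  · refine ⟨x, hx, y, hy, P', hP', Or.inr ⟨s, hs, Q, hQ, fun e he he2 => ?_⟩⟩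
    rcases hP'e e he with rfl | he3
    · exact hfQ he2
    · exact hPQ e he3 he2

/-- **Menger's theorem for two edge-disjoint walks** from the set `X` to the set `S`.
(`Nonempty V` is needed: without vertices the hypothesis is vacuous.) -/
theorem menger_set {V : Type*} [Nonempty V] (G : SimpleGraph V) (X S : Set V)
    (h : ∀ g : Sym2 V, ∃ x ∈ X, ∃ s ∈ S, (G.deleteEdges {g}).Reachable x s) :
    ∃ x ∈ X, ∃ y ∈ X, ∃ s ∈ S, ∃ t ∈ S, ∃ (P : G.Walk x s) (Q : G.Walk y t),
      ∀ e ∈ P.edges, e ∉ Q.edges := by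
  obtain ⟨v0⟩ := ‹Nonempty V›
  obtain ⟨x0, hx0, s0, hs0, ⟨W0⟩⟩ := h s(v0, v0)
  have hle : G.deleteEdges {s(v0, v0)} ≤ G := SimpleGraph.deleteEdges_le _
  have key : ∀ {a b : V} (W : G.Walk a b), State G X S a → State G X S b := by
    intro a b W
    induction W with
    | nil => exact id
    | cons hadj p ih => exact fun ha => ih (ha.step h hadj)
  have hst : State G X S s0 := key (W0.mapLe hle)
    ⟨x0, hx0, x0, hx0, Walk.nil, Walk.IsPath.nil, Or.inl ⟨Walk.nil, Walk.IsPath.nil, by simp⟩⟩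
  obtain ⟨x, hx, y, hy, P, -, ⟨Q, -, hPQ⟩ | ⟨s, hs, Q, -, hPQ⟩⟩ := hst
  · exact ⟨x, hx, y, hy, s0, hs0, s0, hs0, P, Q, hPQ⟩
  · exact ⟨x, hx, y, hy, s0, hs0, s, hs, P, Q, hPQ⟩

/-- Two edge-disjoint walks from a vertex to a set. -/
theorem menger_two {V : Type*} (G : SimpleGraph V) (x : V) (S : Set V)
    (h : ∀ g : Sym2 V, ∃ s ∈ S, (G.deleteEdges {g}).Reachable x s) :
    ∃ s ∈ S, ∃ t ∈ S, ∃ (P : G.Walk x s) (Q : G.Walk x t), ∀ e ∈ P.edges, e ∉ Q.edges := by
  have : Nonempty V := ⟨x⟩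
  obtain ⟨y, hy, z, hz, s, hs, t, ht, P, Q, hPQ⟩ := menger_set G {x} S
    (fun g => ⟨x, rfl, h g⟩)
  rw [Set.mem_singleton_iff] at hy hz
  subst hy
  subst hz
  exact ⟨s, hs, t, ht, P, Q, hPQ⟩

end H5DF
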