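import Pool.Agent.H5.DF.Meas
import Pool.Agent.H5.DF.Menger
import Pool.Agent.H5.DF.BK

/-!
JOB DF-6 (MP_0d9ad5_pr): a `k`-live vertex of the infinite cluster has two edge-disjoint arms.
You may use Defs, Thin, Attach, Meas, Menger, BK (their sorries are other jobs).

PROOF (paper). `M : ℕ`. `arm ω := ∃ y, (M : ℝ) ≤ ‖y‖ ∧ (G ω).Reachable 0 y`.
(a) `two_arms`. Let `k ≥ (2 M + 1)^d` (number of points with `‖y‖ < M` is at most that), `0` live. For
every edge `g` the component of `0` in `G ω - g` is not (finite of size `≤ k`), so it contains a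
point with `‖y‖ ≥ M`. Menger (`menger_two`, `S = {y | M ≤ ‖y‖}`) gives edge-disjoint walks `P`, `Q`
from `0` to `S`. `c e := true` iff the edge `s(x, x + e_i)`, `e = (x,i)`, is in `P.edges`. Then `P` is a walk in
`G (ω ∧ c)`, `Q` in `G (ω ∧ ¬ c)`.
(b) `arm ω` depends only on the edges `(x, i)` with `‖x‖ ≤ M` (cut the walk at its first vertex of
norm `≥ M`; norms of neighbours differ by at most 1, an edge `(x,i)` with an end of norm `< M` has
`‖x‖ ≤ M`), a finite set `F`. Push `perc` to `F → Bool` by `Measure.infinitePi_map_restrict'` and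
apply `bk_bern` to `A = B = arm` (extended by `false` outside `F`).
-/

namespace H5DF

open MeasureTheory

variable {d : ℕ}

def Arm (M : ℕ) (ω : Cfg d) : Prop := ∃ y : V d, (M : ℝ) ≤ ‖y‖ ∧ (G ω).Reachable 0 y

section Aux

lemma norm_step_le (s : Dir d) : ‖step s‖ ≤ 1 := by
  obtain ⟨i, b⟩ := s
  rw [pi_norm_le_iff_of_nonneg zero_le_one]
  intro j
  by_cases hj : j = i
  · subst hj
    cases b <;> simp [step]
  · cases b <;> simp [step, hj]

/-- The box of radius `M`. -/
noncomputable def Box (d M : ℕ) : Finset (V d) := Fintype.piFinset fun _ => Finset.Icc (-(M : ℤ)) M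

lemma mem_Box {M : ℕ} {x : V d} : x ∈ Box d M ↔ ‖x‖ ≤ M := by
  rw [pi_norm_le_iff_of_nonneg (Nat.cast_nonneg M)]
  simp only [Box, Fintype.mem_piFinset, Finset.mem_Icc]
  refine forall_congr' fun i => ?_
  rw [Int.norm_eq_abs, abs_le]
  constructor
  · rintro ⟨h1, h2⟩
    exact ⟨by exact_mod_cast h1, by exact_mod_cast h2⟩
  · rintro ⟨h1, h2⟩
    exact ⟨by exact_mod_cast h1, by exact_mod_cast h2⟩

lemma card_Box (M : ℕ) : (Box d M).card = (2 * M + 1) ^ d := by
  rw [Box, Fintype.card_piFinset_const, Int.card_Icc]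
  congr 1
  omega

/-- The edges near the box of radius `M`. -/
def EBox (d M : ℕ) : Set (Ed d) := {e | e.1 ∈ Box d (M + 1)}

lemma finite_EBox (d M : ℕ) : (EBox d M).Finite := by
  have : EBox d M ⊆ ((Box d (M + 1)) ×ˢ (Finset.univ : Finset (Fin d)) : Finset (Ed d)) := by
    intro e he
    simp only [Finset.coe_product, Finset.coe_univ, Set.mem_prod, Finset.mem_coe, Set.mem_univ,
      and_true]
    exact he
  exact (Finset.finite_toSet _).subset this

noncomputable instance (M : ℕ) : Fintype (EBox d M) := (finite_EBox d M).fintype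

open Classical in
/-- Extension by closed edges. -/
noncomputable def exE (M : ℕ) (a : EBox d M → Bool) : Cfg d :=
  fun e => if h : e ∈ EBox d M then a ⟨e, h⟩ else false

lemma exE_restrict (M : ℕ) (ω : Cfg d) (e : Ed d) (he : e ∈ EBox d M) :
    exE M ((EBox d M).domRestrict ω) e = ω e := by
  simp [exE, he, Set.domRestrict]

lemma exE_le (M : ℕ) (ω : Cfg d) (e : Ed d)
    (he : exE M ((EBox d M).domRestrict ω) e = true) : ω e = true := by
  by_cases h : e ∈ EBox d M
  · rwa [exE_restrict M ω e h] at he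
  · simp [exE, h] at he

lemma G_mono {ω ω' : Cfg d} (h : ∀ e, ω e = true → ω' e = true) : G ω ≤ G ω' := by
  intro x y hxy
  obtain ⟨s, h1, h2⟩ := hxy
  exact ⟨s, h1, h _ h2⟩

lemma Arm.mono {M : ℕ} {ω ω' : Cfg d} (h : ∀ e, ω e = true → ω' e = true) (ha : Arm M ω) :
    Arm M ω' := by
  obtain ⟨y, h1, h2⟩ := ha
  exact ⟨y, h1, h2.mono (G_mono h)⟩

lemma edge_mem_EBox {M : ℕ} {x : V d} (hx : ‖x‖ < M) (s : Dir d) : edge x s ∈ EBox d M := by
  simp only [EBox, Set.mem_setOf_eq, mem_Box]
  push_cast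
  obtain ⟨i, b⟩ := s
  cases b
  · simp only [edge, Bool.false_eq_true, if_false]
    have := norm_add_le x (step (i, false))
    have := norm_step_le (d := d) (i, false)
    linarith
  · simp only [edge, if_true]
    linarith

lemma arm_walk (M : ℕ) (ω : Cfg d) {x y : V d} (P : (G ω).Walk x y) (hy : (M : ℝ) ≤ ‖y‖) :
    ∃ y', (M : ℝ) ≤ ‖y'‖ ∧ (G (exE M ((EBox d M).domRestrict ω))).Reachable x y' := by
  induction P with
  | nil => exact ⟨_, hy, SimpleGraph.Reachable.refl _⟩
  | @cons x z y h P ih =>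
    by_cases hx : (M : ℝ) ≤ ‖x‖
    · exact ⟨x, hx, SimpleGraph.Reachable.refl _⟩
    · push Not at hx
      obtain ⟨y', h1, h2⟩ := ih hy
      refine ⟨y', h1, ?_⟩
      obtain ⟨s, hs1, hs2⟩ := h
      have hadj : (G (exE M ((EBox d M).domRestrict ω))).Adj x z := by
        refine ⟨s, hs1, ?_⟩
        rw [exE_restrict M ω _ (edge_mem_EBox hx s)]
        exact hs2
      exact hadj.reachable.trans h2

lemma arm_restrict (M : ℕ) (ω : Cfg d) :
    Arm M (exE M ((EBox d M).domRestrict ω)) ↔ Arm M ω := by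
  constructor
  · exact Arm.mono fun e he => exE_le M ω e he
  · rintro ⟨y, hy, ⟨P⟩⟩
    exact arm_walk M ω P hy

lemma sym_edge (x : V d) (s : Dir d) :
    s((edge x s).1, (edge x s).1 + Pi.single (edge x s).2 1) = s(x, x + step s) := by
  obtain ⟨i, b⟩ := s
  cases b
  · have h : x + step (i, false) + Pi.single i 1 = x := by
      have h1 : (step (i, false) : V d) = - Pi.single i 1 := by
        simp [step, Pi.single_neg]
      rw [h1]
      abel
    simp only [edge, Bool.false_eq_true, if_false]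
    rw [h, Sym2.eq_swap]
  · simp [edge, step]

lemma two_arms (M k : ℕ) (hk : (2 * M + 1) ^ d ≤ k) (ω : Cfg d) (h : Live (G ω) k 0) :
    ∃ c : Cfg d, Arm M (fun e => ω e && c e) ∧ Arm M (fun e => ω e && !c e) := by
  classical
  have hM : ∀ g : Sym2 (V d), ∃ s ∈ {y : V d | (M : ℝ) ≤ ‖y‖},
      ((G ω).deleteEdges {g}).Reachable 0 s := by
    intro g
    by_contra hcon
    push Not at hcon
    refine h g ?_
    have hsub : {y | ((G ω).deleteEdges {g}).Reachable 0 y} ⊆ (Box d M : Set (V d)) := by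
      intro y hy
      rw [Finset.mem_coe, mem_Box]
      by_contra hlt
      push Not at hlt
      exact hcon y hlt.le hy
    refine ⟨(Box d M).finite_toSet.subset hsub, ?_⟩
    calc _ ≤ (Box d M : Set (V d)).ncard := Set.ncard_le_ncard hsub (Box d M).finite_toSet
      _ = (Box d M).card := Set.ncard_coe_finset _
      _ = (2 * M + 1) ^ d := card_Box M
      _ ≤ k := hk
  obtain ⟨s, hs, t, ht, P, Q, hPQ⟩ := menger_two (G ω) 0 {y : V d | (M : ℝ) ≤ ‖y‖} hM
  refine ⟨fun e => decide (s(e.1, e.1 + Pi.single e.2 1) ∈ P.edges), ⟨s, hs, ?_⟩, ⟨t, ht, ?_⟩⟩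
  · refine ⟨P.transfer _ ?_⟩
    intro e he
    have hG := P.edges_subset_edgeSet he
    induction e with
    | h x y =>
      rw [SimpleGraph.mem_edgeSet] at hG ⊢
      obtain ⟨u, hu1, hu2⟩ := hG
      refine ⟨u, hu1, ?_⟩
      simp only [hu2, sym_edge, Bool.true_and, decide_eq_true_eq]
      rwa [← hu1]
  · refine ⟨Q.transfer _ ?_⟩
    intro e he
    have hG := Q.edges_subset_edgeSet he
    induction e with
    | h x y =>
      rw [SimpleGraph.mem_edgeSet] at hG ⊢
      obtain ⟨u, hu1, hu2⟩ := hG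
      refine ⟨u, hu1, ?_⟩
      simp only [hu2, sym_edge, Bool.true_and, Bool.not_eq_true', decide_eq_false_iff_not]
      rw [← hu1]
      intro hP
      exact hPQ _ hP he

lemma isProb_perc (p : ℝ) (h0 : 0 ≤ p) (h1 : p ≤ 1) : IsProbabilityMeasure (perc d p) := by
  have := isProb_bern h0 h1
  unfold perc
  infer_instance

end Aux

theorem meas_arm (M : ℕ) : MeasurableSet {ω : Cfg d | Arm M ω} := by
  have : {ω : Cfg d | Arm M ω} =
      ⋃ y : V d, ({_ω : Cfg d | (M : ℝ) ≤ ‖y‖} ∩ {ω : Cfg d | (G ω).Reachable 0 y}) := by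
    ext ω
    simp [Arm]
  rw [this]
  exact MeasurableSet.iUnion fun y => (MeasurableSet.const _).inter (meas_reach 0 y)

theorem live_le (p : ℝ) (h0 : 0 ≤ p) (h1 : p ≤ 1) (M k : ℕ) (hk : (2 * M + 1) ^ d ≤ k) :
    (perc d p).real {ω | Live (G ω) k 0} ≤ ((perc d p).real {ω | Arm M ω}) ^ 2 := by
  classical
  have hpr := isProb_perc (d := d) p h0 h1
  have hbp := isProb_bern h0 h1
  let A : Set (EBox d M → Bool) := {a | Arm M (exE M a)}
  have hA : ∀ a b : EBox d M → Bool, (∀ i, a i = true → b i = true) → a ∈ A → b ∈ A := by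
    intro a b hab ha
    refine Arm.mono ?_ ha
    intro e he
    by_cases h : e ∈ EBox d M
    · simp only [exE, h, dif_pos] at he ⊢
      exact hab _ he
    · simp [exE, h] at he
  have hmap := Measure.infinitePi_map_restrict' (μ := fun _ : Ed d => bern p) (I := EBox d M)
  have hmeas : ∀ S : Set (EBox d M → Bool), MeasurableSet S := fun S => S.toFinite.measurableSet
  have hrm : Measurable ((EBox d M).domRestrict : Cfg d → (EBox d M → Bool)) :=
    Set.measurable_restrict _
  have hArm : {ω : Cfg d | Arm M ω} = (EBox d M).domRestrict ⁻¹' A := by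
    ext ω
    exact (arm_restrict M ω).symm
  have hPA : perc d p {ω : Cfg d | Arm M ω} =
      (Measure.infinitePi fun _ : EBox d M => bern p) A := by
    rw [hArm, ← hmap, Measure.map_apply hrm (hmeas A)]
    rfl
  have hbk := bk_bern p h0 h1 A A hA hA
  have hsub : {ω : Cfg d | Live (G ω) k 0} ⊆ (EBox d M).domRestrict ⁻¹'
      {a | ∃ c : EBox d M → Bool, (fun i => a i && c i) ∈ A ∧ (fun i => a i && !c i) ∈ A} := by
    intro ω hω
    obtain ⟨c, hc1, hc2⟩ := two_arms M k hk ω hω
    refine ⟨(EBox d M).domRestrict c, ?_, ?_⟩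
    · exact (arm_restrict M (fun e => ω e && c e)).2 hc1
    · exact (arm_restrict M (fun e => ω e && !c e)).2 hc2
  have hle : perc d p {ω : Cfg d | Live (G ω) k 0} ≤
      perc d p {ω : Cfg d | Arm M ω} * perc d p {ω : Cfg d | Arm M ω} := by
    refine (measure_mono hsub).trans ?_
    rw [hPA]
    refine le_trans (le_of_eq ?_) hbk
    rw [← hmap, Measure.map_apply hrm (hmeas _)]
    rfl
  rw [sq, Measure.real, Measure.real, ← ENNReal.toReal_mul]
  exact ENNReal.toReal_mono (ENNReal.mul_ne_top (measure_ne_top _ _) (measure_ne_top _ _)) hle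

/-- The one-arm probabilities tend to the percolation probability. -/
theorem arm_tendsto (p : ℝ) (h0 : 0 ≤ p) (h1 : p ≤ 1) :
    Filter.Tendsto (fun M : ℕ => (perc d p).real {ω | Arm M ω}) Filter.atTop
      (nhds (theta d p)) := by
  have hpr := isProb_perc (d := d) p h0 h1
  have hanti : Antitone fun M : ℕ => {ω : Cfg d | Arm M ω} := by
    intro M N hMN ω hω
    obtain ⟨y, h1, h2⟩ := hω
    exact ⟨y, le_trans (by exact_mod_cast hMN) h1, h2⟩
  have hinter : (⋂ M : ℕ, {ω : Cfg d | Arm M ω}) = {ω : Cfg d | (cluster ω 0).Infinite} := by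
    ext ω
    simp only [Set.mem_iInter, Set.mem_setOf_eq]
    constructor
    · intro h hf
      obtain ⟨N, hN⟩ : ∃ N : ℕ, ∀ y ∈ cluster ω 0, ‖y‖ < N := by
        obtain ⟨B, hB⟩ := (hf.image fun y : V d => ‖y‖).bddAbove
        obtain ⟨N, hN⟩ := exists_nat_gt B
        exact ⟨N, fun y hy => lt_of_le_of_lt (hB ⟨y, hy, rfl⟩) hN⟩
      obtain ⟨y, hy1, hy2⟩ := h N
      exact absurd hy1 (not_le.2 (hN y hy2))
    · intro h M
      by_contra hcon
      refine h ((Box d M).finite_toSet.subset ?_)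
      intro y hy
      rw [Finset.mem_coe, mem_Box]
      by_contra hlt
      push Not at hlt
      exact hcon ⟨y, hlt.le, hy⟩
  have ht := tendsto_measure_iInter_atTop (μ := perc d p)
    (fun M : ℕ => (meas_arm (d := d) M).nullMeasurableSet) hanti ⟨0, measure_ne_top _ _⟩
  rw [hinter] at ht
  exact (ENNReal.tendsto_toReal (measure_ne_top _ _)).comp ht

end H5DF
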