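import Mathlib

/-!
JOB DF-3 (MP_0d9ad5_pr): dangling ends of an infinite component. Pure graph theory.

`Live G k x`: no edge `g` leaves `x` in a component of size `≤ k` of `G` minus `g`.
`Att G k x w`: `w` is live and `x` is joined to `w` by a walk all of whose vertices `≠ w` are not
live. Let `x` have an infinite component in `G`.

PROOF (paper). Let `x` be not live. `K g x := {y | (G.deleteEdges {g}).Reachable x y}`. Choose `g` with
`K g x` finite of size `≤ k` and of MAXIMAL size, `K := K g x`. Since the component of `x` is
infinite there is an edge `v w` of `G` with `v ∈ K`, `w ∉ K`; it must be `g` (else `w ∈ K`). So (1)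
`g = s(v,w)` is the only edge leaving `K`. (2) Every `y ∈ K` is not live (`K g y = K`). (3) `K g w`
is infinite: every vertex reachable from `x` in `G` is reachable from `v` or from `w` in `G - g`.
(4) `w` is live: suppose `K' := K g' w` finite, size `≤ k`. If `g' = g`: contradiction to (3). If
both ends of `g'` are in `K`: walks from `w` in `G - g` avoid `K`, hence `g'`, so `K g w ⊆ K'`,
contradiction to (3). Otherwise (`g' ≠ g`, not both ends in `K`) walks inside `K` avoid `g'`, so
`K ∪ {w} ⊆ K'` and `K' = K g' x`, contradicting the maximality of `K`. (5) So `Att G k x w`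
(walk inside `K` to `v`, then `w`; it has length `≤ |K| ≤ k` if the walk in `K` is a path).
Uniqueness: if `Att G k x w1` then `w1 ∉ K` as `K` has no live vertex, so the walk leaves `K`, first
through `g`, i.e. it visits the live vertex `w`, hence `w = w1`. If `x` is live then `w = x` only.
`att_adj`: if `y` is not live put the edge `y x` in front of the walk; if `y` is live then
`Att G k x y` by the one-edge walk, so `y = w` by uniqueness.
-/

namespace H5DF

variable {V : Type*}

def Live (G : SimpleGraph V) (k : ℕ) (x : V) : Prop :=
  ∀ g : Sym2 V, ¬ ({y | (G.deleteEdges {g}).Reachable x y}.Finite ∧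
    {y | (G.deleteEdges {g}).Reachable x y}.ncard ≤ k)

def Att (G : SimpleGraph V) (k : ℕ) (x w : V) : Prop :=
  Live G k w ∧ ∃ P : G.Walk x w, ∀ y ∈ P.support, y ≠ w → ¬ Live G k y

/-- The small side of the maximal cutting edge. -/
theorem core (G : SimpleGraph V) (k : ℕ) (x : V) (hx : {y | G.Reachable x y}.Infinite)
    (hl : ¬ Live G k x) : ∃ (K : Set V) (g : Sym2 V) (v w : V), x ∈ K ∧ v ∈ K ∧ w ∉ K ∧ K.Finite ∧
      K.ncard ≤ k ∧ (∀ y ∈ K, ¬ Live G k y) ∧ Live G k w ∧ G.Adj v w ∧
      (∀ a ∈ K, ∀ b, b ∉ K → G.Adj a b → a = v ∧ b = w) ∧
      K = {y | (G.deleteEdges {g}).Reachable x y} := by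
  classical
  let C : Sym2 V → V → Set V := fun g z => {y | (G.deleteEdges {g}).Reachable z y}
  -- a maximal cutting edge
  have hex : ∃ n, ∃ g, (C g x).Finite ∧ (C g x).ncard ≤ k ∧ (C g x).ncard = n := by
    unfold Live at hl
    push Not at hl
    obtain ⟨g, h1, h2⟩ := hl
    exact ⟨_, g, h1, h2, rfl⟩
  obtain ⟨n0, hn0⟩ := hex
  let Q : ℕ → Prop := fun n => ∃ g, (C g x).Finite ∧ (C g x).ncard ≤ k ∧ (C g x).ncard = n
  have hn0k : n0 ≤ k := by
    obtain ⟨g, -, h2, h3⟩ := hn0
    omega
  have hQ : Q (Nat.findGreatest Q k) := Nat.findGreatest_spec hn0k hn0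
  obtain ⟨g, hfin, hcard, hmax⟩ := hQ
  have hmaxi : ∀ g', (C g' x).Finite → (C g' x).ncard ≤ k → (C g' x).ncard ≤ (C g x).ncard := by
    intro g' h1 h2
    rw [hmax]
    exact Nat.le_findGreatest h2 ⟨g', h1, h2, rfl⟩
  set K := C g x with hK
  have hxK : x ∈ K := SimpleGraph.Reachable.refl x
  -- membership is stable along edges different from g
  have hstep : ∀ a b, a ∈ K → G.Adj a b → s(a, b) ≠ g → b ∈ K := by
    intro a b ha hab hne
    have hadj : (G.deleteEdges {g}).Adj a b := by
      rw [SimpleGraph.deleteEdges_adj]
      exact ⟨hab, by simpa using hne⟩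
    exact SimpleGraph.Reachable.trans ha hadj.reachable
  obtain ⟨z, hz, hzK⟩ : ∃ z, G.Reachable x z ∧ z ∉ K := by
    by_contra hc
    push Not at hc
    exact hx (hfin.subset fun y hy => hc y hy)
  obtain ⟨p⟩ := hz
  obtain ⟨d, -, hd1, hd2⟩ := p.exists_boundary_dart K hxK hzK
  set v := d.fst with hv
  set w := d.snd with hw
  have hvw : G.Adj v w := d.adj
  have hg : s(v, w) = g := by
    by_contra hne
    exact hd2 (hstep v w hd1 hvw hne)
  have hexit : ∀ a ∈ K, ∀ b, b ∉ K → G.Adj a b → a = v ∧ b = w := by
    intro a ha b hb hab
    have h1 : s(a, b) = g := by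
      by_contra hne
      exact hb (hstep a b ha hab hne)
    rw [← hg, Sym2.eq_iff] at h1
    rcases h1 with h1 | h1
    · exact h1
    · exfalso
      rw [h1.1] at ha
      exact hd2 ha
  have hKeq : ∀ y ∈ K, C g y = K := by
    intro y hy
    ext z
    exact ⟨fun h => SimpleGraph.Reachable.trans hy h,
      fun h => SimpleGraph.Reachable.trans (SimpleGraph.Reachable.symm hy) h⟩
  have hnl : ∀ y ∈ K, ¬ Live G k y := by
    intro y hy h
    refine h g ⟨?_, ?_⟩
    · have := hKeq y hy
      show (C g y).Finite
      rw [this]; exact hfin
    · have := hKeq y hy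
      show (C g y).ncard ≤ k
      rw [this]; exact hcard
  -- the other side is infinite
  have hinf : (C g w).Infinite := by
    intro hfin2
    apply hx
    refine (hfin.union hfin2).subset ?_
    intro z hz
    rw [Set.mem_ofPred_eq, SimpleGraph.reachable_iff_reflTransGen] at hz
    induction hz with
    | refl => exact Or.inl hxK
    | tail h3 hab ih =>
      rename_i a b
      by_cases hne : s(a, b) = g
      · rw [← hg, Sym2.eq_iff] at hne
        rcases hne with ⟨h1, h2⟩ | ⟨h1, h2⟩
        · right; rw [h2]; exact SimpleGraph.Reachable.refl w
        · left; rw [h2]; exact hd1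
      · have hadj : (G.deleteEdges {g}).Adj a b := by
          rw [SimpleGraph.deleteEdges_adj]
          exact ⟨hab, by simpa using hne⟩
        rcases ih with h1 | h1
        · exact Or.inl (SimpleGraph.Reachable.trans h1 hadj.reachable)
        · exact Or.inr (SimpleGraph.Reachable.trans h1 hadj.reachable)
  have hdisj : ∀ y, y ∈ C g w → y ∉ K := by
    intro y hy hyK
    apply hd2
    exact SimpleGraph.Reachable.trans hyK (SimpleGraph.Reachable.symm hy)
  have hlive : Live G k w := by
    rintro g' ⟨h1, h2⟩
    have h1' : (C g' w).Finite := h1
    have h2' : (C g' w).ncard ≤ k := h2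
    by_cases hgg : g' = g
    · rw [hgg] at h1'
      exact hinf h1'
    · by_cases hends : ∀ a ∈ g', a ∈ K
      · -- both ends in K
        apply hinf
        refine h1'.subset ?_
        intro z hz
        have hz' : (G.deleteEdges {g}).Reachable w z := hz
        rw [SimpleGraph.reachable_iff_reflTransGen] at hz'
        show (G.deleteEdges {g'}).Reachable w z
        have : ∀ z, Relation.ReflTransGen (G.deleteEdges {g}).Adj w z →
            (G.deleteEdges {g'}).Reachable w z := by
          intro z hz
          induction hz with
          | refl => exact SimpleGraph.Reachable.refl w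
          | tail h3 hab ih =>
            rename_i a b
            have haC : a ∈ C g w := by
              show (G.deleteEdges {g}).Reachable w a
              rw [SimpleGraph.reachable_iff_reflTransGen]; exact h3
            have haK := hdisj a haC
            have hab' := hab
            rw [SimpleGraph.deleteEdges_adj] at hab'
            have hadj : (G.deleteEdges {g'}).Adj a b := by
              rw [SimpleGraph.deleteEdges_adj]
              refine ⟨hab'.1, ?_⟩
              intro h4
              have h4' : s(a, b) = g' := by simpa using h4
              exact haK (hends a (by rw [← h4']; exact Sym2.mem_mk_left a b))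
            exact SimpleGraph.Reachable.trans ih hadj.reachable
        exact this z hz'
      · -- not both ends in K
        have hin : ∀ y ∈ K, y ∈ C g' w := by
          intro y hy
          have hvy : (G.deleteEdges {g}).Reachable v y :=
            SimpleGraph.Reachable.trans (SimpleGraph.Reachable.symm hd1) hy
          have hwv : (G.deleteEdges {g'}).Adj w v := by
            rw [SimpleGraph.deleteEdges_adj]
            refine ⟨hvw.symm, ?_⟩
            intro h4
            have h4' : s(w, v) = g' := by simpa using h4
            apply hgg
            rw [← h4', ← hg, Sym2.eq_swap]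
          have : ∀ y, Relation.ReflTransGen (G.deleteEdges {g}).Adj v y →
              (G.deleteEdges {g'}).Reachable w y := by
            intro y hy
            induction hy with
            | refl => exact hwv.reachable
            | tail h3 hab ih =>
              rename_i a b
              have haK : a ∈ K := by
                have h5 : (G.deleteEdges {g}).Reachable v a := by
                  rw [SimpleGraph.reachable_iff_reflTransGen]; exact h3
                exact SimpleGraph.Reachable.trans hd1 h5
              have hbK : b ∈ K := SimpleGraph.Reachable.trans haK hab.reachable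
              have hab' := hab
              rw [SimpleGraph.deleteEdges_adj] at hab'
              have hadj : (G.deleteEdges {g'}).Adj a b := by
                rw [SimpleGraph.deleteEdges_adj]
                refine ⟨hab'.1, ?_⟩
                intro h4
                have h4' : s(a, b) = g' := by simpa using h4
                apply hends
                intro c hc
                rw [← h4', Sym2.mem_iff] at hc
                rcases hc with rfl | rfl
                · exact haK
                · exact hbK
              exact SimpleGraph.Reachable.trans ih hadj.reachable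
          rw [SimpleGraph.reachable_iff_reflTransGen] at hvy
          exact this y hvy
        have hxw : (G.deleteEdges {g'}).Reachable w x := hin x hxK
        have heq : C g' x = C g' w := by
          ext z
          exact ⟨fun h => SimpleGraph.Reachable.trans hxw h,
            fun h => SimpleGraph.Reachable.trans (SimpleGraph.Reachable.symm hxw) h⟩
        have h3 := hmaxi g' (by rw [heq]; exact h1') (by rw [heq]; exact h2')
        rw [heq] at h3
        have h4 : K ⊂ C g' w := by
          refine ⟨fun y hy => hin y hy, ?_⟩
          intro h5
          exact hd2 (h5 (SimpleGraph.Reachable.refl w))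
        have h5 := Set.ncard_lt_ncard h4 h1'
        omega
  exact ⟨K, g, v, w, hxK, hd1, hd2, hfin, hcard, hnl, hlive, hvw, hexit, rfl⟩

theorem att_exists (G : SimpleGraph V) (k : ℕ) (x : V) (hx : {y | G.Reachable x y}.Infinite) :
    ∃ w, Att G k x w ∧ ∃ P : G.Walk x w, P.length ≤ k := by
  classical
  by_cases hl : Live G k x
  · refine ⟨x, ⟨hl, SimpleGraph.Walk.nil, ?_⟩, SimpleGraph.Walk.nil, by simp⟩
    intro y hy hne
    simp only [SimpleGraph.Walk.support_nil, List.mem_singleton] at hy
    exact absurd hy hne
  · obtain ⟨K, g, v, w, hxK, hvK, hwK, hfin, hcard, hnl, hlive, hvw, -, hKdef⟩ := core G k x hx hl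
    have hv : (G.deleteEdges {g}).Reachable x v := by
      rw [hKdef] at hvK; exact hvK
    obtain ⟨q, hq⟩ := hv.exists_isPath
    have hsupp : ∀ y ∈ q.support, y ∈ K := by
      intro y hy
      rw [hKdef]
      exact ⟨q.takeUntil y hy⟩
    let q' : G.Walk x v := q.mapLe (SimpleGraph.deleteEdges_le _)
    have hq's : q'.support = q.support := by
      simp [q']
    let P : G.Walk x w := q'.concat hvw
    have hPs : ∀ y ∈ P.support, y ≠ w → ¬ Live G k y := by
      intro y hy hne
      have h1 : y ∈ q'.support ∨ y = w := by
        simpa [P, SimpleGraph.Walk.support_concat] using hy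
      rcases h1 with h1 | h1
      · rw [hq's] at h1
        exact hnl y (hsupp y h1)
      · exact absurd h1 hne
    refine ⟨w, ⟨hlive, P, hPs⟩, P, ?_⟩
    have hlen : P.length = q.length + 1 := by
      simp [P, q', SimpleGraph.Walk.length_concat]
    rw [hlen]
    have h2 : q.support.toFinset ⊆ hfin.toFinset := by
      intro y hy
      rw [List.mem_toFinset] at hy
      rw [Set.Finite.mem_toFinset]
      exact hsupp y hy
    have h3 := Finset.card_le_card h2
    rw [List.toFinset_card_of_nodup hq.support_nodup, SimpleGraph.Walk.length_support,
      ← Set.ncard_eq_toFinset_card K hfin] at h3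
    omega

theorem att_unique (G : SimpleGraph V) (k : ℕ) (x : V) (hx : {y | G.Reachable x y}.Infinite)
    (w w' : V) (h : Att G k x w) (h' : Att G k x w') : w = w' := by
  by_cases hl : Live G k x
  · have key : ∀ w, Att G k x w → x = w := by
      rintro w ⟨-, P, hP⟩
      by_contra hne
      exact hP x P.start_mem_support hne hl
    rw [← key w h, ← key w' h']
  · obtain ⟨K, g, v, w0, hxK, hvK, hwK, hfin, hcard, hnl, hlive, hvw, hexit, -⟩ := core G k x hx hl
    have key : ∀ w, Att G k x w → w0 = w := by
      rintro w ⟨hw, P, hP⟩
      have hwK' : w ∉ K := fun h1 => hnl w h1 hw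
      obtain ⟨d, hd, hd1, hd2⟩ := P.exists_boundary_dart K hxK hwK'
      obtain ⟨-, h2⟩ := hexit d.fst hd1 d.snd hd2 d.adj
      have h3 : w0 ∈ P.support := by
        rw [← h2]; exact P.dart_snd_mem_support_of_mem_darts hd
      by_contra hne
      exact hP w0 h3 hne hlive
    rw [← key w h, ← key w' h']

theorem att_adj (G : SimpleGraph V) (k : ℕ) (x y : V) (hx : {y | G.Reachable x y}.Infinite)
    (hxy : G.Adj x y) (hl : ¬ Live G k x) (w : V) (h : Att G k x w) : Att G k y w := by
  by_cases hy : Live G k y
  · have h1 : Att G k x y := by
      refine ⟨hy, SimpleGraph.Walk.cons hxy SimpleGraph.Walk.nil, ?_⟩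
      intro z hz hne
      simp only [SimpleGraph.Walk.support_cons, SimpleGraph.Walk.support_nil, List.mem_cons,
        List.not_mem_nil, or_false] at hz
      rcases hz with rfl | rfl
      · exact hl
      · exact absurd rfl hne
    have h2 := att_unique G k x hx w y h h1
    rw [h2]
    refine ⟨hy, SimpleGraph.Walk.nil, ?_⟩
    intro z hz hne
    simp only [SimpleGraph.Walk.support_nil, List.mem_singleton] at hz
    exact absurd hz hne
  · obtain ⟨hw, P, hP⟩ := h
    refine ⟨hw, SimpleGraph.Walk.cons hxy.symm P, ?_⟩
    intro z hz hne
    rw [SimpleGraph.Walk.support_cons, List.mem_cons] at hz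
    rcases hz with rfl | hz
    · exact hy
    · exact hP z hz hne

end H5DF
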