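import Pool.Agent.H5.DF.Grad
import Pool.Agent.H5.DF.Arms

/-!
The energy of the averaged potential (MP_0d9ad5_pr).
-/

namespace H5DF

open MeasureTheory ENNReal

variable {d : ℕ}

/-- The far second moment of the two-point function. -/
noncomputable def far (d : ℕ) (p : ℝ) (L : ℕ) : ENNReal :=
  ∑' x : V d, if (L : ℝ) < ‖x‖ then ENNReal.ofReal (‖x‖ ^ 2) * tau d p x else 0

open Classical in
/-- The far second moment of one cluster. -/
noncomputable def farS (L : ℕ) (ω : Cfg d) (x : V d) : ENNReal :=
  ∑' z : V d, if (L : ℝ) < ‖z‖ ∧ x + z ∈ cluster ω x then ENNReal.ofReal (‖z‖ ^ 2) else 0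

lemma farS_mono {L : ℕ} {ω ω' : Cfg d} (h : ∀ e, ω e = true → ω' e = true) (x : V d) :
    farS L ω x ≤ farS L ω' x := by
  unfold farS
  refine ENNReal.tsum_le_tsum fun z => ?_
  by_cases h1 : (L : ℝ) < ‖z‖ ∧ x + z ∈ cluster ω x
  · rw [if_pos h1, if_pos ⟨h1.1, cluster_mono h x h1.2⟩]
  · rw [if_neg h1]; exact bot_le

lemma meas_farS (L : ℕ) (x : V d) : Measurable fun ω : Cfg d => farS L ω x := by
  unfold farS
  refine Measurable.ennreal_tsum fun z => ?_
  refine Measurable.ite ?_ measurable_const measurable_const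
  exact (MeasurableSet.const _).inter (meas_reach x (x + z))

lemma lintegral_farS (p : ℝ) (h0 : 0 ≤ p) (h1 : p ≤ 1) (L : ℕ) (x : V d) :
    ∫⁻ ω, farS L ω x ∂(perc d p) = far d p L := by
  classical
  unfold farS far
  rw [lintegral_tsum]
  · refine tsum_congr fun z => ?_
    by_cases hz : (L : ℝ) < ‖z‖
    · rw [if_pos hz]
      have h2 : (fun ω : Cfg d => if (L : ℝ) < ‖z‖ ∧ x + z ∈ cluster ω x then
          ENNReal.ofReal (‖z‖ ^ 2) else 0) = ({ω : Cfg d | x + z ∈ cluster ω x}).indicator
            (fun _ => ENNReal.ofReal (‖z‖ ^ 2)) := by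
        funext ω
        by_cases h : ω ∈ {ω : Cfg d | x + z ∈ cluster ω x}
        · rw [if_pos ⟨hz, h⟩, Set.indicator_of_mem h]
        · rw [if_neg fun h' => h h'.2, Set.indicator_of_notMem h]
      have hm : MeasurableSet {ω : Cfg d | x + z ∈ cluster ω x} := meas_reach x (x + z)
      rw [h2, lintegral_indicator hm, setLIntegral_const]
      congr 1
      unfold tau
      conv_rhs => rw [← perc_shift (d := d) p h0 h1 x]
      have hm0 : MeasurableSet {ω : Cfg d | z ∈ cluster ω 0} := meas_reach 0 z
      rw [Measure.map_apply (measurable_shift x) hm0]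
      congr 1
      ext ω
      simp only [Set.mem_setOf_eq, Set.mem_preimage]
      rw [cluster_shift, zero_add, Set.mem_setOf_eq, add_comm z x]
    · rw [if_neg hz]
      simp [hz]
  · intro z
    refine (Measurable.ite ?_ measurable_const measurable_const).aemeasurable
    exact (MeasurableSet.const _).inter (meas_reach x (x + z))

/-- `dl ^ 2` is controlled by the far second moment. -/
lemma dl_sq_le (i0 : Fin d) (K L : ℕ) (ω : Cfg d) (x : V d) :
    ENNReal.ofReal ((dl i0 K ω x : ℝ) ^ 2) ≤ ENNReal.ofReal ((L : ℝ) ^ 2) + farS L ω x := by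
  by_cases hL : dl i0 K ω x ≤ L
  · refine le_add_right (ENNReal.ofReal_le_ofReal ?_)
    have : (dl i0 K ω x : ℝ) ≤ L := by exact_mod_cast hL
    gcongr
  · push Not at hL
    have hg : Good K ω x := by
      by_contra hg
      simp [dl, hg] at hL
    obtain ⟨z, hz, -, hz2⟩ := dl_spec i0 hg
    have h3 : (dl i0 K ω x : ℝ) ≤ ‖z - x‖ := by
      have h4 := abs_coord_le i0 (z - x)
      have h5 : (dl i0 K ω x : ℝ) = (x i0 : ℝ) - z i0 := by exact_mod_cast hz2
      simp only [Pi.sub_apply, Int.cast_sub] at h4
      rw [h5]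
      have := neg_abs_le ((z i0 : ℝ) - x i0)
      linarith
    refine le_add_left ?_
    unfold farS
    refine le_trans ?_ (ENNReal.le_tsum (z - x))
    have h6 : (L : ℝ) < ‖z - x‖ := lt_of_lt_of_le (by exact_mod_cast hL) h3
    rw [if_pos ⟨h6, by simpa using hz⟩]
    refine ENNReal.ofReal_le_ofReal ?_
    gcongr

/-- Bad clusters are rare. -/
lemma bad_le (p : ℝ) (K L : ℕ) (hKL : 2 * L ≤ K) :
    ENNReal.ofReal ((K : ℝ) ^ 2) * perc d p {ω | ¬ Good K ω 0} ≤ 4 * far d p L := by
  have hsub : {ω : Cfg d | ¬ Good K ω 0} ⊆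
      ⋃ z : V d, {ω | (K : ℝ) < 2 * ‖z‖ ∧ z ∈ cluster ω 0} := by
    intro ω hω
    simp only [Set.mem_setOf_eq, Good] at hω
    push Not at hω
    obtain ⟨y, hy, z, hz, hyz⟩ := hω
    rw [Set.mem_iUnion]
    by_cases h1 : (K : ℝ) < 2 * ‖y‖
    · exact ⟨y, h1, hy⟩
    · refine ⟨z, ?_, hz⟩
      have := norm_sub_le y z
      push Not at h1
      linarith
  calc ENNReal.ofReal ((K : ℝ) ^ 2) * perc d p {ω | ¬ Good K ω 0}
      ≤ ENNReal.ofReal ((K : ℝ) ^ 2) *
          ∑' z : V d, perc d p {ω | (K : ℝ) < 2 * ‖z‖ ∧ z ∈ cluster ω 0} := by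
        gcongr
        exact (measure_mono hsub).trans (measure_iUnion_le _)
    _ = ∑' z : V d, ENNReal.ofReal ((K : ℝ) ^ 2) *
          perc d p {ω | (K : ℝ) < 2 * ‖z‖ ∧ z ∈ cluster ω 0} := ENNReal.tsum_mul_left.symm
    _ ≤ ∑' z : V d, 4 * (if (L : ℝ) < ‖z‖ then ENNReal.ofReal (‖z‖ ^ 2) * tau d p z else 0) := by
        refine ENNReal.tsum_le_tsum fun z => ?_
        by_cases hz : (K : ℝ) < 2 * ‖z‖
        · have hL : (L : ℝ) < ‖z‖ := by
            have : (2 * L : ℝ) ≤ K := by exact_mod_cast hKL
            linarith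
          rw [if_pos hL, ← mul_assoc]
          have h1 : {ω : Cfg d | (K : ℝ) < 2 * ‖z‖ ∧ z ∈ cluster ω 0} =
              {ω | z ∈ cluster ω 0} := by
            ext ω; simp [hz]
          rw [h1]
          unfold tau
          gcongr
          have h4 : (4 : ENNReal) = ENNReal.ofReal 4 := by simp
          rw [h4, ← ENNReal.ofReal_mul (by norm_num)]
          refine ENNReal.ofReal_le_ofReal ?_
          have hK : (0 : ℝ) ≤ K := Nat.cast_nonneg _
          nlinarith
        · have h1 : {ω : Cfg d | (K : ℝ) < 2 * ‖z‖ ∧ z ∈ cluster ω 0} = ∅ := by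
            ext ω; simp [hz]
          rw [h1]
          simp
    _ = 4 * far d p L := by rw [ENNReal.tsum_mul_left]; rfl

lemma measurable_upd (e : Ed d) (b : Bool) :
    Measurable fun η : Cfg d => (Function.update η e b : Cfg d) := by
  refine measurable_pi_lambda _ fun e' => ?_
  by_cases h : e' = e
  · subst h
    simp only [Function.update_self]
    exact measurable_const
  · simp only [Function.update_of_ne h]
    exact measurable_pi_apply e'

/-- Integrating against the closed state of one coordinate. -/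
lemma closed_coord (r : ℝ) (h0 : 0 ≤ r) (h1 : r ≤ 1) (e : Ed d) (F : Cfg d → ENNReal)
    (hF : Measurable F) :
    ∫⁻ η, (if η e = false then F η else 0) ∂(perc d r) =
      ENNReal.ofReal (1 - r) * ∫⁻ η, F (Function.update η e false) ∂(perc d r) := by
  haveI := isProb_bern h0 h1
  haveI := isPP (d := d) h0 h1
  have hmeas : Measurable fun η : Cfg d => (if η e = false then F η else 0) := by
    refine Measurable.ite ?_ hF measurable_const
    have h3 : Measurable fun η : Cfg d => η e := measurable_pi_apply e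
    exact h3 (measurableSet_singleton false)
  have hup : Measurable fun x : Bool × Cfg d => (Function.update x.2 e x.1 : Cfg d) := by
    refine measurable_pi_lambda _ fun e' => ?_
    by_cases h : e' = e
    · subst h
      simp only [Function.update_self]
      exact measurable_fst
    · simp only [Function.update_of_ne h]
      exact (measurable_pi_apply e').comp measurable_snd
  have hp : perc d r = ((bern r).prod (perc d r)).map
      (fun x : Bool × Cfg d => (Function.update x.2 e x.1 : Cfg d)) := (resample r h0 h1 e).symm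
  conv_lhs => rw [hp]
  rw [lintegral_map hmeas hup]
  have hpr := lintegral_prod (μ := bern r) (ν := perc d r)
    (fun x : Bool × Cfg d => if (Function.update x.2 e x.1 : Cfg d) e = false then
      F (Function.update x.2 e x.1) else 0) (hmeas.comp hup).aemeasurable
  rw [hpr]
  simp only [Function.update_self]
  have h2 : ∀ b : Bool, ∫⁻ (y : Cfg d), (if b = false then F (Function.update y e b) else 0)
      ∂(perc d r) = if b = false then ∫⁻ y, F (Function.update y e false) ∂(perc d r) else 0 := by
    intro b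
    cases b <;> simp
  simp only [h2]
  unfold bern
  rw [lintegral_add_measure, lintegral_smul_measure, lintegral_smul_measure, lintegral_dirac,
    lintegral_dirac]
  simp

end H5DF
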