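import Pool.Agent.H5.DF.Energy2

/-!
The energy of the averaged potential, third part (MP_0d9ad5_pr).
-/

namespace H5DF

open MeasureTheory ENNReal

variable {d : ℕ}

lemma ofReal_F_sq (i0 : Fin d) (K L : ℕ) (ω : Cfg d) (s : Dir d) :
    ENNReal.ofReal ((1 + dl i0 K ω 0 + dl i0 K ω (step s) : ℝ) ^ 2) ≤
      3 * (1 + 2 * ENNReal.ofReal ((L : ℝ) ^ 2) + (farS L ω 0 + farS L ω (step s))) := by
  have a0 := dl_sq_le i0 K L ω 0
  have a1 := dl_sq_le i0 K L ω (step s)
  set u : ℝ := (dl i0 K ω 0 : ℝ)
  set v : ℝ := (dl i0 K ω (step s) : ℝ)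
  have h1 : ((1 + u + v : ℝ)) ^ 2 ≤ 3 * (1 + u ^ 2 + v ^ 2) := by
    nlinarith [sq_nonneg (1 - u), sq_nonneg (1 - v), sq_nonneg (u - v)]
  calc ENNReal.ofReal ((1 + u + v : ℝ) ^ 2) ≤ ENNReal.ofReal (3 * (1 + u ^ 2 + v ^ 2)) :=
        ENNReal.ofReal_le_ofReal h1
    _ = 3 * (1 + ENNReal.ofReal (u ^ 2) + ENNReal.ofReal (v ^ 2)) := by
        rw [ENNReal.ofReal_mul (by norm_num), ENNReal.ofReal_add (by positivity) (by positivity),
          ENNReal.ofReal_add (by positivity) (by positivity)]
        simp
    _ ≤ 3 * (1 + (ENNReal.ofReal ((L : ℝ) ^ 2) + farS L ω 0) +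
          (ENNReal.ofReal ((L : ℝ) ^ 2) + farS L ω (step s))) := by gcongr
    _ = 3 * (1 + 2 * ENNReal.ofReal ((L : ℝ) ^ 2) + (farS L ω 0 + farS L ω (step s))) := by
        ring

lemma grad_le_ennreal (i0 : Fin d) (K L : ℕ) {r : ℝ} (h0 : 0 ≤ r) (h1 : r ≤ 1) {ω : Cfg d}
    {s : Dir d} (hs : ω (edge 0 s) = true) :
    ENNReal.ofReal ((hK i0 K r ω (step s) - hK i0 K r ω 0) ^ 2) ≤
      2 * perc d r {η | ¬ Good K (inter ω η) 0} +
      (6 * ENNReal.ofReal ((1 - r) ^ 2) * (1 + 2 * ENNReal.ofReal ((L : ℝ) ^ 2)) +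
      6 * ENNReal.ofReal ((1 - r) ^ 2) *
        ∫⁻ η, (farS L (inter ω η) 0 + farS L (inter ω η) (step s)) ∂(perc d r)) := by
  haveI := isPP (d := d) h0 h1
  have h := ENNReal.ofReal_le_ofReal (grad_le i0 K h0 h1 hs)
  refine h.trans ?_
  set F : Cfg d → ℝ := fun η =>
    (1 + dl i0 K (inter ω (Function.update η (edge 0 s) false)) 0 +
        dl i0 K (inter ω (Function.update η (edge 0 s) false)) (step s) : ℝ) with hF
  have hFm : Measurable F := by
    have h2 := (meas_dl_inter' i0 K 0 ω).comp (measurable_upd (edge 0 s) false)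
    have h3 := (meas_dl_inter' i0 K (step s) ω).comp (measurable_upd (edge 0 s) false)
    exact (measurable_const.add h2).add h3
  have hint : ENNReal.ofReal (∫ η, F η ^ 2 ∂(perc d r)) =
      ∫⁻ η, ENNReal.ofReal (F η ^ 2) ∂(perc d r) := by
    refine ofReal_integral_eq_lintegral_ofReal ?_ (Filter.Eventually.of_forall fun η =>
      sq_nonneg _)
    refine integrable_of_bdd _ (hFm.pow_const 2) ((1 + K + K : ℝ) ^ 2) fun η => ?_
    rw [abs_of_nonneg (sq_nonneg _)]
    have a1 : (dl i0 K (inter ω (Function.update η (edge 0 s) false)) 0 : ℝ) ≤ K := by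
      exact_mod_cast dl_le i0 K _ 0
    have a2 : (dl i0 K (inter ω (Function.update η (edge 0 s) false)) (step s) : ℝ) ≤ K := by
      exact_mod_cast dl_le i0 K _ (step s)
    have a3 : 0 ≤ F η := by simp only [hF]; positivity
    have a4 : F η ≤ 1 + K + K := by simp only [hF]; linarith
    gcongr
  have hbd : ∫⁻ η, ENNReal.ofReal (F η ^ 2) ∂(perc d r) ≤
      3 * (1 + 2 * ENNReal.ofReal ((L : ℝ) ^ 2)) +
      3 * ∫⁻ η, (farS L (inter ω η) 0 + farS L (inter ω η) (step s)) ∂(perc d r) := by
    have hmI : Measurable fun η : Cfg d => inter ω η :=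
      measurable_inter.comp (measurable_prodMk_left (x := ω))
    have hm3 : Measurable fun η : Cfg d =>
        (farS L (inter ω η) 0 + farS L (inter ω η) (step s)) :=
      ((meas_farS L 0).comp hmI).add ((meas_farS L (step s)).comp hmI)
    calc ∫⁻ η, ENNReal.ofReal (F η ^ 2) ∂(perc d r)
        ≤ ∫⁻ η, (3 * (1 + 2 * ENNReal.ofReal ((L : ℝ) ^ 2)) +
            3 * (farS L (inter ω η) 0 + farS L (inter ω η) (step s))) ∂(perc d r) := by
          refine lintegral_mono fun η => ?_
          refine (ofReal_F_sq i0 K L (inter ω (Function.update η (edge 0 s) false)) s).trans ?_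
          have hm : ∀ e, inter ω (Function.update η (edge 0 s) false) e = true →
              inter ω η e = true := by
            intro e he
            simp only [inter, Bool.and_eq_true] at he ⊢
            refine ⟨he.1, ?_⟩
            by_cases h5 : e = edge 0 s
            · rw [h5] at he
              simp at he
            · rw [Function.update_of_ne h5] at he
              exact he.2
          have b0 := farS_mono (L := L) hm 0
          have b1 := farS_mono (L := L) hm (step s)
          calc 3 * (1 + 2 * ENNReal.ofReal ((L : ℝ) ^ 2) +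
                (farS L (inter ω (Function.update η (edge 0 s) false)) 0 +
                 farS L (inter ω (Function.update η (edge 0 s) false)) (step s)))
              ≤ 3 * (1 + 2 * ENNReal.ofReal ((L : ℝ) ^ 2) +
                (farS L (inter ω η) 0 + farS L (inter ω η) (step s))) := by gcongr
            _ = _ := by ring
      _ = _ := by
          rw [lintegral_add_right _ (hm3.const_mul 3), lintegral_const, measure_univ, mul_one,
            lintegral_const_mul _ hm3]
  calc ENNReal.ofReal (2 * (perc d r).real {η | ¬ Good K (inter ω η) 0} +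
        2 * ((1 - r) ^ 2 * ∫ η, F η ^ 2 ∂(perc d r)))
      = 2 * perc d r {η | ¬ Good K (inter ω η) 0} +
        2 * (ENNReal.ofReal ((1 - r) ^ 2) * ∫⁻ η, ENNReal.ofReal (F η ^ 2) ∂(perc d r)) := by
        have hnn : 0 ≤ ∫ η, F η ^ 2 ∂(perc d r) := integral_nonneg fun η => sq_nonneg _
        rw [ENNReal.ofReal_add (by positivity) (by positivity), ENNReal.ofReal_mul (by norm_num),
          ENNReal.ofReal_mul (by norm_num), ENNReal.ofReal_mul (sq_nonneg _), hint,
          ofReal_measureReal]
        simp
    _ ≤ 2 * perc d r {η | ¬ Good K (inter ω η) 0} +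
        2 * (ENNReal.ofReal ((1 - r) ^ 2) * (3 * (1 + 2 * ENNReal.ofReal ((L : ℝ) ^ 2)) +
      3 * ∫⁻ η, (farS L (inter ω η) 0 + farS L (inter ω η) (step s)) ∂(perc d r))) := by gcongr
    _ = _ := by ring

/-- The energy in one direction. -/
lemma energy_dir (i0 : Fin d) (K L k : ℕ) (hKL : 2 * L ≤ K) {p r : ℝ} (hp0 : 0 ≤ p)
    (hp1 : p ≤ 1) (h0 : 0 ≤ r) (h1 : r ≤ 1) (s : Dir d) :
    ∫⁻ ω in {ω | (cluster ω 0).Infinite ∧ ω (edge 0 s) = true},
        ENNReal.ofReal (((step s i0 : ℝ) + gK i0 K k r (shift (step s) ω) -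
          gK i0 K k r ω) ^ 2) ∂(perc d p) ≤
      2 * perc d (p * r) {ω | ¬ Good K ω 0} +
      6 * ENNReal.ofReal ((1 - r) ^ 2) * ((1 + 2 * ENNReal.ofReal ((L : ℝ) ^ 2)) *
        perc d p {ω | Live (G ω) k 0} + 2 * far d (p * r) L) := by
  classical
  haveI := isPP (d := d) h0 h1
  haveI := isPP (d := d) hp0 hp1
  have hpr0 : 0 ≤ p * r := mul_nonneg hp0 h0
  have hpr1 : p * r ≤ 1 := mul_le_one₀ hp1 h0 h1
  have hSm : MeasurableSet {ω : Cfg d | (cluster ω 0).Infinite ∧ ω (edge 0 s) = true} := by
    refine (meas_inf 0).inter ?_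
    have h3 : Measurable fun η : Cfg d => η (edge 0 s) := measurable_pi_apply _
    exact h3 (measurableSet_singleton true)
  have hLm : MeasurableSet {ω : Cfg d | Live (G ω) k 0} := meas_live k 0
  set c : ENNReal := 6 * ENNReal.ofReal ((1 - r) ^ 2) with hc
  set a : ENNReal := 1 + 2 * ENNReal.ofReal ((L : ℝ) ^ 2) with ha
  have hG1 : Measurable fun ω : Cfg d => ({ω : Cfg d | ¬ Good K ω 0}).indicator
      (fun _ => (1 : ENNReal)) ω := measurable_const.indicator (meas_good K 0).compl
  have hT1 : Measurable fun ω : Cfg d => perc d r {η | ¬ Good K (inter ω η) 0} := by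
    have := measurable_measure_prodMk_left (ν := perc d r)
      (measurable_inter (d := d) (meas_good K 0).compl)
    exact this
  have hT3 : Measurable fun q : Cfg d × Cfg d =>
      (farS L (inter q.1 q.2) 0 + farS L (inter q.1 q.2) (step s)) :=
    ((meas_farS L 0).comp measurable_inter).add ((meas_farS L (step s)).comp measurable_inter)
  have hT2 : Measurable fun ω : Cfg d =>
      ∫⁻ η, (farS L (inter ω η) 0 + farS L (inter ω η) (step s)) ∂(perc d r) :=
    hT3.lintegral_prod_right'
  rw [← lintegral_indicator hSm]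
  calc ∫⁻ ω, ({ω : Cfg d | (cluster ω 0).Infinite ∧ ω (edge 0 s) = true}).indicator (fun ω =>
          ENNReal.ofReal (((step s i0 : ℝ) + gK i0 K k r (shift (step s) ω) -
          gK i0 K k r ω) ^ 2)) ω ∂(perc d p)
      ≤ ∫⁻ ω, (2 * perc d r {η | ¬ Good K (inter ω η) 0} +
          (({ω : Cfg d | Live (G ω) k 0}).indicator (fun _ => c * a) ω +
          c * ∫⁻ η, (farS L (inter ω η) 0 + farS L (inter ω η) (step s)) ∂(perc d r)))
          ∂(perc d p) := by
        refine lintegral_mono fun ω => ?_
        by_cases hω : ω ∈ {ω : Cfg d | (cluster ω 0).Infinite ∧ ω (edge 0 s) = true}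
        · rw [Set.indicator_of_mem hω]
          obtain ⟨hinf, hop⟩ := hω
          have hps := psi_cases i0 K k h0 h1 hinf hop
          by_cases hl : ω ∈ {ω : Cfg d | Live (G ω) k 0}
          · rw [Set.indicator_of_mem hl]
            have h5 := grad_le_ennreal i0 K L h0 h1 hop
            refine le_trans (ENNReal.ofReal_le_ofReal ?_) h5
            rw [← sq_abs, ← sq_abs (hK i0 K r ω (step s) - hK i0 K r ω 0)]
            have := hps.2
            gcongr
          · rw [hps.1 hl]
            simp
        · rw [Set.indicator_of_notMem hω]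
          exact bot_le
    _ = 2 * (∫⁻ ω, perc d r {η | ¬ Good K (inter ω η) 0} ∂(perc d p)) +
          (c * a * perc d p {ω | Live (G ω) k 0} +
          c * ∫⁻ ω, ∫⁻ η, (farS L (inter ω η) 0 + farS L (inter ω η) (step s)) ∂(perc d r)
            ∂(perc d p)) := by
        have hm2 : Measurable fun ω : Cfg d => c * ∫⁻ η, (farS L (inter ω η) 0 +
            farS L (inter ω η) (step s)) ∂(perc d r) := hT2.const_mul c
        rw [lintegral_add_left (hT1.const_mul 2), lintegral_add_right _ hm2,
          lintegral_const_mul _ hT1, lintegral_const_mul _ hT2, lintegral_indicator hLm,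
          setLIntegral_const]
    _ = 2 * perc d (p * r) {ω | ¬ Good K ω 0} +
          (c * a * perc d p {ω | Live (G ω) k 0} +
          c * ∫⁻ ω, (farS L ω 0 + farS L ω (step s)) ∂(perc d (p * r))) := by
        congr 1
        · congr 1
          have e1 : ∀ ω : Cfg d, perc d r {η | ¬ Good K (inter ω η) 0} =
              ∫⁻ η, ({ω : Cfg d | ¬ Good K ω 0}).indicator (fun _ => (1 : ENNReal)) (inter ω η)
                ∂(perc d r) := by
            intro ω
            have hmI : Measurable fun η : Cfg d => inter ω η :=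
              measurable_inter.comp (measurable_prodMk_left (x := ω))
            have e2 : (fun η : Cfg d => ({ω : Cfg d | ¬ Good K ω 0}).indicator
                (fun _ => (1 : ENNReal)) (inter ω η)) =
                ({η : Cfg d | ¬ Good K (inter ω η) 0}).indicator (fun _ => (1 : ENNReal)) := by
              funext η
              rfl
            have hm4 : MeasurableSet {η : Cfg d | ¬ Good K (inter ω η) 0} :=
              hmI (meas_good K 0).compl
            rw [e2, lintegral_indicator hm4]
            simp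
          simp_rw [e1]
          rw [lintegral_thin p r hp0 hp1 h0 h1 _ hG1]
          have := lintegral_indicator (μ := perc d (p * r)) (meas_good (d := d) K 0).compl
            (fun _ => (1 : ENNReal))
          simp only [lintegral_const, Measure.restrict_apply MeasurableSet.univ, Set.univ_inter,
            one_mul] at this
          exact this
        · congr 2
          exact lintegral_thin p r hp0 hp1 h0 h1 (fun ω => farS L ω 0 + farS L ω (step s))
            ((meas_farS L 0).add (meas_farS L (step s)))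
    _ = _ := by
        rw [lintegral_add_left (meas_farS L 0), lintegral_farS _ hpr0 hpr1,
          lintegral_farS _ hpr0 hpr1]
        ring

end H5DF
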