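import Mathlib

/-!
JOB DF-4 (MP_0d9ad5_pr): tail sums of exponentials over `Z^d` (sup norm).

PROOF (paper). For `L < ‖x‖`: `exp (-c s ‖x‖) ≤ exp (-c s L / 2) * exp (-c s ‖x‖ / 2)` and
`exp (-t) ≤ N! / t^N` with `t = c s ‖x‖ / 2`, `N = 2 d + 2`, so the sum
is at most `C s^(-N) exp (-c s L / 2)` times `∑ ‖x‖^(2-N)` over `x ≠ 0` (`‖x‖ ≥ 1`), and
`‖x‖^(-2 d) ≤ 4^d (1 + ‖x‖)^(-2 d) ≤ 4^d ∏ (1 + |x i|)^(-2)`, which is summable.
-/

namespace H5DF

open scoped Nat

/-- the one dimensional weight. -/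
noncomputable def wtES (n : ℤ) : ℝ := 1 / (1 + |(n : ℝ)|) ^ 2

theorem wtES_nonneg (n : ℤ) : 0 ≤ wtES n := by
  unfold wtES; positivity

theorem summable_wt : Summable wtES := by
  have h : Summable (fun n : ℤ => 1 / (n : ℝ) ^ 2) :=
    Real.summable_one_div_int_pow.2 (by norm_num)
  have h1 : Summable (fun n : ℤ => 1 / (n : ℝ) ^ 2 + (if n = 0 then (1 : ℝ) else 0)) := by
    refine h.add ?_
    exact summable_of_ne_finset_zero (s := {0}) (by
      intro b hb
      simp only [Finset.mem_singleton] at hb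
      simp [hb])
  refine Summable.of_nonneg_of_le wtES_nonneg ?_ h1
  intro n
  by_cases hn : n = 0
  · subst hn
    simp [wtES]
  · simp only [hn, if_false, add_zero, wtES]
    have hp : 0 < |(n : ℝ)| := abs_pos.2 (by exact_mod_cast hn)
    have h2 : (n : ℝ) ^ 2 = |(n : ℝ)| ^ 2 := (sq_abs _).symm
    rw [h2]
    apply one_div_le_one_div_of_le (by positivity)
    exact pow_le_pow_left₀ hp.le (by linarith) 2

theorem tsum_wt_ne_top : (∑' n : ℤ, ENNReal.ofReal (wtES n)) ≠ ⊤ := by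
  rw [← ENNReal.ofReal_tsum_of_nonneg wtES_nonneg summable_wt]
  exact ENNReal.ofReal_ne_top

theorem tsum_prod_wt (d : ℕ) :
    (∑' x : Fin d → ℤ, ∏ i, ENNReal.ofReal (wtES (x i))) =
      (∑' n : ℤ, ENNReal.ofReal (wtES n)) ^ d := by
  induction d with
  | zero =>
    rw [tsum_eq_single (default : Fin 0 → ℤ)]
    · simp
    · intro b hb
      exact absurd (Subsingleton.elim b default) hb
  | succ d ih =>
    have e := (Fin.consEquiv (fun _ : Fin (d + 1) => ℤ))
    rw [← (Fin.consEquiv (fun _ : Fin (d + 1) => ℤ)).tsum_eq, ENNReal.tsum_prod']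
    have h1 : ∀ (a : ℤ) (b : Fin d → ℤ),
        (∏ i, ENNReal.ofReal (wtES ((Fin.consEquiv (fun _ : Fin (d + 1) => ℤ)) (a, b) i))) =
          ENNReal.ofReal (wtES a) * ∏ i, ENNReal.ofReal (wtES (b i)) := by
      intro a b
      rw [Fin.prod_univ_succ]
      simp [Fin.consEquiv]
    simp_rw [h1, ENNReal.tsum_mul_left]
    rw [ih, ENNReal.tsum_mul_right, pow_succ, mul_comm]

theorem pointwise (d : ℕ) (c : ℝ) (hc : 0 < c) (s : ℝ) (L : ℕ) (hs : 0 < s)
    (x : Fin d → ℤ) (hx : (L : ℝ) < ‖x‖) :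
    ‖x‖ ^ 2 * Real.exp (-(c * s * ‖x‖)) ≤
      ((2 * d + 2)! : ℝ) * (2 / c) ^ (2 * d + 2) * 4 ^ d / s ^ (2 * d + 2) *
        Real.exp (-(c * s * L / 2)) * ∏ i, wtES (x i) := by
  have hLnn : (0 : ℝ) ≤ L := Nat.cast_nonneg L
  have hpos : 0 < ‖x‖ := lt_of_le_of_lt hLnn hx
  have hone : 1 ≤ ‖x‖ := by
    obtain ⟨i, hi⟩ : ∃ i, x i ≠ 0 := by
      by_contra hcon
      push Not at hcon
      have : x = 0 := funext hcon
      rw [this, norm_zero] at hpos
      exact lt_irrefl _ hpos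
    have h1 : ‖x i‖ ≤ ‖x‖ := norm_le_pi_norm x i
    have h2 : (1 : ℝ) ≤ ‖x i‖ := by
      rw [Int.norm_eq_abs]
      exact_mod_cast Int.one_le_abs hi
    exact h2.trans h1
  set N := 2 * d + 2 with hN
  set t : ℝ := c * s * ‖x‖ / 2 with ht
  have htpos : 0 < t := by positivity
  have hexp : Real.exp (-t) ≤ (N ! : ℝ) / t ^ N := by
    have h := Real.pow_div_factorial_le_exp t htpos.le N
    rw [Real.exp_neg, ← one_div, div_le_div_iff₀ (Real.exp_pos t) (by positivity), one_mul]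
    rw [div_le_iff₀ (by positivity)] at h
    linarith
  have hsplit : Real.exp (-(c * s * ‖x‖)) ≤ Real.exp (-(c * s * L / 2)) * Real.exp (-t) := by
    rw [← Real.exp_add]
    apply Real.exp_le_exp.2
    have : c * s * L ≤ c * s * ‖x‖ := mul_le_mul_of_nonneg_left hx.le (by positivity)
    rw [ht]
    linarith
  have hprod : (1 / (1 + ‖x‖) ^ 2) ^ d ≤ ∏ i, wtES (x i) := by
    have h1 : (∏ _i : Fin d, (1 / (1 + ‖x‖) ^ 2)) ≤ ∏ i, wtES (x i) := by
      apply Finset.prod_le_prod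
      · intro i _
        positivity
      · intro i _
        unfold wtES
        apply one_div_le_one_div_of_le (by positivity)
        apply pow_le_pow_left₀ (by positivity)
        have h1 : ‖x i‖ ≤ ‖x‖ := norm_le_pi_norm x i
        rw [Int.norm_eq_abs] at h1
        linarith
    simpa using h1
  have hpow : ‖x‖ ^ 2 / ‖x‖ ^ N ≤ 4 ^ d * (1 / (1 + ‖x‖) ^ 2) ^ d := by
    have h1 : ‖x‖ ^ 2 / ‖x‖ ^ N = (1 / ‖x‖ ^ 2) ^ d := by
      rw [hN, pow_add, div_pow, one_pow, ← pow_mul]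
      field_simp
    rw [h1, ← mul_pow]
    apply pow_le_pow_left₀ (by positivity)
    rw [mul_one_div, div_le_div_iff₀ (by positivity) (by positivity)]
    nlinarith
  have key : ‖x‖ ^ 2 * (N ! / t ^ N) =
      (N ! : ℝ) * (2 / c) ^ N / s ^ N * (‖x‖ ^ 2 / ‖x‖ ^ N) := by
    have h2 : t ^ N * (2 / c) ^ N = s ^ N * ‖x‖ ^ N := by
      rw [← mul_pow, ← mul_pow, ht]
      congr 1
      field_simp
    have h3 : (t ^ N) ≠ 0 := by positivity
    have h4 : (s ^ N) ≠ 0 := by positivity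
    have h5 : (‖x‖ ^ N) ≠ 0 := by positivity
    have h6 : (N ! : ℝ) / t ^ N = (N ! : ℝ) * (2 / c) ^ N / (s ^ N * ‖x‖ ^ N) := by
      rw [← h2]
      have h7 : ((2 / c) ^ N : ℝ) ≠ 0 := by positivity
      field_simp
    rw [h6]
    field_simp
  calc ‖x‖ ^ 2 * Real.exp (-(c * s * ‖x‖))
      ≤ ‖x‖ ^ 2 * (Real.exp (-(c * s * L / 2)) * ((N ! : ℝ) / t ^ N)) := by
        apply mul_le_mul_of_nonneg_left _ (by positivity)
        exact hsplit.trans (mul_le_mul_of_nonneg_left hexp (Real.exp_pos _).le)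
    _ = Real.exp (-(c * s * L / 2)) * (‖x‖ ^ 2 * (N ! / t ^ N)) := by ring
    _ = Real.exp (-(c * s * L / 2)) *
          ((N ! : ℝ) * (2 / c) ^ N / s ^ N * (‖x‖ ^ 2 / ‖x‖ ^ N)) := by rw [key]
    _ ≤ Real.exp (-(c * s * L / 2)) *
          ((N ! : ℝ) * (2 / c) ^ N / s ^ N * (4 ^ d * ∏ i, wtES (x i))) := by
        apply mul_le_mul_of_nonneg_left _ (Real.exp_pos _).le
        apply mul_le_mul_of_nonneg_left _ (by positivity)
        exact hpow.trans (mul_le_mul_of_nonneg_left hprod (by positivity))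
    _ = _ := by ring

theorem exp_tail_sum (d : ℕ) (c : ℝ) (hc : 0 < c) :
    ∃ (C : ℝ) (N : ℕ), 0 < C ∧ ∀ (s : ℝ) (L : ℕ), 0 < s → s ≤ 1 →
      (∑' x : Fin d → ℤ, if (L : ℝ) < ‖x‖ then
          ENNReal.ofReal (‖x‖ ^ 2) * ENNReal.ofReal (Real.exp (-(c * s * ‖x‖))) else 0) ≤
        ENNReal.ofReal (C / s ^ N * Real.exp (-(c * s * L / 2))) := by
  set T : ENNReal := (∑' n : ℤ, ENNReal.ofReal (wtES n)) ^ d with hT
  have hTtop : T ≠ ⊤ := ENNReal.pow_ne_top tsum_wt_ne_top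
  set K : ℝ := ((2 * d + 2)! : ℝ) * (2 / c) ^ (2 * d + 2) * 4 ^ d with hK
  have hKpos : 0 < K := by positivity
  refine ⟨K * T.toReal + 1, 2 * d + 2, by positivity, ?_⟩
  intro s L hs _
  have hA : 0 ≤ K / s ^ (2 * d + 2) * Real.exp (-(c * s * L / 2)) := by positivity
  calc (∑' x : Fin d → ℤ, if (L : ℝ) < ‖x‖ then
          ENNReal.ofReal (‖x‖ ^ 2) * ENNReal.ofReal (Real.exp (-(c * s * ‖x‖))) else 0)
      ≤ ∑' x : Fin d → ℤ, ENNReal.ofReal (K / s ^ (2 * d + 2) * Real.exp (-(c * s * L / 2))) *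
          ∏ i, ENNReal.ofReal (wtES (x i)) := by
        apply ENNReal.tsum_le_tsum
        intro x
        split_ifs with hx
        · rw [← ENNReal.ofReal_mul (by positivity),
            ← ENNReal.ofReal_prod_of_nonneg (fun i _ => wtES_nonneg (x i)),
            ← ENNReal.ofReal_mul hA]
          exact ENNReal.ofReal_le_ofReal (pointwise d c hc s L hs x hx)
        · exact zero_le
    _ = ENNReal.ofReal (K / s ^ (2 * d + 2) * Real.exp (-(c * s * L / 2))) * T := by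
        rw [ENNReal.tsum_mul_left, tsum_prod_wt]
    _ = ENNReal.ofReal (K / s ^ (2 * d + 2) * Real.exp (-(c * s * L / 2)) * T.toReal) := by
        rw [ENNReal.ofReal_mul hA, ENNReal.ofReal_toReal hTtop]
    _ ≤ _ := by
        apply ENNReal.ofReal_le_ofReal
        have h1 : K / s ^ (2 * d + 2) * Real.exp (-(c * s * L / 2)) * T.toReal =
            (K * T.toReal) / s ^ (2 * d + 2) * Real.exp (-(c * s * L / 2)) := by ring
        rw [h1]
        apply mul_le_mul_of_nonneg_right _ (Real.exp_pos _).le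
        apply div_le_div_of_nonneg_right _ (by positivity)
        linarith

end H5DF
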