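import Mathlib

/-!
Helper file for DF-5 (MP_0d9ad5_pr): a reversible stationary walk, abstractly. The increments of an
antisymmetric edge function have sub-additive variance.
-/

namespace H5DF

open MeasureTheory

/-- Bounded and measurable. -/
def BM {Ω : Type*} [MeasurableSpace Ω] (f : Ω → ℝ) : Prop :=
  Measurable f ∧ ∃ B, ∀ ω, |f ω| ≤ B

section BM

variable {Ω : Type*} [MeasurableSpace Ω] {f h : Ω → ℝ}

lemma BM.const (c : ℝ) : BM (fun _ : Ω => c) := ⟨measurable_const, |c|, fun _ => le_rfl⟩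

lemma BM.add (hf : BM f) (hh : BM h) : BM (fun ω => f ω + h ω) := by
  obtain ⟨hf, B, hB⟩ := hf
  obtain ⟨hh, B', hB'⟩ := hh
  exact ⟨hf.add hh, B + B', fun ω => (abs_add_le _ _).trans (add_le_add (hB ω) (hB' ω))⟩

lemma BM.mul (hf : BM f) (hh : BM h) : BM (fun ω => f ω * h ω) := by
  obtain ⟨hf, B, hB⟩ := hf
  obtain ⟨hh, B', hB'⟩ := hh
  refine ⟨hf.mul hh, B * B', fun ω => ?_⟩
  rw [abs_mul]
  exact mul_le_mul (hB ω) (hB' ω) (abs_nonneg _) ((abs_nonneg _).trans (hB ω))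

lemma BM.neg (hf : BM f) : BM (fun ω => - f ω) := by
  obtain ⟨hf, B, hB⟩ := hf
  exact ⟨hf.neg, B, fun ω => by rw [abs_neg]; exact hB ω⟩

lemma BM.sub (hf : BM f) (hh : BM h) : BM (fun ω => f ω - h ω) := by
  have := hf.add hh.neg
  simpa [sub_eq_add_neg] using this

lemma BM.comp {Ω' : Type*} [MeasurableSpace Ω'] (hf : BM f) {T : Ω' → Ω} (hT : Measurable T) :
    BM (fun ω => f (T ω)) := by
  obtain ⟨hf, B, hB⟩ := hf
  exact ⟨hf.comp hT, B, fun ω => hB _⟩

lemma BM.sum {ι : Type*} (s : Finset ι) {F : ι → Ω → ℝ} (hF : ∀ i ∈ s, BM (F i)) :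
    BM (fun ω => ∑ i ∈ s, F i ω) := by
  classical
  induction s using Finset.induction_on with
  | empty => simpa using BM.const (Ω := Ω) 0
  | insert a s ha ih =>
    have h1 := hF a (Finset.mem_insert_self a s)
    have h2 := ih fun i hi => hF i (Finset.mem_insert_of_mem hi)
    have h3 := h1.add h2
    simpa only [Finset.sum_insert ha] using h3

lemma BM.integrable (hf : BM f) (μ : Measure Ω) [IsFiniteMeasure μ] : Integrable f μ := by
  obtain ⟨hf, B, hB⟩ := hf
  exact Integrable.of_bound hf.aestronglyMeasurable B (Filter.Eventually.of_forall hB)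

end BM

/-- A stationary environment with reversible weights. -/
structure Rev {Ω : Type*} [MeasurableSpace Ω] (μ : Measure Ω) (S : Type*) where
  T : S → Ω → Ω
  op : S → S
  w : S → Ω → ℝ
  T_meas : ∀ s, Measurable (T s)
  w_meas : ∀ s, Measurable (w s)
  w01 : ∀ s ω, w s ω = 0 ∨ w s ω = 1
  op_op : ∀ s, op (op s) = s
  map_T : ∀ s, μ.map (T s) = μ
  T_op : ∀ s ω, T (op s) (T s ω) = ω
  w_op : ∀ s ω, w (op s) (T s ω) = w s ω

namespace Rev

variable {Ω : Type*} [MeasurableSpace Ω] {μ : Measure Ω} {S : Type*} [Fintype S] (R : Rev μ S)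

lemma w_nonneg (s : S) (ω : Ω) : 0 ≤ R.w s ω := by
  rcases R.w01 s ω with h | h <;> simp [h]

lemma w_le (s : S) (ω : Ω) : R.w s ω ≤ 1 := by
  rcases R.w01 s ω with h | h <;> simp [h]

lemma bm_w (s : S) : BM (R.w s) := by
  refine ⟨R.w_meas s, 1, fun ω => ?_⟩
  rw [abs_of_nonneg (R.w_nonneg s ω)]
  exact R.w_le s ω

/-- The total weight. -/
noncomputable def dg (ω : Ω) : ℝ := ∑ s, R.w s ω

lemma bm_dg : BM R.dg := BM.sum Finset.univ fun s _ => R.bm_w s

lemma dg_nonneg (ω : Ω) : 0 ≤ R.dg ω := Finset.sum_nonneg fun s _ => R.w_nonneg s ω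

/-- The sum over the edges. -/
noncomputable def E (f : S → Ω → ℝ) : ℝ := ∑ s, ∫ ω, R.w s ω * f s ω ∂μ

/-- Weighted average. -/
noncomputable def av (f : S → Ω → ℝ) (ω : Ω) : ℝ := (∑ s, R.w s ω * f s ω) / R.dg ω

lemma dg_mul_av (f : S → Ω → ℝ) (ω : Ω) : R.dg ω * R.av f ω = ∑ s, R.w s ω * f s ω := by
  by_cases h : R.dg ω = 0
  · have h1 : ∀ s ∈ Finset.univ, R.w s ω = 0 :=
      (Finset.sum_eq_zero_iff_of_nonneg fun s _ => R.w_nonneg s ω).1 h
    rw [h, zero_mul]
    symm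
    refine Finset.sum_eq_zero fun s hs => ?_
    rw [h1 s hs, zero_mul]
  · rw [av, mul_div_cancel₀]
    exact h

lemma av_add (f h : S → Ω → ℝ) (ω : Ω) :
    R.av (fun s ω => f s ω + h s ω) ω = R.av f ω + R.av h ω := by
  simp only [av, mul_add, Finset.sum_add_distrib, add_div]

lemma bm_av {f : S → Ω → ℝ} (hf : ∀ s, BM (f s)) : BM (R.av f) := by
  have hm : Measurable (R.av f) :=
    (BM.sum Finset.univ fun s _ => (R.bm_w s).mul (hf s)).1.div R.bm_dg.1
  choose _ B hB using hf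
  refine ⟨hm, ∑ s, |B s|, fun ω => ?_⟩
  have hnn : 0 ≤ ∑ s, |B s| := Finset.sum_nonneg fun s _ => abs_nonneg _
  by_cases h : R.dg ω = 0
  · rw [av, h, div_zero, abs_zero]
    exact hnn
  · have hpos : 0 < R.dg ω := lt_of_le_of_ne (R.dg_nonneg ω) (Ne.symm h)
    rw [av, abs_div, abs_of_pos hpos, div_le_iff₀ hpos]
    calc |∑ s, R.w s ω * f s ω| ≤ ∑ s, |R.w s ω * f s ω| := Finset.abs_sum_le_sum_abs _ _
      _ ≤ ∑ s, (∑ t, |B t|) * R.w s ω := by
        refine Finset.sum_le_sum fun s _ => ?_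
        rw [abs_mul, abs_of_nonneg (R.w_nonneg s ω), mul_comm]
        refine mul_le_mul_of_nonneg_right ?_ (R.w_nonneg s ω)
        calc |f s ω| ≤ B s := hB s ω
          _ ≤ |B s| := le_abs_self _
          _ ≤ ∑ t, |B t| := Finset.single_le_sum (f := fun t => |B t|)
            (fun t _ => abs_nonneg _) (Finset.mem_univ s)
      _ = (∑ t, |B t|) * R.dg ω := by rw [← Finset.mul_sum, dg]

variable [IsProbabilityMeasure μ]

lemma E_add {f h : S → Ω → ℝ} (hf : ∀ s, BM (f s)) (hh : ∀ s, BM (h s)) :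
    R.E (fun s ω => f s ω + h s ω) = R.E f + R.E h := by
  unfold E
  rw [← Finset.sum_add_distrib]
  refine Finset.sum_congr rfl fun s _ => ?_
  rw [← integral_add (((R.bm_w s).mul (hf s)).integrable μ)
    (((R.bm_w s).mul (hh s)).integrable μ)]
  refine integral_congr_ae (Filter.Eventually.of_forall fun ω => ?_)
  simp only [mul_add]

lemma E_smul (c : ℝ) (f : S → Ω → ℝ) :
    R.E (fun s ω => c * f s ω) = c * R.E f := by
  unfold E
  rw [Finset.mul_sum]
  refine Finset.sum_congr rfl fun s _ => ?_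
  rw [← integral_const_mul]
  refine integral_congr_ae (Filter.Eventually.of_forall fun ω => ?_)
  simp only
  ring

lemma E_nonneg {f : S → Ω → ℝ} (hf : ∀ s ω, 0 ≤ f s ω) : 0 ≤ R.E f :=
  Finset.sum_nonneg fun s _ => integral_nonneg fun ω => mul_nonneg (R.w_nonneg s ω) (hf s ω)

/-- Reversibility. -/
lemma E_rev {f : S → Ω → ℝ} (hf : ∀ s, BM (f s)) :
    R.E f = R.E (fun s ω => f (R.op s) (R.T s ω)) := by
  have h1 : ∀ s, ∫ ω, R.w s ω * f (R.op s) (R.T s ω) ∂μ =
      ∫ ω, R.w (R.op s) ω * f (R.op s) ω ∂μ := by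
    intro s
    have hm : Measurable (fun ω => R.w (R.op s) ω * f (R.op s) ω) :=
      (R.w_meas _).mul (hf _).1
    calc ∫ ω, R.w s ω * f (R.op s) (R.T s ω) ∂μ
        = ∫ ω, (fun ω => R.w (R.op s) ω * f (R.op s) ω) (R.T s ω) ∂μ := by
          refine integral_congr_ae (Filter.Eventually.of_forall fun ω => ?_)
          simp only [R.w_op]
      _ = ∫ ω, R.w (R.op s) ω * f (R.op s) ω ∂(μ.map (R.T s)) :=
          (integral_map (R.T_meas s).aemeasurable hm.aestronglyMeasurable).symm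
      _ = ∫ ω, R.w (R.op s) ω * f (R.op s) ω ∂μ := by rw [R.map_T]
  unfold E
  simp only [h1]
  have hinv : Function.Involutive R.op := R.op_op
  exact (Equiv.sum_comp hinv.toPerm (fun s => ∫ ω, R.w s ω * f s ω ∂μ)).symm

/-- The inner product. -/
noncomputable def ip (f h : Ω → ℝ) : ℝ := ∫ ω, R.dg ω * (f ω * h ω) ∂μ

lemma integral_dg_mul {f : Ω → ℝ} (hf : BM f) :
    ∫ ω, R.dg ω * f ω ∂μ = R.E (fun _ ω => f ω) := by
  unfold E dg
  rw [← integral_finsetSum]
  · refine integral_congr_ae (Filter.Eventually.of_forall fun ω => ?_)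
    simp only [Finset.sum_mul]
  · intro s _
    exact ((R.bm_w s).mul hf).integrable μ

lemma integral_dg_av {f : S → Ω → ℝ} (hf : ∀ s, BM (f s)) :
    ∫ ω, R.dg ω * R.av f ω ∂μ = R.E f := by
  unfold E
  rw [← integral_finsetSum]
  · refine integral_congr_ae (Filter.Eventually.of_forall fun ω => ?_)
    simp only [R.dg_mul_av]
  · intro s _
    exact ((R.bm_w s).mul (hf s)).integrable μ

/-- The transition operator. -/
noncomputable def P (f : Ω → ℝ) : Ω → ℝ := R.av (fun s ω => f (R.T s ω))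

lemma bm_P {f : Ω → ℝ} (hf : BM f) : BM (R.P f) := R.bm_av fun s => hf.comp (R.T_meas s)

lemma ip_av (f : Ω → ℝ) {h : S → Ω → ℝ} (hf : BM f) (hh : ∀ s, BM (h s)) :
    R.ip f (R.av h) = R.E (fun s ω => f ω * h s ω) := by
  rw [← R.integral_dg_av fun s => hf.mul (hh s)]
  unfold ip
  refine integral_congr_ae (Filter.Eventually.of_forall fun ω => ?_)
  simp only [R.dg_mul_av]
  rw [show R.dg ω * (f ω * R.av h ω) = f ω * (R.dg ω * R.av h ω) by ring, R.dg_mul_av,
    Finset.mul_sum]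
  refine Finset.sum_congr rfl fun s _ => ?_
  ring

lemma ip_comm (f h : Ω → ℝ) : R.ip f h = R.ip h f := by
  unfold ip
  simp only [mul_comm (f _)]

lemma ip_P {f h : Ω → ℝ} (hf : BM f) (hh : BM h) : R.ip (R.P f) h = R.ip f (R.P h) := by
  rw [R.ip_comm, P, P, R.ip_av h hh fun s => hf.comp (R.T_meas s),
    R.ip_av f hf fun s => hh.comp (R.T_meas s),
    R.E_rev (f := fun s ω => f ω * h (R.T s ω)) fun s => hf.mul (hh.comp (R.T_meas s))]
  congr 1
  funext s ω
  rw [R.T_op]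
  ring

lemma ip_self_nonneg (f : Ω → ℝ) : 0 ≤ R.ip f f :=
  integral_nonneg fun ω => mul_nonneg (R.dg_nonneg ω) (mul_self_nonneg _)

lemma ip_self_add_nonneg {f : Ω → ℝ} (hf : BM f) : 0 ≤ R.ip f f + R.ip f (R.P f) := by
  have h1 : R.ip f f = R.E (fun _ ω => f ω * f ω) := R.integral_dg_mul (hf.mul hf)
  have h2 : R.ip f f = R.E (fun s ω => f (R.T s ω) * f (R.T s ω)) := by
    rw [h1, R.E_rev fun _ => hf.mul hf]
  have h3 : R.ip f (R.P f) = R.E (fun s ω => f ω * f (R.T s ω)) :=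
    R.ip_av f hf fun s => hf.comp (R.T_meas s)
  have hT : ∀ s, BM (fun ω => f (R.T s ω)) := fun s => hf.comp (R.T_meas s)
  have h4 : R.E (fun s ω => (f ω + f (R.T s ω)) * (f ω + f (R.T s ω))) =
      R.E (fun _ ω => f ω * f ω) + R.E (fun s ω => f (R.T s ω) * f (R.T s ω)) +
        2 * R.E (fun s ω => f ω * f (R.T s ω)) := by
    rw [← R.E_smul, ← R.E_add (fun _ => hf.mul hf) (fun s => (hT s).mul (hT s)),
      ← R.E_add (fun s => (hf.mul hf).add ((hT s).mul (hT s)))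
        (fun s => (BM.const 2).mul (hf.mul (hT s)))]
    congr 1
    funext s ω
    ring
  have h5 : 0 ≤ R.E (fun s ω => (f ω + f (R.T s ω)) * (f ω + f (R.T s ω))) :=
    R.E_nonneg fun s ω => mul_self_nonneg _
  rw [h4, ← h1, ← h2, ← h3] at h5
  linarith

lemma bm_iter {f : Ω → ℝ} (hf : BM f) (m : ℕ) : BM (R.P^[m] f) := by
  induction m with
  | zero => simpa using hf
  | succ m ih =>
    rw [Function.iterate_succ_apply']
    exact R.bm_P ih

lemma ip_iter {f : Ω → ℝ} (hf : BM f) (i j : ℕ) :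
    R.ip (R.P^[i] f) (R.P^[j] f) = R.ip f (R.P^[i + j] f) := by
  induction i generalizing j with
  | zero => simp
  | succ i ih =>
    rw [Function.iterate_succ_apply', R.ip_P (R.bm_iter hf i) (R.bm_iter hf j),
      ← Function.iterate_succ_apply' (f := R.P), ih (j + 1)]
    congr 2
    omega

lemma c_even {f : Ω → ℝ} (hf : BM f) (i : ℕ) : 0 ≤ R.ip f (R.P^[2 * i] f) := by
  rw [two_mul, ← R.ip_iter hf i i]
  exact R.ip_self_nonneg _

lemma c_pair {f : Ω → ℝ} (hf : BM f) (i : ℕ) :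
    0 ≤ R.ip f (R.P^[2 * i] f) + R.ip f (R.P^[2 * i + 1] f) := by
  have h := R.ip_self_add_nonneg (R.bm_iter hf i)
  rw [← Function.iterate_succ_apply' (f := R.P), R.ip_iter hf i i, R.ip_iter hf i (i + 1)] at h
  have e1 : i + i = 2 * i := by omega
  have e2 : i + (i + 1) = 2 * i + 1 := by omega
  rw [e1, e2] at h
  exact h

lemma c_sum {f : Ω → ℝ} (hf : BM f) (n : ℕ) :
    0 ≤ ∑ m ∈ Finset.range n, R.ip f (R.P^[m] f) := by
  have h2 : ∀ k, 0 ≤ ∑ m ∈ Finset.range (2 * k), R.ip f (R.P^[m] f) := by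
    intro k
    induction k with
    | zero => simp
    | succ k ih =>
      rw [show 2 * (k + 1) = 2 * k + 1 + 1 by ring, Finset.sum_range_succ, Finset.sum_range_succ,
        add_assoc]
      exact add_nonneg ih (R.c_pair hf k)
  rcases Nat.even_or_odd' n with ⟨k, rfl | rfl⟩
  · exact h2 k
  · rw [Finset.sum_range_succ]
    exact add_nonneg (h2 k) (R.c_even hf k)

/-- The expected increment. -/
noncomputable def a (ψ : S → Ω → ℝ) : ℕ → Ω → ℝ
  | 0 => fun _ => 0
  | n + 1 => R.av (fun s ω => ψ s ω + a ψ n (R.T s ω))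

/-- The expected squared increment. -/
noncomputable def b (ψ : S → Ω → ℝ) : ℕ → Ω → ℝ
  | 0 => fun _ => 0
  | n + 1 => R.av (fun s ω => ψ s ω ^ 2 + 2 * ψ s ω * R.a ψ n (R.T s ω) + b ψ n (R.T s ω))

variable {ψ : S → Ω → ℝ}

lemma bm_a (hψ : ∀ s, BM (ψ s)) (n : ℕ) : BM (R.a ψ n) := by
  induction n with
  | zero => exact BM.const 0
  | succ n ih => exact R.bm_av fun s => (hψ s).add (ih.comp (R.T_meas s))

lemma bm_b (hψ : ∀ s, BM (ψ s)) (n : ℕ) : BM (R.b ψ n) := by
  induction n with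
  | zero => exact BM.const 0
  | succ n ih =>
    refine R.bm_av fun s => ?_
    have h1 := ((hψ s).mul (hψ s)).add (((BM.const 2).mul (hψ s)).mul
      ((R.bm_a hψ n).comp (R.T_meas s)))
    have h2 := h1.add (ih.comp (R.T_meas s))
    have e : (fun ω => ψ s ω ^ 2 + 2 * ψ s ω * R.a ψ n (R.T s ω) + R.b ψ n (R.T s ω)) =
        fun ω => ψ s ω * ψ s ω + 2 * ψ s ω * R.a ψ n (R.T s ω) + R.b ψ n (R.T s ω) := by
      funext ω
      ring
    rw [e]
    exact h2

lemma P_sum (F : ℕ → Ω → ℝ) (n : ℕ) (ω : Ω) :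
    R.P (fun ω => ∑ m ∈ Finset.range n, F m ω) ω = ∑ m ∈ Finset.range n, R.P (F m) ω := by
  unfold P av
  rw [← Finset.sum_div]
  congr 1
  rw [Finset.sum_comm]
  refine Finset.sum_congr rfl fun s _ => ?_
  rw [Finset.mul_sum]

lemma a_eq (n : ℕ) (ω : Ω) :
    R.a ψ n ω = ∑ m ∈ Finset.range n, R.P^[m] (R.av ψ) ω := by
  induction n generalizing ω with
  | zero => simp [a]
  | succ n ih =>
    have h1 : R.a ψ (n + 1) ω = R.av ψ ω + R.P (R.a ψ n) ω := by
      rw [a, R.av_add]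
      rfl
    have h2 : R.a ψ n = fun ω => ∑ m ∈ Finset.range n, R.P^[m] (R.av ψ) ω := funext ih
    rw [h1, h2, R.P_sum, Finset.sum_range_succ', add_comm]
    congr 1
    refine Finset.sum_congr rfl fun m _ => ?_
    rw [Function.iterate_succ_apply']

lemma ip_a_nonneg (hψ : ∀ s, BM (ψ s)) (n : ℕ) : 0 ≤ R.ip (R.av ψ) (R.a ψ n) := by
  have hφ : BM (R.av ψ) := R.bm_av hψ
  have h : R.ip (R.av ψ) (R.a ψ n) =
      ∑ m ∈ Finset.range n, R.ip (R.av ψ) (R.P^[m] (R.av ψ)) := by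
    unfold ip
    rw [← integral_finsetSum]
    · refine integral_congr_ae (Filter.Eventually.of_forall fun ω => ?_)
      simp only [R.a_eq, Finset.mul_sum]
    · intro m _
      exact (R.bm_dg.mul (hφ.mul (R.bm_iter hφ m))).integrable μ
  rw [h]
  exact R.c_sum hφ n

/-- The key recursion. -/
theorem b_le (hψ : ∀ s, BM (ψ s)) (hanti : ∀ s ω, ψ (R.op s) (R.T s ω) = - ψ s ω) (n : ℕ) :
    ∫ ω, R.dg ω * R.b ψ n ω ∂μ ≤ n * R.E (fun s ω => ψ s ω ^ 2) := by
  induction n with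
  | zero => simp [b]
  | succ n ih =>
    have ha := R.bm_a hψ n
    have hb := R.bm_b hψ n
    have hsq : ∀ s, BM (fun ω => ψ s ω ^ 2) := by
      intro s
      simpa only [sq] using (hψ s).mul (hψ s)
    have hca : ∀ s, BM (fun ω => ψ s ω * R.a ψ n (R.T s ω)) :=
      fun s => (hψ s).mul (ha.comp (R.T_meas s))
    have hcb : ∀ s, BM (fun ω => R.b ψ n (R.T s ω)) := fun s => hb.comp (R.T_meas s)
    have h1 : ∫ ω, R.dg ω * R.b ψ (n + 1) ω ∂μ =
        R.E (fun s ω => ψ s ω ^ 2) + 2 * R.E (fun s ω => ψ s ω * R.a ψ n (R.T s ω)) +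
          R.E (fun s ω => R.b ψ n (R.T s ω)) := by
      rw [← R.E_smul, ← R.E_add hsq (fun s => (BM.const 2).mul (hca s)),
        ← R.E_add (fun s => (hsq s).add ((BM.const 2).mul (hca s))) hcb, b, R.integral_dg_av]
      · congr 1
        funext s ω
        ring
      · intro s
        have := ((hsq s).add ((BM.const 2).mul (hca s))).add (hcb s)
        have e : (fun ω => ψ s ω ^ 2 + 2 * ψ s ω * R.a ψ n (R.T s ω) + R.b ψ n (R.T s ω)) =
            fun ω => ψ s ω ^ 2 + 2 * (ψ s ω * R.a ψ n (R.T s ω)) + R.b ψ n (R.T s ω) := by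
          funext ω
          ring
        rw [e]
        exact this
    have h2 : R.E (fun s ω => R.b ψ n (R.T s ω)) = ∫ ω, R.dg ω * R.b ψ n ω ∂μ := by
      rw [R.integral_dg_mul hb, R.E_rev fun _ => hb]
    have h3 : R.E (fun s ω => ψ s ω * R.a ψ n (R.T s ω)) = - R.ip (R.av ψ) (R.a ψ n) := by
      rw [R.E_rev hca, R.ip_comm, R.ip_av _ ha hψ, ← neg_one_mul, ← R.E_smul]
      congr 1
      funext s ω
      rw [hanti, R.T_op]
      ring
    have h4 := R.ip_a_nonneg hψ n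
    rw [h1, h2, h3]
    push_cast
    linarith

end Rev

end H5DF
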