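import Pool.Agent.H5.DF.Meas
import Pool.Agent.H5.DF.RWAbs

/-!
JOB DF-5 (MP_0d9ad5_pr): variational upper bound for the diffusivity. You may use everything in
Defs.lean, Thin.lean, Meas.lean (their sorries are other jobs).

PROOF (paper). `C := {ω | (cluster ω 0).Infinite}`, `op s := {ω | ω (edge 0 s) = true}`,
`ψ s ω := (step s i0) + g (shift (step s) ω) - g ω`, `Ψ := ∑ s ∫_{C ∩ op s} (ψ s)^2`.
For fixed `ω` let `H x := (x i0 : ℝ) + g (shift x ω)`.
`a n ω := walkE ω n H 0 - H 0` and `b n ω := walkE ω n (fun y => (H y - H 0)^2) 0`.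
(0) `walkE` is linear and monotone in `f`, `walkE ω n 1 x = 1` for `x` in an infinite cluster, and
`walkE (shift x ω) n f 0 = walkE ω n (fun y => f (y - x)) x` (more generally). Everything is bounded
and measurable (induction on `n`; values of `walkE` are finite sums over direction sequences).
(1) On `C`: `deg * a (n+1) = ∑ s 1_{op s} (ψ s + a n ∘ shift (step s))`,
`deg * b (n+1) = ∑ s 1_{op s} ((ψ s)^2 + 2 ψ s * (a n ∘ shift (step s)) + b n ∘ shift (step s))`.
(2) Reversibility: for every direction `s` and bounded measurable `F`,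
`∫ 1_C 1_{op s} F(ω, shift (step s) ω) = ∫ 1_C 1_{op (opp s)} F(shift (step (opp s)) ω, ω)`
(push forward by `shift (step s)`, `perc_shift`, `inf_adj`, `edge_opp`), and
`ψ (opp s) (shift (step s) ω) = - ψ s ω`.
(3) `⟨f, h⟩ := ∫ 1_C deg f h`, `φ := (∑ s 1_{op s} ψ s) / deg`, `P f := (∑ s 1_{op s} f ∘ shift) / deg`:
`a n = ∑_{m<n} P^m φ`, `⟨P f, h⟩ = ⟨f, P h⟩`, `⟨f,f⟩ ≥ 0`,
`⟨f,f⟩ + ⟨f,P f⟩ = 1/2 ∑ s ∫ 1_C 1_{op s} (f + f∘shift)^2 ≥ 0`, so with `c m := ⟨φ, P^m φ⟩` one has
`c (2i) ≥ 0`, `c (2i) + c (2i+1) ≥ 0` (`⟨P^i φ, P^j φ⟩ = c (i+j)`), hence `⟨φ, a n⟩ ≥ 0`.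
(4) `∫ 1_C deg b (n+1) = Ψ - 2 ⟨φ, a n⟩ + ∫ 1_C deg b n ≤ Ψ + ∫ 1_C deg b n`, so `≤ (n+1) Ψ`.
(5) For `M > 0`: `min (x_{i0}^2 / n) M ≤ 2 (H x - H 0)^2 / n + 8 B^2 / n`. Multiply
`walkE ω n (..) 0` by `1_C deg`, integrate, let `n → ∞`: `HasDiffusivity` with the bounded continuous
function `y ↦ min (y i0 ^2) M` and dominated convergence give
`(∫ 1_C deg) * ∫ min (t^2) M d(gaussianReal 0 D) ≤ 2 Ψ`. Let `M → ∞`: the integral tends to `D`;
`∫ 1_C deg ≥ theta` as `deg ≥ 1` on `C`.
-/

namespace H5DF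

open MeasureTheory Filter Topology

variable {d : ℕ}

section Walk

lemma deg_nonneg (ω : Cfg d) (x : V d) : 0 ≤ deg ω x :=
  Finset.sum_nonneg fun s _ => by split_ifs <;> norm_num

lemma one_le_deg {ω : Cfg d} {x : V d} (h : (cluster ω x).Infinite) : 1 ≤ deg ω x := by
  obtain ⟨y, hy, hyx⟩ := h.exists_notMem_finite (Set.finite_singleton x)
  have hyx' : y ≠ x := hyx
  obtain ⟨P⟩ : (G ω).Reachable x y := hy
  have hs : ∃ s : Dir d, ω (edge x s) = true := by
    cases P with
    | nil => exact absurd rfl hyx'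
    | cons h _ =>
      obtain ⟨s, -, hs⟩ := h
      exact ⟨s, hs⟩
  obtain ⟨s, hs⟩ := hs
  have h1 : (if ω (edge x s) = true then (1 : ℝ) else 0) ≤ deg ω x :=
    Finset.single_le_sum (f := fun s => if ω (edge x s) = true then (1 : ℝ) else 0)
      (fun t _ => by split_ifs <;> norm_num) (Finset.mem_univ s)
  simpa [hs] using h1

lemma walkE_add (ω : Cfg d) (n : ℕ) (f h : V d → ℝ) (x : V d) :
    walkE ω n (fun y => f y + h y) x = walkE ω n f x + walkE ω n h x := by
  induction n generalizing x with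
  | zero => rfl
  | succ n ih =>
    simp only [walkE, ih]
    rw [← add_div, ← Finset.sum_add_distrib]
    congr 1
    refine Finset.sum_congr rfl fun s _ => ?_
    split_ifs <;> simp

lemma walkE_smul (ω : Cfg d) (n : ℕ) (c : ℝ) (f : V d → ℝ) (x : V d) :
    walkE ω n (fun y => c * f y) x = c * walkE ω n f x := by
  induction n generalizing x with
  | zero => rfl
  | succ n ih =>
    simp only [walkE, ih]
    rw [← mul_div_assoc, Finset.mul_sum]
    congr 1
    refine Finset.sum_congr rfl fun s _ => ?_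
    split_ifs <;> simp

lemma walkE_mono (ω : Cfg d) (n : ℕ) {f h : V d → ℝ} (hfh : ∀ y, f y ≤ h y) (x : V d) :
    walkE ω n f x ≤ walkE ω n h x := by
  induction n generalizing x with
  | zero => exact hfh x
  | succ n ih =>
    simp only [walkE]
    refine div_le_div_of_nonneg_right ?_ (deg_nonneg ω x)
    refine Finset.sum_le_sum fun s _ => ?_
    split_ifs
    · exact ih _
    · exact le_rfl

lemma walkE_one {ω : Cfg d} (n : ℕ) {x : V d} (hx : (cluster ω x).Infinite) :
    walkE ω n (fun _ => 1) x = 1 := by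
  induction n generalizing x with
  | zero => rfl
  | succ n ih =>
    have h1 : (∑ s : Dir d, if ω (edge x s) = true then
        walkE ω n (fun _ => (1 : ℝ)) (x + step s) else 0) = deg ω x := by
      unfold deg
      refine Finset.sum_congr rfl fun s _ => ?_
      by_cases hs : ω (edge x s) = true
      · rw [if_pos hs, if_pos hs]
        exact ih ((inf_adj hs).2 hx)
      · rw [if_neg hs, if_neg hs]
    have h2 := one_le_deg hx
    simp only [walkE, h1]
    exact div_self (by linarith)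

lemma walkE_const {ω : Cfg d} (n : ℕ) {x : V d} (hx : (cluster ω x).Infinite) (c : ℝ) :
    walkE ω n (fun _ => c) x = c := by
  have h := walkE_smul ω n c (fun _ => 1) x
  rw [walkE_one n hx] at h
  simpa using h

lemma walkE_shift (ω : Cfg d) (a : V d) (n : ℕ) (f : V d → ℝ) (x : V d) :
    walkE (shift a ω) n (fun y => f (y + a)) x = walkE ω n f (x + a) := by
  induction n generalizing x with
  | zero => rfl
  | succ n ih =>
    simp only [walkE, ih, edge_shift, deg]
    congr 1
    refine Finset.sum_congr rfl fun s _ => ?_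
    rw [add_right_comm]

lemma meas_open' (x : V d) (s : Dir d) (f : Cfg d → ℝ) (hf : Measurable f) :
    Measurable (fun ω : Cfg d => if ω (edge x s) = true then f ω else 0) :=
  Measurable.ite (meas_open _) hf measurable_const

lemma meas_deg (x : V d) : Measurable (fun ω : Cfg d => deg ω x) :=
  Finset.measurable_sum _ fun s _ => meas_open' x s (fun _ => 1) measurable_const

lemma meas_walkE (n : ℕ) (f : V d → ℝ) (x : V d) : Measurable (fun ω => walkE ω n f x) := by
  induction n generalizing x with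
  | zero => exact measurable_const
  | succ n ih =>
    simp only [walkE]
    exact (Finset.measurable_sum _ fun s _ => meas_open' x s _ (ih _)).div (meas_deg x)

end Walk

section Chain

/-- The event of an infinite cluster with an open edge in direction `s`. -/
def CO (s : Dir d) : Set (Cfg d) := {ω | (cluster ω 0).Infinite ∧ ω (edge 0 s) = true}

lemma meas_CO (s : Dir d) : MeasurableSet (CO s) := (meas_inf 0).inter (meas_open _)

/-- The reversible environment chain. -/
noncomputable def RP (p : ℝ) (h0 : 0 ≤ p) (h1 : p ≤ 1) : Rev (perc d p) (Dir d) where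
  T s := shift (step s)
  op := opp
  w s := (CO s).indicator (fun _ => 1)
  T_meas s := measurable_shift _
  w_meas s := measurable_const.indicator (meas_CO s)
  w01 s ω := by
    by_cases h : ω ∈ CO s
    · right
      simp [h]
    · left
      simp [h]
  op_op s := by simp [opp]
  map_T s := perc_shift p h0 h1 _
  T_op s ω := by
    funext e
    simp [shift, step_opp]
  w_op s ω := by
    have h : shift (step s) ω ∈ CO (opp s) ↔ ω ∈ CO s := by
      simp only [CO, Set.mem_setOf_eq, inf_shift, edge_shift, edge_opp]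
      constructor
      · rintro ⟨ha, hb⟩
        exact ⟨(inf_adj hb).1 ha, hb⟩
      · rintro ⟨ha, hb⟩
        exact ⟨(inf_adj hb).2 ha, hb⟩
    by_cases h' : ω ∈ CO s
    · rw [Set.indicator_of_mem h', Set.indicator_of_mem (h.2 h')]
    · rw [Set.indicator_of_notMem h', Set.indicator_of_notMem (fun h2 => h' (h.1 h2))]

variable {p : ℝ} (h0 : 0 ≤ p) (h1 : p ≤ 1)

lemma RP_w_eq (s : Dir d) (ω : Cfg d) :
    (RP p h0 h1).w s ω = (CO s).indicator (fun _ => (1 : ℝ)) ω := rfl

lemma RP_w {ω : Cfg d} (hω : (cluster ω 0).Infinite) (s : Dir d) :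
    (RP p h0 h1).w s ω = if ω (edge 0 s) = true then 1 else 0 := by
  rw [RP_w_eq]
  by_cases h : ω (edge 0 s) = true
  · rw [if_pos h, Set.indicator_of_mem (show ω ∈ CO s from ⟨hω, h⟩)]
  · rw [if_neg h, Set.indicator_of_notMem (show ω ∉ CO s from fun h2 => h h2.2)]

lemma RP_dg {ω : Cfg d} (hω : (cluster ω 0).Infinite) : (RP p h0 h1).dg ω = deg ω 0 := by
  unfold Rev.dg deg
  exact Finset.sum_congr rfl fun s _ => RP_w h0 h1 hω s

lemma RP_dg_zero {ω : Cfg d} (hω : ¬ (cluster ω 0).Infinite) : (RP p h0 h1).dg ω = 0 := by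
  unfold Rev.dg
  refine Finset.sum_eq_zero fun s _ => ?_
  rw [RP_w_eq, Set.indicator_of_notMem (show ω ∉ CO s from fun h2 => hω h2.1)]

/-- The harmonic-type coordinate. -/
noncomputable def HH (i0 : Fin d) (g : Cfg d → ℝ) (ω : Cfg d) (x : V d) : ℝ :=
  (x i0 : ℝ) + g (shift x ω)

/-- Its increments. -/
noncomputable def psi (i0 : Fin d) (g : Cfg d → ℝ) (s : Dir d) (ω : Cfg d) : ℝ :=
  (step s i0 : ℝ) + g (shift (step s) ω) - g ω

variable (i0 : Fin d) (g : Cfg d → ℝ)

lemma shift_zero (ω : Cfg d) : shift 0 ω = ω := by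
  funext e
  simp [shift]

lemma shift_shift (a b : V d) (ω : Cfg d) : shift a (shift b ω) = shift (a + b) ω := by
  funext e
  simp [shift, add_assoc]

lemma HH_zero (ω : Cfg d) : HH i0 g ω 0 = g ω := by
  simp [HH, shift_zero]

lemma HH_step (ω : Cfg d) (s : Dir d) (y : V d) :
    HH i0 g ω (y + step s) = HH i0 g (shift (step s) ω) y + (step s i0 : ℝ) := by
  simp only [HH, shift_shift, Pi.add_apply, Int.cast_add]
  ring

lemma walk_H (n : ℕ) {ω : Cfg d} (hω : (cluster ω 0).Infinite) :
    walkE ω n (HH i0 g ω) 0 = HH i0 g ω 0 + (RP p h0 h1).a (psi i0 g) n ω := by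
  induction n generalizing ω with
  | zero => simp [walkE, Rev.a]
  | succ n ih =>
    have hd := one_le_deg hω
    have hd0 : deg ω 0 ≠ 0 := by linarith
    have h3 : ∀ s : Dir d, (if ω (edge 0 s) = true then
        walkE ω n (HH i0 g ω) (0 + step s) else 0) =
        (if ω (edge 0 s) = true then (1 : ℝ) else 0) * HH i0 g ω 0 + (RP p h0 h1).w s ω *
          (psi i0 g s ω + (RP p h0 h1).a (psi i0 g) n ((RP p h0 h1).T s ω)) := by
      intro s
      rw [RP_w h0 h1 hω s]
      by_cases hs : ω (edge 0 s) = true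
      · simp only [if_pos hs]
        have hinf : (cluster (shift (step s) ω) 0).Infinite := by
          rw [inf_shift]
          exact (inf_adj hs).2 hω
        have h4 : walkE ω n (HH i0 g ω) (0 + step s) =
            walkE (shift (step s) ω) n
              (fun y => HH i0 g (shift (step s) ω) y + (step s i0 : ℝ)) 0 := by
          rw [← walkE_shift]
          simp only [HH_step]
        rw [h4, walkE_add, walkE_const n hinf, ih hinf]
        have h5 : (RP p h0 h1).T s ω = shift (step s) ω := rfl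
        rw [h5, HH_zero, HH_zero, psi]
        ring
      · simp only [if_neg hs]
        ring
    have h6 : (RP p h0 h1).a (psi i0 g) (n + 1) ω = (∑ s, (RP p h0 h1).w s ω *
        (psi i0 g s ω + (RP p h0 h1).a (psi i0 g) n ((RP p h0 h1).T s ω))) / deg ω 0 := by
      rw [← RP_dg h0 h1 hω]
      rfl
    rw [h6]
    simp only [walkE, h3]
    rw [Finset.sum_add_distrib, ← Finset.sum_mul, add_div]
    congr 1
    change deg ω 0 * _ / _ = _
    rw [mul_comm, mul_div_cancel_right₀ _ hd0]

lemma walk_sq (n : ℕ) {ω : Cfg d} (hω : (cluster ω 0).Infinite) :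
    walkE ω n (fun y => (HH i0 g ω y - HH i0 g ω 0) ^ 2) 0 =
      (RP p h0 h1).b (psi i0 g) n ω := by
  induction n generalizing ω with
  | zero => simp [walkE, Rev.b]
  | succ n ih =>
    have h3 : ∀ s : Dir d, (if ω (edge 0 s) = true then
        walkE ω n (fun y => (HH i0 g ω y - HH i0 g ω 0) ^ 2) (0 + step s) else 0) =
        (RP p h0 h1).w s ω * (psi i0 g s ω ^ 2 + 2 * psi i0 g s ω *
          (RP p h0 h1).a (psi i0 g) n ((RP p h0 h1).T s ω) +
          (RP p h0 h1).b (psi i0 g) n ((RP p h0 h1).T s ω)) := by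
      intro s
      rw [RP_w h0 h1 hω s]
      by_cases hs : ω (edge 0 s) = true
      · simp only [if_pos hs]
        have hinf : (cluster (shift (step s) ω) 0).Infinite := by
          rw [inf_shift]
          exact (inf_adj hs).2 hω
        have h5 : (RP p h0 h1).T s ω = shift (step s) ω := rfl
        rw [h5]
        set ω' := shift (step s) ω with hω'
        have h4 : walkE ω n (fun y => (HH i0 g ω y - HH i0 g ω 0) ^ 2) (0 + step s) =
            walkE ω' n (fun y => ((HH i0 g ω' y - HH i0 g ω' 0) ^ 2 +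
              2 * psi i0 g s ω * (HH i0 g ω' y)) +
              (psi i0 g s ω ^ 2 - 2 * psi i0 g s ω * HH i0 g ω' 0)) 0 := by
          rw [← walkE_shift]
          congr 1
          funext y
          rw [HH_step, HH_zero, HH_zero, psi, ← hω']
          ring
        rw [h4, walkE_add, walkE_add, walkE_const n hinf, walkE_smul, ih hinf,
          walk_H h0 h1 i0 g n hinf]
        ring
      · simp only [if_neg hs]
        ring
    have h6 : (RP p h0 h1).b (psi i0 g) (n + 1) ω = (∑ s, (RP p h0 h1).w s ω *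
        (psi i0 g s ω ^ 2 + 2 * psi i0 g s ω *
          (RP p h0 h1).a (psi i0 g) n ((RP p h0 h1).T s ω) +
          (RP p h0 h1).b (psi i0 g) n ((RP p h0 h1).T s ω))) / deg ω 0 := by
      rw [← RP_dg h0 h1 hω]
      rfl
    rw [h6]
    simp only [walkE, h3]

end Chain

section Limit

/-- The truncated square. -/
noncomputable def fM (i0 : Fin d) (M : ℝ) (hM : 0 ≤ M) :
    BoundedContinuousFunction (Fin d → ℝ) ℝ :=
  BoundedContinuousFunction.ofNormedAddCommGroup (fun y => min ((y i0) ^ 2) M)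
    (by fun_prop) M (fun y => by
      rw [Real.norm_eq_abs, abs_of_nonneg (le_min (sq_nonneg _) hM)]
      exact min_le_right _ _)

lemma fM_apply (i0 : Fin d) (M : ℝ) (hM : 0 ≤ M) (y : Fin d → ℝ) :
    fM i0 M hM y = min ((y i0) ^ 2) M := rfl

variable {p : ℝ} (h0 : 0 ≤ p) (h1 : p ≤ 1) (i0 : Fin d) (g : Cfg d → ℝ)

lemma walk_le {B : ℝ} (hB : ∀ ω, |g ω| ≤ B) (M : ℝ) (hM : 0 ≤ M) {n : ℕ} (hn : 0 < n)
    {ω : Cfg d} (hω : (cluster ω 0).Infinite) :
    walkE ω n (fun x => fM i0 M hM (fun i => (x i : ℝ) / Real.sqrt n)) 0 ≤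
      2 / n * (RP p h0 h1).b (psi i0 g) n ω + 8 * B ^ 2 / n := by
  have hn' : (0 : ℝ) < n := by exact_mod_cast hn
  have h : ∀ x : V d, fM i0 M hM (fun i => (x i : ℝ) / Real.sqrt n) ≤
      2 / n * (HH i0 g ω x - HH i0 g ω 0) ^ 2 + 8 * B ^ 2 / n := by
    intro x
    rw [fM_apply]
    refine (min_le_left _ _).trans ?_
    rw [div_pow, Real.sq_sqrt hn'.le, div_mul_eq_mul_div, ← add_div]
    refine div_le_div_of_nonneg_right ?_ hn'.le
    rw [HH_zero, HH]
    have h1 := abs_le.1 (hB (shift x ω))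
    have h2 := abs_le.1 (hB ω)
    have h3 : (g ω - g (shift x ω)) ^ 2 ≤ (2 * B) ^ 2 :=
      sq_le_sq' (by linarith) (by linarith)
    nlinarith [sq_nonneg ((x i0 : ℝ) + g (shift x ω) - g ω - (g ω - g (shift x ω)))]
  refine (walkE_mono ω n h 0).trans ?_
  rw [walkE_add, walkE_smul, walkE_const n hω, walk_sq h0 h1 i0 g n hω]

lemma walk_abs_le (M : ℝ) (hM : 0 ≤ M) (n : ℕ) {ω : Cfg d} (hω : (cluster ω 0).Infinite)
    (f : V d → ℝ) (hf : ∀ y, |f y| ≤ M) : |walkE ω n f 0| ≤ M := by
  rw [abs_le]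
  constructor
  · rw [← walkE_const n hω (-M)]
    exact walkE_mono ω n (fun y => (abs_le.1 (hf y)).1) 0
  · rw [← walkE_const n hω M]
    exact walkE_mono ω n (fun y => (abs_le.1 (hf y)).2) 0

/-- The marginal of the Gaussian product. -/
lemma int_fM (M : ℝ) (hM : 0 ≤ M) (D : NNReal) :
    ∫ y, fM i0 M hM y ∂(Measure.pi fun _ : Fin d => ProbabilityTheory.gaussianReal 0 D) =
      ∫ t, min (t ^ 2) M ∂(ProbabilityTheory.gaussianReal 0 D) := by
  have h := measurePreserving_eval (fun _ : Fin d => ProbabilityTheory.gaussianReal 0 D) i0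
  have h2 := integral_map (μ := Measure.pi fun _ : Fin d => ProbabilityTheory.gaussianReal 0 D)
    (φ := Function.eval i0) (f := fun t : ℝ => min (t ^ 2) M)
    (measurable_pi_apply i0).aemeasurable (Continuous.aestronglyMeasurable (by fun_prop))
  rw [h.map_eq] at h2
  rw [h2]
  rfl

lemma gauss_lim (D : NNReal) :
    Tendsto (fun k : ℕ => ∫ t, min (t ^ 2) (k : ℝ) ∂(ProbabilityTheory.gaussianReal 0 D)) atTop
      (𝓝 (D : ℝ)) := by
  have hL : MemLp id 2 (ProbabilityTheory.gaussianReal 0 D) :=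
    ProbabilityTheory.memLp_id_gaussianReal 2
  have hint : Integrable (fun t : ℝ => t ^ 2) (ProbabilityTheory.gaussianReal 0 D) := by
    simpa using hL.integrable_sq
  have hval : ∫ t, t ^ 2 ∂(ProbabilityTheory.gaussianReal 0 D) = (D : ℝ) := by
    have h1 := ProbabilityTheory.variance_id_gaussianReal (μ := 0) (v := D)
    rw [ProbabilityTheory.variance_eq_integral measurable_id.aemeasurable] at h1
    simpa using h1
  rw [← hval]
  refine tendsto_integral_of_dominated_convergence (fun t => t ^ 2) ?_ hint ?_ ?_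
  · intro k
    exact Continuous.aestronglyMeasurable (by fun_prop)
  · intro k
    refine Eventually.of_forall fun t => ?_
    rw [Real.norm_eq_abs, abs_of_nonneg (le_min (sq_nonneg _) (Nat.cast_nonneg _))]
    exact min_le_left _ _
  · refine Eventually.of_forall fun t => ?_
    obtain ⟨K, hK⟩ := exists_nat_ge (t ^ 2)
    refine tendsto_const_nhds.congr' ?_
    filter_upwards [eventually_ge_atTop K] with k hk
    rw [min_eq_left]
    exact hK.trans (by exact_mod_cast hk)

lemma bm_psi (hg : Measurable g) {B : ℝ} (hB : ∀ ω, |g ω| ≤ B) (s : Dir d) :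
    BM (psi i0 g s) := by
  have hg' : BM g := ⟨hg, B, hB⟩
  exact ((BM.const _).add (hg'.comp (measurable_shift _))).sub hg'

lemma psi_anti (s : Dir d) (ω : Cfg d) :
    psi i0 g (opp s) (shift (step s) ω) = - psi i0 g s ω := by
  simp only [psi, shift_shift, step_opp, neg_add_cancel, shift_zero, Pi.neg_apply, Int.cast_neg]
  ring

lemma trunc_bound (D : NNReal) (hD : HasDiffusivity d p D) (hg : Measurable g) (B : ℝ)
    (hB : ∀ ω, |g ω| ≤ B) (M : ℝ) (hM : 0 ≤ M) :
    (∫ ω, (RP p h0 h1).dg ω ∂(perc d p)) *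
      (∫ t, min (t ^ 2) M ∂(ProbabilityTheory.gaussianReal 0 D)) ≤
        2 * (RP p h0 h1).E (fun s ω => psi i0 g s ω ^ 2) := by
  have hpb := isProb_bern h0 h1
  have hpp : IsProbabilityMeasure (perc d p) := by unfold perc; infer_instance
  set R : Rev (perc d p) (Dir d) := RP p h0 h1 with hR
  set m := ∫ t, min (t ^ 2) M ∂(ProbabilityTheory.gaussianReal 0 D) with hm
  set F : ℕ → Cfg d → ℝ := fun n ω => R.dg ω *
    walkE ω n (fun x => fM i0 M hM (fun i => (x i : ℝ) / Real.sqrt n)) 0 with hF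
  have hdgi : Integrable R.dg (perc d p) := R.bm_dg.integrable _
  have hFm : ∀ n, Measurable (F n) := fun n => R.bm_dg.1.mul (meas_walkE n _ 0)
  have hfM : ∀ y, |fM i0 M hM y| ≤ M := by
    intro y
    rw [fM_apply, abs_of_nonneg (le_min (sq_nonneg _) hM)]
    exact min_le_right _ _
  have hFb : ∀ n ω, ‖F n ω‖ ≤ R.dg ω * M := by
    intro n ω
    rw [Real.norm_eq_abs, hF, abs_mul, abs_of_nonneg (R.dg_nonneg ω)]
    by_cases hω : (cluster ω 0).Infinite
    · exact mul_le_mul_of_nonneg_left (walk_abs_le M hM n hω _ fun y => hfM _) (R.dg_nonneg ω)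
    · rw [hR, RP_dg_zero h0 h1 hω, zero_mul, zero_mul]
  have hlim : Tendsto (fun n => ∫ ω, F n ω ∂(perc d p)) atTop
      (𝓝 (∫ ω, R.dg ω * m ∂(perc d p))) := by
    refine tendsto_integral_of_dominated_convergence (fun ω => R.dg ω * M)
      (fun n => (hFm n).aestronglyMeasurable) (hdgi.mul_const M)
      (fun n => Eventually.of_forall (hFb n)) ?_
    filter_upwards [hD] with ω hω
    by_cases hinf : (cluster ω 0).Infinite
    · have h2 := hω hinf (fM i0 M hM)
      rw [int_fM] at h2
      exact h2.const_mul _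
    · have h3 : ∀ n, F n ω = 0 := by
        intro n
        simp only [hF]
        rw [hR, RP_dg_zero h0 h1 hinf, zero_mul]
      have h4 : R.dg ω * m = 0 := by
        rw [hR, RP_dg_zero h0 h1 hinf, zero_mul]
      rw [h4]
      simp only [h3]
      exact tendsto_const_nhds
  rw [integral_mul_const] at hlim
  have hψ := bm_psi i0 g hg hB
  have hanti : ∀ s ω, psi i0 g (R.op s) (R.T s ω) = - psi i0 g s ω :=
    fun s ω => psi_anti i0 g s ω
  set Ψ := R.E (fun s ω => psi i0 g s ω ^ 2) with hΨ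
  set c := ∫ ω, R.dg ω ∂(perc d p) with hc
  have hup : ∀ n : ℕ, 0 < n → ∫ ω, F n ω ∂(perc d p) ≤ 2 * Ψ + 8 * B ^ 2 * c / n := by
    intro n hn
    have hn' : (0 : ℝ) < n := by exact_mod_cast hn
    have hbi : Integrable (fun ω => R.dg ω * R.b (psi i0 g) n ω) (perc d p) :=
      (R.bm_dg.mul (R.bm_b hψ n)).integrable _
    have h2 : ∫ ω, F n ω ∂(perc d p) ≤
        ∫ ω, (2 / n * (R.dg ω * R.b (psi i0 g) n ω) + 8 * B ^ 2 / n * R.dg ω) ∂(perc d p) := by
      refine integral_mono ?_ ?_ ?_
      · exact Integrable.mono' (hdgi.mul_const M) (hFm n).aestronglyMeasurable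
          (Eventually.of_forall (hFb n))
      · exact (hbi.const_mul _).add (hdgi.const_mul _)
      · intro ω
        by_cases hω : (cluster ω 0).Infinite
        · have h3 := mul_le_mul_of_nonneg_left (walk_le h0 h1 i0 g hB M hM hn hω)
            (R.dg_nonneg ω)
          simp only [hF]
          refine h3.trans (le_of_eq ?_)
          rw [← hR]
          ring
        · simp only [hF]
          rw [hR, RP_dg_zero h0 h1 hω]
          simp
    rw [integral_add (hbi.const_mul _) (hdgi.const_mul _), integral_const_mul,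
      integral_const_mul] at h2
    have h3 := R.b_le hψ hanti n
    have h4 : 2 / n * ∫ ω, R.dg ω * R.b (psi i0 g) n ω ∂(perc d p) ≤ 2 * Ψ := by
      calc 2 / n * ∫ ω, R.dg ω * R.b (psi i0 g) n ω ∂(perc d p) ≤ 2 / n * (n * Ψ) :=
            mul_le_mul_of_nonneg_left h3 (by positivity)
        _ = 2 * Ψ := by
            field_simp
    have h5 : 8 * B ^ 2 / n * c = 8 * B ^ 2 * c / n := by ring
    rw [h5] at h2
    linarith
  have hlim2 : Tendsto (fun n : ℕ => 2 * Ψ + 8 * B ^ 2 * c / n) atTop (𝓝 (2 * Ψ + 0)) :=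
    tendsto_const_nhds.add (tendsto_const_div_atTop_nhds_zero_nat _)
  rw [add_zero] at hlim2
  refine le_of_tendsto_of_tendsto hlim hlim2 ?_
  filter_upwards [eventually_gt_atTop 0] with n hn
  exact hup n hn

end Limit

theorem rw_bound (d : ℕ) (i0 : Fin d) (p : ℝ) (h0 : 0 ≤ p) (h1 : p ≤ 1) (D : NNReal)
    (hD : HasDiffusivity d p D) (g : Cfg d → ℝ) (hg : Measurable g) (B : ℝ)
    (hB : ∀ ω, |g ω| ≤ B) :
    (D : ℝ) * theta d p ≤ 2 * ∑ s : Dir d,
      ∫ ω in {ω | (cluster ω 0).Infinite ∧ ω (edge 0 s) = true},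
        ((step s i0 : ℝ) + g (shift (step s) ω) - g ω) ^ 2 ∂(perc d p) := by
  have hpb := isProb_bern h0 h1
  have hpp : IsProbabilityMeasure (perc d p) := by unfold perc; infer_instance
  have hE : (RP p h0 h1).E (fun s ω => psi i0 g s ω ^ 2) = ∑ s : Dir d,
      ∫ ω in {ω | (cluster ω 0).Infinite ∧ ω (edge 0 s) = true},
        ((step s i0 : ℝ) + g (shift (step s) ω) - g ω) ^ 2 ∂(perc d p) := by
    unfold Rev.E
    refine Finset.sum_congr rfl fun s _ => ?_
    have h5 : {ω : Cfg d | (cluster ω 0).Infinite ∧ ω (edge 0 s) = true} = CO s := rfl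
    rw [h5, ← integral_indicator (meas_CO s)]
    refine integral_congr_ae (Eventually.of_forall fun ω => ?_)
    by_cases hω : ω ∈ CO s
    · simp only
      rw [RP_w_eq, Set.indicator_of_mem hω, Set.indicator_of_mem hω, one_mul]
      rfl
    · simp only
      rw [RP_w_eq, Set.indicator_of_notMem hω, Set.indicator_of_notMem hω, zero_mul]
  rw [← hE]
  have h2 : ∀ k : ℕ, (∫ ω, (RP p h0 h1).dg ω ∂(perc d p)) *
      (∫ t, min (t ^ 2) (k : ℝ) ∂(ProbabilityTheory.gaussianReal 0 D)) ≤
        2 * (RP p h0 h1).E (fun s ω => psi i0 g s ω ^ 2) :=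
    fun k => trunc_bound h0 h1 i0 g D hD hg B hB k (Nat.cast_nonneg k)
  have h3 : (∫ ω, (RP p h0 h1).dg ω ∂(perc d p)) * (D : ℝ) ≤
      2 * (RP p h0 h1).E (fun s ω => psi i0 g s ω ^ 2) :=
    le_of_tendsto ((gauss_lim D).const_mul _) (Eventually.of_forall h2)
  have h4 : theta d p ≤ ∫ ω, (RP p h0 h1).dg ω ∂(perc d p) := by
    unfold theta
    rw [← integral_indicator_one (meas_inf 0)]
    refine integral_mono ?_ ((RP p h0 h1).bm_dg.integrable _) ?_
    · exact (integrable_const (1 : ℝ)).indicator (meas_inf 0)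
    · intro ω
      by_cases hω : (cluster ω 0).Infinite
      · rw [Set.indicator_of_mem (show ω ∈ {ω : Cfg d | (cluster ω 0).Infinite} from hω),
          RP_dg h0 h1 hω]
        exact one_le_deg hω
      · rw [Set.indicator_of_notMem (show ω ∉ {ω : Cfg d | (cluster ω 0).Infinite} from hω)]
        exact (RP p h0 h1).dg_nonneg ω
  calc (D : ℝ) * theta d p ≤ (D : ℝ) * ∫ ω, (RP p h0 h1).dg ω ∂(perc d p) :=
        mul_le_mul_of_nonneg_left h4 D.coe_nonneg
    _ = (∫ ω, (RP p h0 h1).dg ω ∂(perc d p)) * (D : ℝ) := mul_comm _ _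
    _ ≤ _ := h3

end H5DF
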