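import Pool.Agent.H5.DF.Energy3
import Pool.Agent.H5.DF.RW

/-!
The general inequality for the diffusivity (MP_0d9ad5_pr).
-/

namespace H5DF

open MeasureTheory ENNReal

variable {d : ℕ}

lemma bad_real (p : ℝ) (h0 : 0 ≤ p) (h1 : p ≤ 1) (K L : ℕ) (hKL : 2 * L ≤ K) (hK : 1 ≤ K)
    (m : ℝ) (hm : 0 ≤ m) (hfar : far d p L ≤ ENNReal.ofReal m) :
    perc d p {ω | ¬ Good K ω 0} ≤ ENNReal.ofReal (4 * m / (K : ℝ) ^ 2) := by
  have hK0 : (0 : ℝ) < (K : ℝ) ^ 2 := by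
    have : (0 : ℝ) < K := by exact_mod_cast hK
    positivity
  have h2 := bad_le (d := d) p K L hKL
  have h3 : ENNReal.ofReal ((K : ℝ) ^ 2) * perc d p {ω | ¬ Good K ω 0} ≤
      ENNReal.ofReal (4 * m) := by
    refine h2.trans ?_
    rw [ENNReal.ofReal_mul (by norm_num)]
    have h4 : ENNReal.ofReal 4 = 4 := by simp
    rw [h4]
    gcongr
  rw [ENNReal.ofReal_div_of_pos hK0, ENNReal.le_div_iff_mul_le
    (Or.inl (ENNReal.ofReal_pos.2 hK0).ne') (Or.inl ENNReal.ofReal_ne_top), mul_comm]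
  exact h3

lemma dir_real (i0 : Fin d) (K L M k : ℕ) (hKL : 2 * L ≤ K) (hK : 1 ≤ K)
    (hk : (2 * M + 1) ^ d ≤ k) {p r : ℝ} (hp0 : 0 ≤ p)
    (hp1 : p ≤ 1) (h0 : 0 ≤ r) (h1 : r ≤ 1) (m : ℝ) (hm : 0 ≤ m)
    (hfar : far d (p * r) L ≤ ENNReal.ofReal m) (s : Dir d) :
    ∫ ω in {ω | (cluster ω 0).Infinite ∧ ω (edge 0 s) = true},
        ((step s i0 : ℝ) + gK i0 K k r (shift (step s) ω) - gK i0 K k r ω) ^ 2 ∂(perc d p) ≤
      2 * (4 * m / (K : ℝ) ^ 2) + 6 * (1 - r) ^ 2 * ((1 + 2 * (L : ℝ) ^ 2) *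
        ((perc d p).real {ω | Arm M ω}) ^ 2 + 2 * m) := by
  haveI := isPP (d := d) h0 h1
  haveI := isPP (d := d) hp0 hp1
  have hpr0 : 0 ≤ p * r := mul_nonneg hp0 h0
  have hpr1 : p * r ≤ 1 := mul_le_one₀ hp1 h0 h1
  have hE := energy_dir i0 K L k hKL hp0 hp1 h0 h1 s
  have hB := bad_real (d := d) (p * r) hpr0 hpr1 K L hKL hK m hm hfar
  have hLv := live_le (d := d) p hp0 hp1 M k hk
  have hg := gK_meas (d := d) i0 K k h0 h1
  have hψ : Measurable fun ω : Cfg d =>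
      ((step s i0 : ℝ) + gK i0 K k r (shift (step s) ω) - gK i0 K k r ω) ^ 2 :=
    ((measurable_const.add (hg.comp (measurable_shift (step s)))).sub hg).pow_const 2
  rw [← ENNReal.ofReal_le_ofReal_iff (by positivity)]
  rw [ofReal_integral_eq_lintegral_ofReal ?_ (Filter.Eventually.of_forall fun ω => sq_nonneg _)]
  · refine hE.trans ?_
    have hLv' : perc d p {ω | Live (G ω) k 0} ≤
        ENNReal.ofReal (((perc d p).real {ω | Arm M ω}) ^ 2) := by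
      rw [← ofReal_measureReal (μ := perc d p) (s := {ω | Live (G ω) k 0})]
      exact ENNReal.ofReal_le_ofReal hLv
    calc 2 * perc d (p * r) {ω | ¬ Good K ω 0} +
          6 * ENNReal.ofReal ((1 - r) ^ 2) * ((1 + 2 * ENNReal.ofReal ((L : ℝ) ^ 2)) *
          perc d p {ω | Live (G ω) k 0} + 2 * far d (p * r) L)
        ≤ 2 * ENNReal.ofReal (4 * m / (K : ℝ) ^ 2) +
          6 * ENNReal.ofReal ((1 - r) ^ 2) * ((1 + 2 * ENNReal.ofReal ((L : ℝ) ^ 2)) *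
          ENNReal.ofReal (((perc d p).real {ω | Arm M ω}) ^ 2) + 2 * ENNReal.ofReal m) := by
          gcongr
      _ = _ := by
          rw [ENNReal.ofReal_add (by positivity) (by positivity),
            ENNReal.ofReal_mul (by norm_num), ENNReal.ofReal_mul (by positivity),
            ENNReal.ofReal_mul (by norm_num), ENNReal.ofReal_add (by positivity) (by positivity),
            ENNReal.ofReal_mul (by positivity), ENNReal.ofReal_add (by norm_num) (by positivity),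
            ENNReal.ofReal_mul (by norm_num), ENNReal.ofReal_mul (by norm_num)]
          simp
  · refine (integrable_of_bdd (perc d p) hψ ((1 + (k + K) + (k + K) : ℝ) ^ 2)
      fun ω => ?_).integrableOn
    have a1 := step_coord_le i0 s
    have a2 := gK_bound i0 K k h0 h1 ω
    have a3 := gK_bound i0 K k h0 h1 (shift (step s) ω)
    rw [abs_of_nonneg (sq_nonneg _), ← sq_abs]
    have a4 : |(step s i0 : ℝ) + gK i0 K k r (shift (step s) ω) - gK i0 K k r ω| ≤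
        1 + (k + K) + (k + K) := by
      rw [abs_le] at *
      constructor <;> linarith [a1.1, a1.2, a2.1, a2.2, a3.1, a3.2]
    gcongr

/-- The general inequality. -/
theorem main_ineq (d : ℕ) (hd : 1 ≤ d) (p' p : ℝ) (L : ℕ) (m : ℝ) (D : NNReal)
    (hp'0 : 0 ≤ p') (hp' : p' ≤ p) (hp0 : 0 < p) (hp1 : p ≤ 1) (hL : 1 ≤ L) (hm : 0 ≤ m)
    (hfar : far d p' L ≤ ENNReal.ofReal m) (hD : HasDiffusivity d p D) :
    (D : ℝ) * theta d p ≤ 72 * d * ((p - p') / p) ^ 2 * ((L : ℝ) ^ 2 * theta d p ^ 2 + m) := by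
  set r : ℝ := p' / p with hr
  have hr0 : 0 ≤ r := div_nonneg hp'0 hp0.le
  have hr1 : r ≤ 1 := (div_le_one hp0).2 hp'
  have hpr : p * r = p' := by rw [hr]; field_simp
  have h1r : 1 - r = (p - p') / p := by rw [hr]; field_simp
  have hfar' : far d (p * r) L ≤ ENNReal.ofReal m := by rw [hpr]; exact hfar
  let i0 : Fin d := ⟨0, hd⟩
  have key : ∀ K M : ℕ, 2 * L ≤ K → (D : ℝ) * theta d p ≤ 4 * d *
      (2 * (4 * m / (K : ℝ) ^ 2) + 6 * (1 - r) ^ 2 * ((1 + 2 * (L : ℝ) ^ 2) *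
        ((perc d p).real {ω | Arm M ω}) ^ 2 + 2 * m)) := by
    intro K M hKL
    have hK : 1 ≤ K := by omega
    set k := (2 * M + 1) ^ d with hk
    have h2 := rw_bound d i0 p hp0.le hp1 D hD (gK i0 K k r) (gK_meas i0 K k hr0 hr1)
      ((k : ℝ) + K) (gK_bound i0 K k hr0 hr1)
    refine h2.trans ?_
    have h3 : ∑ s : Dir d, ∫ ω in {ω | (cluster ω 0).Infinite ∧ ω (edge 0 s) = true},
        ((step s i0 : ℝ) + gK i0 K k r (shift (step s) ω) - gK i0 K k r ω) ^ 2 ∂(perc d p) ≤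
        ∑ _s : Dir d, (2 * (4 * m / (K : ℝ) ^ 2) + 6 * (1 - r) ^ 2 * ((1 + 2 * (L : ℝ) ^ 2) *
        ((perc d p).real {ω | Arm M ω}) ^ 2 + 2 * m)) :=
      Finset.sum_le_sum fun s _ =>
        dir_real i0 K L M k hKL hK le_rfl hp0.le hp1 hr0 hr1 m hm hfar' s
    rw [Finset.sum_const, Finset.card_univ, Fintype.card_prod, Fintype.card_fin,
      Fintype.card_bool, nsmul_eq_mul] at h3
    push_cast at h3
    linarith
  have hlimK : Filter.Tendsto (fun K : ℕ => 4 * m / (K : ℝ) ^ 2) Filter.atTop (nhds 0) := by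
    refine Filter.Tendsto.div_atTop tendsto_const_nhds ?_
    exact (Filter.tendsto_pow_atTop (by norm_num)).comp tendsto_natCast_atTop_atTop
  have key2 : ∀ M : ℕ, (D : ℝ) * theta d p ≤ 4 * d *
      (6 * (1 - r) ^ 2 * ((1 + 2 * (L : ℝ) ^ 2) *
        ((perc d p).real {ω | Arm M ω}) ^ 2 + 2 * m)) := by
    intro M
    have hlim : Filter.Tendsto (fun K : ℕ => 4 * (d : ℝ) *
      (2 * (4 * m / (K : ℝ) ^ 2) + 6 * (1 - r) ^ 2 * ((1 + 2 * (L : ℝ) ^ 2) *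
        ((perc d p).real {ω | Arm M ω}) ^ 2 + 2 * m))) Filter.atTop (nhds (4 * (d : ℝ) *
      (2 * 0 + 6 * (1 - r) ^ 2 * ((1 + 2 * (L : ℝ) ^ 2) *
        ((perc d p).real {ω | Arm M ω}) ^ 2 + 2 * m)))) :=
      ((hlimK.const_mul 2).add_const _).const_mul _
    rw [mul_zero, zero_add] at hlim
    refine ge_of_tendsto hlim ?_
    filter_upwards [Filter.eventually_ge_atTop (2 * L)] with K hK
    exact key K M hK
  have hlimM : Filter.Tendsto (fun M : ℕ => 4 * (d : ℝ) *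
      (6 * (1 - r) ^ 2 * ((1 + 2 * (L : ℝ) ^ 2) *
        ((perc d p).real {ω | Arm M ω}) ^ 2 + 2 * m))) Filter.atTop (nhds (4 * (d : ℝ) *
      (6 * (1 - r) ^ 2 * ((1 + 2 * (L : ℝ) ^ 2) * (theta d p) ^ 2 + 2 * m)))) :=
    (((((arm_tendsto (d := d) p hp0.le hp1).pow 2).const_mul _).add_const _).const_mul _).const_mul _
  have key3 := ge_of_tendsto' hlimM key2
  rw [← h1r]
  refine key3.trans ?_
  have hL' : (1 : ℝ) ≤ L := by exact_mod_cast hL
  have hL2 : (1 : ℝ) ≤ (L : ℝ) ^ 2 := one_le_pow₀ hL'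
  have e1 : (1 + 2 * (L : ℝ) ^ 2) * (theta d p) ^ 2 + 2 * m ≤
      3 * ((L : ℝ) ^ 2 * theta d p ^ 2 + m) := by
    nlinarith [sq_nonneg (theta d p)]
  have e2 : 0 ≤ 24 * (d : ℝ) * (1 - r) ^ 2 := by positivity
  calc 4 * (d : ℝ) * (6 * (1 - r) ^ 2 * ((1 + 2 * (L : ℝ) ^ 2) * (theta d p) ^ 2 + 2 * m))
      = 24 * (d : ℝ) * (1 - r) ^ 2 * ((1 + 2 * (L : ℝ) ^ 2) * (theta d p) ^ 2 + 2 * m) := by ring
    _ ≤ 24 * (d : ℝ) * (1 - r) ^ 2 * (3 * ((L : ℝ) ^ 2 * theta d p ^ 2 + m)) := by gcongr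
    _ = _ := by ring

end H5DF
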