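import Pool.Agent.H5.DF.Main
import Pool.Agent.H5.DF.ExpSum

/-!
The mean-field corollary (MP_0d9ad5_pr).
-/

namespace H5DF

open MeasureTheory ENNReal

lemma far_le (d : ℕ) (p A c s C : ℝ) (N L : ℕ) (hA : 0 < A)
    (hτ : ∀ x : V d, tau d p x ≤ ENNReal.ofReal (A * Real.exp (-(c * s * ‖x‖))))
    (hsum : (∑' x : Fin d → ℤ, if (L : ℝ) < ‖x‖ then
          ENNReal.ofReal (‖x‖ ^ 2) * ENNReal.ofReal (Real.exp (-(c * s * ‖x‖))) else 0) ≤
        ENNReal.ofReal (C / s ^ N * Real.exp (-(c * s * L / 2)))) :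
    far d p L ≤ ENNReal.ofReal (A * (C / s ^ N * Real.exp (-(c * s * L / 2)))) := by
  rw [ENNReal.ofReal_mul hA.le]
  calc far d p L ≤ ∑' x : Fin d → ℤ, ENNReal.ofReal A * (if (L : ℝ) < ‖x‖ then
          ENNReal.ofReal (‖x‖ ^ 2) * ENNReal.ofReal (Real.exp (-(c * s * ‖x‖))) else 0) := by
        refine ENNReal.tsum_le_tsum fun x => ?_
        by_cases hx : (L : ℝ) < ‖x‖
        · rw [if_pos hx, if_pos hx]
          have := hτ x
          rw [ENNReal.ofReal_mul hA.le] at this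
          calc ENNReal.ofReal (‖x‖ ^ 2) * tau d p x
              ≤ ENNReal.ofReal (‖x‖ ^ 2) * (ENNReal.ofReal A *
                ENNReal.ofReal (Real.exp (-(c * s * ‖x‖)))) := by gcongr
            _ = _ := by ring
        · rw [if_neg hx, if_neg hx]; simp
    _ = ENNReal.ofReal A * ∑' x : Fin d → ℤ, (if (L : ℝ) < ‖x‖ then
          ENNReal.ofReal (‖x‖ ^ 2) * ENNReal.ofReal (Real.exp (-(c * s * ‖x‖))) else 0) :=
        ENNReal.tsum_mul_left
    _ ≤ _ := by gcongr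

theorem mean_field (d : ℕ) (hd : 1 ≤ d) (pc a A c δ₀ : ℝ) (hpc0 : 0 < pc) (hpc1 : pc < 1)
    (ha : 0 < a) (hA : 0 < A) (hc : 0 < c) (hδ₀ : 0 < δ₀)
    (hθ : ∀ ε, 0 < ε → ε < δ₀ → a * ε ≤ theta d (pc + ε) ∧ theta d (pc + ε) ≤ A * ε)
    (hτ : ∀ ε, 0 < ε → ε < δ₀ → ∀ x : V d,
      tau d (pc - ε) x ≤ ENNReal.ofReal (A * Real.exp (-(c * Real.sqrt ε * ‖x‖)))) :
    ∃ C δ : ℝ, 0 < C ∧ 0 < δ ∧ ∀ ε, 0 < ε → ε < δ → ∀ D : NNReal,
      HasDiffusivity d (pc + ε) D → (D : ℝ) ≤ C * (ε ^ 2 * Real.log (1 / ε) ^ 2) := by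
  obtain ⟨C1, N, hC1, hsum⟩ := exp_tail_sum d c hc
  set B : ℝ := (N + 6) / c + 1 with hB
  have hB1 : 1 ≤ B := by
    have : 0 ≤ ((N : ℝ) + 6) / c := by positivity
    linarith
  refine ⟨72 * d * (4 / pc ^ 2) * (4 * A * B ^ 2 + A * C1 / a),
    min (min δ₀ pc) (min (1 - pc) (Real.exp (-1))), ?_, ?_, ?_⟩
  · have : (0 : ℝ) < d := by exact_mod_cast hd
    positivity
  · have h2 : 0 < 1 - pc := by linarith
    have h3 := Real.exp_pos (-1)
    positivity
  intro ε hε hεδ D hD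
  have e1 : ε < δ₀ := lt_of_lt_of_le hεδ ((min_le_left _ _).trans (min_le_left _ _))
  have e2 : ε < pc := lt_of_lt_of_le hεδ ((min_le_left _ _).trans (min_le_right _ _))
  have e3 : ε < 1 - pc := lt_of_lt_of_le hεδ ((min_le_right _ _).trans (min_le_left _ _))
  have e4 : ε < Real.exp (-1) := lt_of_lt_of_le hεδ ((min_le_right _ _).trans (min_le_right _ _))
  have hε1 : ε < 1 := e4.trans (by rw [← Real.exp_zero]; exact Real.exp_lt_exp.2 (by norm_num))
  set l : ℝ := Real.log (1 / ε) with hl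
  have hll : l = - Real.log ε := by rw [hl, one_div, Real.log_inv]
  have hl1 : 1 ≤ l := by
    have : Real.log ε ≤ -1 := by
      rw [← Real.log_exp (-1)]
      exact Real.log_le_log hε e4.le
    linarith
  set s : ℝ := Real.sqrt ε with hs
  have hs0 : 0 < s := Real.sqrt_pos.2 hε
  have hss : s ^ 2 = ε := Real.sq_sqrt hε.le
  have hs1 : s ≤ 1 := by
    rw [hs]; exact Real.sqrt_le_one.2 hε1.le
  set L : ℕ := ⌈B * l / s⌉₊ with hL
  have hBls : 1 ≤ B * l / s := by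
    rw [le_div_iff₀ hs0]
    nlinarith
  have hL1 : B * l / s ≤ L := Nat.le_ceil _
  have hL2 : (L : ℝ) ≤ 2 * (B * l / s) := by
    have := Nat.ceil_lt_add_one (zero_le_one.trans hBls)
    linarith
  have hLone : 1 ≤ L := by
    have : (1 : ℝ) ≤ L := hBls.trans hL1
    exact_mod_cast this
  set m : ℝ := A * C1 * ε ^ 3 with hm
  have hm0 : 0 ≤ m := by positivity
  have hfar : far d (pc - ε) L ≤ ENNReal.ofReal m := by
    refine (far_le d (pc - ε) A c s C1 N L hA (hτ ε hε e1) (hsum s L hs0 hs1)).trans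
      (ENNReal.ofReal_le_ofReal ?_)
    have h5 : C1 / s ^ N * Real.exp (-(c * s * L / 2)) ≤ C1 * ε ^ 3 := by
      have h6 : (N + 6) * l / 2 ≤ c * s * L / 2 := by
        have h7 : c * s * (B * l / s) ≤ c * s * L := by gcongr
        have h8 : c * s * (B * l / s) = c * B * l := by field_simp
        have h9 : c * B = (N + 6) + c := by rw [hB]; field_simp
        rw [h8, h9] at h7
        nlinarith
      have h10 : Real.exp (-(c * s * L / 2)) ≤ s ^ (N + 6) := by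
        have h11 : s ^ (N + 6) = Real.exp (-((N + 6) * l / 2)) := by
          have h12 : Real.log s = - l / 2 := by
            rw [hs, Real.log_sqrt hε.le, hll]; ring
          rw [← Real.exp_log (pow_pos hs0 (N + 6)), Real.log_pow, h12]
          congr 1
          push_cast
          ring
        rw [h11]
        exact Real.exp_le_exp.2 (by linarith)
      calc C1 / s ^ N * Real.exp (-(c * s * L / 2)) ≤ C1 / s ^ N * s ^ (N + 6) := by gcongr
        _ = C1 * (s ^ 2) ^ 3 := by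
            rw [pow_add]; field_simp
        _ = C1 * ε ^ 3 := by rw [hss]
    calc A * (C1 / s ^ N * Real.exp (-(c * s * L / 2))) ≤ A * (C1 * ε ^ 3) := by gcongr
      _ = m := by rw [hm]; ring
  have hmain := main_ineq d hd (pc - ε) (pc + ε) L m D (by linarith) (by linarith)
    (by linarith) (by linarith) hLone hm0 hfar hD
  obtain ⟨t1, t2⟩ := hθ ε hε e1
  set θ : ℝ := theta d (pc + ε) with hθd
  have hθ0 : 0 < θ := lt_of_lt_of_le (by positivity) t1
  have hq : (pc + ε - (pc - ε)) / (pc + ε) ≤ 2 * ε / pc := by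
    have : pc + ε - (pc - ε) = 2 * ε := by ring
    rw [this]
    gcongr
    linarith
  have hq0 : 0 ≤ (pc + ε - (pc - ε)) / (pc + ε) := by
    have : pc + ε - (pc - ε) = 2 * ε := by ring
    rw [this]; positivity
  have hD1 : (D : ℝ) ≤ 72 * d * ((pc + ε - (pc - ε)) / (pc + ε)) ^ 2 *
      ((L : ℝ) ^ 2 * θ + m / θ) := by
    have h1 : (D : ℝ) = (D * θ) / θ := by field_simp
    rw [h1]
    calc (D * θ) / θ ≤ (72 * d * ((pc + ε - (pc - ε)) / (pc + ε)) ^ 2 *
          ((L : ℝ) ^ 2 * θ ^ 2 + m)) / θ := by gcongr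
      _ = _ := by field_simp
  refine hD1.trans ?_
  have hLL : (L : ℝ) ^ 2 * θ ≤ 4 * A * B ^ 2 * l ^ 2 := by
    have h1 : (L : ℝ) ^ 2 ≤ (2 * (B * l / s)) ^ 2 := by gcongr
    have h2 : (2 * (B * l / s)) ^ 2 = 4 * B ^ 2 * l ^ 2 / ε := by
      rw [← hss]; field_simp; ring
    calc (L : ℝ) ^ 2 * θ ≤ (4 * B ^ 2 * l ^ 2 / ε) * (A * ε) := by
          rw [← h2]; gcongr
      _ = _ := by field_simp
  have hmm : m / θ ≤ A * C1 / a * l ^ 2 := by
    have h1 : m / θ ≤ m / (a * ε) := by gcongr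
    have h2 : m / (a * ε) = A * C1 / a * ε ^ 2 := by rw [hm]; field_simp
    have h3 : ε ^ 2 ≤ l ^ 2 := by
      have : ε ≤ l := by linarith
      gcongr
    rw [h2] at h1
    refine h1.trans ?_
    gcongr
  calc 72 * d * ((pc + ε - (pc - ε)) / (pc + ε)) ^ 2 * ((L : ℝ) ^ 2 * θ + m / θ)
      ≤ 72 * d * (2 * ε / pc) ^ 2 * (4 * A * B ^ 2 * l ^ 2 + A * C1 / a * l ^ 2) := by gcongr
    _ = _ := by field_simp; ring

end H5DF
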