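import Pool.Agent.H5.DF.Thin
import Pool.Agent.H5.DF.Attach

/-!
JOB DF-8 (MP_0d9ad5_pr). Measurability and translations of percolation events.
Reachability: a countable union over n (reachable by a walk of length n, induction on n) of cylinder
events. `Live`, `Att`, `Infinite`: countable boolean combinations (a set of vertices is finite of
size ≤ k iff it is contained in some Finset of card ≤ k, countably many; for `Att`: walks through
non-live vertices, again n-step induction).
Translations: `shift a` is the reindexing `(x, i) ↦ (x + a, i)`; `G (shift a ω)` is the translate of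
`G ω` (graph isomorphism `y ↦ y + a`).
-/

namespace H5DF

open MeasureTheory

section General

variable {Ω : Type*} [MeasurableSpace Ω] {W : Type*} [Countable W]

/-- Walks of length `n` through vertices satisfying a measurable condition. -/
lemma meas_walk_len (H : Ω → SimpleGraph W) (hH : ∀ x y, MeasurableSet {ω | (H ω).Adj x y})
    (Q : Ω → W → Prop) (hQ : ∀ y, MeasurableSet {ω | Q ω y}) (n : ℕ) (y : W) :
    ∀ x, MeasurableSet {ω | ∃ P : (H ω).Walk x y, P.length = n ∧ ∀ z ∈ P.support, Q ω z} := by
  induction n with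
  | zero =>
    intro x
    by_cases hxy : x = y
    · subst hxy
      have : {ω | ∃ P : (H ω).Walk x x, P.length = 0 ∧ ∀ z ∈ P.support, Q ω z} =
          {ω | Q ω x} := by
        ext ω
        constructor
        · rintro ⟨P, -, hP⟩
          exact hP x P.start_mem_support
        · intro h
          refine ⟨SimpleGraph.Walk.nil, rfl, ?_⟩
          intro z hz
          simp only [SimpleGraph.Walk.support_nil, List.mem_singleton] at hz
          subst hz
          exact h
      rw [this]
      exact hQ x
    · have : {ω | ∃ P : (H ω).Walk x y, P.length = 0 ∧ ∀ z ∈ P.support, Q ω z} = ∅ := by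
        ext ω
        simp only [Set.mem_setOf_eq, Set.mem_empty_iff_false, iff_false]
        rintro ⟨P, h0, -⟩
        exact hxy (SimpleGraph.Walk.eq_of_length_eq_zero h0)
      rw [this]
      exact MeasurableSet.empty
  | succ n ih =>
    intro x
    have : {ω | ∃ P : (H ω).Walk x y, P.length = n + 1 ∧ ∀ z ∈ P.support, Q ω z} =
        {ω | Q ω x} ∩ ⋃ z : W, ({ω | (H ω).Adj x z} ∩
          {ω | ∃ P : (H ω).Walk z y, P.length = n ∧ ∀ z ∈ P.support, Q ω z}) := by
      ext ω
      simp only [Set.mem_setOf_eq, Set.mem_inter_iff, Set.mem_iUnion]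
      constructor
      · rintro ⟨P, hl, hP⟩
        cases P with
        | nil => simp at hl
        | @cons _ z _ h P =>
          refine ⟨hP x (by simp), z, h, P, by simpa using hl, ?_⟩
          intro u hu
          exact hP u (by simp [hu])
      · rintro ⟨hx, z, h, P, hl, hP⟩
        refine ⟨SimpleGraph.Walk.cons h P, by simp [hl], ?_⟩
        intro u hu
        simp only [SimpleGraph.Walk.support_cons, List.mem_cons] at hu
        rcases hu with rfl | hu
        · exact hx
        · exact hP u hu
    rw [this]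
    exact (hQ x).inter (MeasurableSet.iUnion fun z => (hH x z).inter (ih z))

lemma meas_walk (H : Ω → SimpleGraph W) (hH : ∀ x y, MeasurableSet {ω | (H ω).Adj x y})
    (Q : Ω → W → Prop) (hQ : ∀ y, MeasurableSet {ω | Q ω y}) (x y : W) :
    MeasurableSet {ω | ∃ P : (H ω).Walk x y, ∀ z ∈ P.support, Q ω z} := by
  have : {ω | ∃ P : (H ω).Walk x y, ∀ z ∈ P.support, Q ω z} =
      ⋃ n : ℕ, {ω | ∃ P : (H ω).Walk x y, P.length = n ∧ ∀ z ∈ P.support, Q ω z} := by
    ext ω
    simp only [Set.mem_setOf_eq, Set.mem_iUnion]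
    constructor
    · rintro ⟨P, hP⟩
      exact ⟨P.length, P, rfl, hP⟩
    · rintro ⟨n, P, -, hP⟩
      exact ⟨P, hP⟩
  rw [this]
  exact MeasurableSet.iUnion fun n => meas_walk_len H hH Q hQ n y x

lemma meas_reach_gen (H : Ω → SimpleGraph W) (hH : ∀ x y, MeasurableSet {ω | (H ω).Adj x y})
    (x y : W) : MeasurableSet {ω | (H ω).Reachable x y} := by
  have h := meas_walk H hH (fun _ _ => True) (fun _ => MeasurableSet.const _) x y
  have : {ω | (H ω).Reachable x y} =
      {ω | ∃ P : (H ω).Walk x y, ∀ z ∈ P.support, (fun _ _ => True : Ω → W → Prop) ω z} := by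
    ext ω
    constructor
    · rintro ⟨P⟩
      exact ⟨P, fun _ _ => trivial⟩
    · rintro ⟨P, -⟩
      exact ⟨P⟩
  rw [this]
  exact h

/-- A random set is contained in a fixed set. -/
lemma meas_subset (S : Ω → Set W) (hS : ∀ y, MeasurableSet {ω | y ∈ S ω}) (T : Set W) :
    MeasurableSet {ω | S ω ⊆ T} := by
  have : {ω | S ω ⊆ T} = ⋂ y : W, ({ω | y ∈ S ω}ᶜ ∪ {_ω | y ∈ T}) := by
    ext ω
    simp only [Set.mem_setOf_eq, Set.mem_iInter, Set.mem_union, Set.mem_compl_iff]
    constructor
    · intro h y
      by_cases hy : y ∈ S ω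
      · exact Or.inr (h hy)
      · exact Or.inl hy
    · intro h y hy
      rcases h y with h | h
      · exact absurd hy h
      · exact h
  rw [this]
  exact MeasurableSet.iInter fun y => (hS y).compl.union (MeasurableSet.const _)

lemma meas_small (S : Ω → Set W) (hS : ∀ y, MeasurableSet {ω | y ∈ S ω}) (k : ℕ) :
    MeasurableSet {ω | (S ω).Finite ∧ (S ω).ncard ≤ k} := by
  have : {ω | (S ω).Finite ∧ (S ω).ncard ≤ k} =
      ⋃ F : {F : Finset W // F.card ≤ k}, {ω | S ω ⊆ (F.1 : Set W)} := by
    ext ω
    simp only [Set.mem_setOf_eq, Set.mem_iUnion]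
    constructor
    · rintro ⟨hf, hc⟩
      refine ⟨⟨hf.toFinset, ?_⟩, by simp⟩
      rwa [← Set.ncard_eq_toFinset_card (S ω) hf]
    · rintro ⟨⟨F, hF⟩, h⟩
      refine ⟨F.finite_toSet.subset h, ?_⟩
      calc (S ω).ncard ≤ (F : Set W).ncard := Set.ncard_le_ncard h F.finite_toSet
        _ = F.card := Set.ncard_coe_finset F
        _ ≤ k := hF
  rw [this]
  exact MeasurableSet.iUnion fun F => meas_subset S hS _

lemma meas_infinite (S : Ω → Set W) (hS : ∀ y, MeasurableSet {ω | y ∈ S ω}) :
    MeasurableSet {ω | (S ω).Infinite} := by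
  have : {ω | (S ω).Infinite} = (⋃ F : Finset W, {ω | S ω ⊆ (F : Set W)})ᶜ := by
    ext ω
    simp only [Set.mem_setOf_eq, Set.mem_compl_iff, Set.mem_iUnion]
    constructor
    · rintro h ⟨F, hF⟩
      exact h (F.finite_toSet.subset hF)
    · intro h hf
      exact h ⟨hf.toFinset, by simp⟩
  rw [this]
  exact (MeasurableSet.iUnion fun F => meas_subset S hS _).compl

end General

section Iso

variable {W W' : Type*} {H : SimpleGraph W} {H' : SimpleGraph W'}

/-- An isomorphism stays one after removing corresponding edges. -/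
def isoDel (φ : H ≃g H') (g : Sym2 W) :
    H.deleteEdges {g} ≃g H'.deleteEdges {g.map φ} where
  toEquiv := φ.toEquiv
  map_rel_iff' := by
    intro a b
    have h1 : s(φ a, φ b) = g.map φ ↔ s(a, b) = g := by
      rw [← Sym2.map_mk]
      exact (Sym2.map.injective φ.injective).eq_iff
    simp only [SimpleGraph.deleteEdges_adj, Set.mem_singleton_iff]
    constructor
    · rintro ⟨h2, h3⟩
      exact ⟨φ.map_adj_iff.1 h2, fun h => h3 (h1.2 h)⟩
    · rintro ⟨h2, h3⟩
      exact ⟨φ.map_adj_iff.2 h2, fun h => h3 (h1.1 h)⟩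

lemma reach_del_iso (φ : H ≃g H') (g : Sym2 W) (x : W) :
    {y | (H'.deleteEdges {g.map φ}).Reachable (φ x) y} =
      φ '' {y | (H.deleteEdges {g}).Reachable x y} := by
  ext y
  simp only [Set.mem_setOf_eq, Set.mem_image]
  constructor
  · intro h
    refine ⟨φ.symm y, ?_, by simp⟩
    have h1 : (H'.deleteEdges {g.map φ}).Reachable (isoDel φ g x) (isoDel φ g (φ.symm y)) := by
      have : isoDel φ g (φ.symm y) = y := φ.apply_symm_apply y
      rw [this]
      exact h
    exact SimpleGraph.Iso.reachable_iff.1 h1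
  · rintro ⟨z, hz, rfl⟩
    exact (SimpleGraph.Iso.reachable_iff (φ := isoDel φ g)).2 hz

lemma live_iso_mp (φ : H ≃g H') (k : ℕ) (x : W) (h : Live H' k (φ x)) : Live H k x := by
  intro g hg
  refine h (g.map φ) ?_
  rw [reach_del_iso]
  refine ⟨hg.1.image _, ?_⟩
  rw [Set.ncard_image_of_injective _ φ.injective]
  exact hg.2

lemma live_iso (φ : H ≃g H') (k : ℕ) (x : W) : Live H k x ↔ Live H' k (φ x) := by
  constructor
  · intro h
    have h1 : Live H k (φ.symm (φ x)) := by rwa [φ.symm_apply_apply]
    exact live_iso_mp φ.symm k (φ x) h1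
  · exact live_iso_mp φ k x

lemma att_iso_mp (φ : H ≃g H') (k : ℕ) (x w : W) (h : Att H k x w) : Att H' k (φ x) (φ w) := by
  obtain ⟨hw, P, hP⟩ := h
  refine ⟨(live_iso φ k w).1 hw, P.map φ.toHom, ?_⟩
  intro y hy hyw
  rw [SimpleGraph.Walk.support_map, List.mem_map] at hy
  obtain ⟨z, hz, rfl⟩ := hy
  have hzw : z ≠ w := by
    rintro rfl
    exact hyw rfl
  have := hP z hz hzw
  intro hl
  exact this ((live_iso φ k z).2 hl)

lemma att_iso (φ : H ≃g H') (k : ℕ) (x w : W) : Att H k x w ↔ Att H' k (φ x) (φ w) := by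
  constructor
  · exact att_iso_mp φ k x w
  · intro h
    have := att_iso_mp φ.symm k _ _ h
    rwa [φ.symm_apply_apply, φ.symm_apply_apply] at this

end Iso

variable {d : ℕ}

lemma meas_open (e : Ed d) : MeasurableSet {ω : Cfg d | ω e = true} :=
  measurable_pi_apply (X := fun _ : Ed d => Bool) e (MeasurableSet.of_discrete (s := {true}))

lemma meas_adj (x y : V d) : MeasurableSet {ω : Cfg d | (G ω).Adj x y} := by
  have : {ω : Cfg d | (G ω).Adj x y} =
      ⋃ s : Dir d, ({_ω : Cfg d | y = x + step s} ∩ {ω : Cfg d | ω (edge x s) = true}) := by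
    ext ω
    simp [G]
  rw [this]
  exact MeasurableSet.iUnion fun s => (MeasurableSet.const _).inter (meas_open _)

instance countable_sym2 : Countable (Sym2 (V d)) := by
  unfold Sym2
  infer_instance

/-- `y` is reachable from `x` in the open subgraph without the edge `g`. -/
theorem meas_reach_del (g : Sym2 (V d)) (x y : V d) :
    MeasurableSet {ω : Cfg d | ((G ω).deleteEdges {g}).Reachable x y} := by
  refine meas_reach_gen (fun ω : Cfg d => (G ω).deleteEdges {g}) ?_ x y
  intro a b
  have : {ω : Cfg d | ((G ω).deleteEdges {g}).Adj a b} =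
      {ω : Cfg d | (G ω).Adj a b} ∩ {_ω : Cfg d | s(a, b) ∉ ({g} : Set (Sym2 (V d)))} := by
    ext ω
    simp only [SimpleGraph.deleteEdges_adj, Set.mem_setOf_eq, Set.mem_inter_iff]
  rw [this]
  exact (meas_adj a b).inter (MeasurableSet.const _)

theorem meas_reach (x y : V d) : MeasurableSet {ω : Cfg d | (G ω).Reachable x y} :=
  meas_reach_gen (fun ω : Cfg d => G ω) meas_adj x y

theorem meas_inf (x : V d) : MeasurableSet {ω : Cfg d | (cluster ω x).Infinite} :=
  meas_infinite (fun ω : Cfg d => cluster ω x) fun y => meas_reach x y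

theorem meas_live (k : ℕ) (x : V d) : MeasurableSet {ω : Cfg d | Live (G ω) k x} := by
  have : {ω : Cfg d | Live (G ω) k x} = ⋂ g : Sym2 (V d),
      {ω : Cfg d | {y | ((G ω).deleteEdges {g}).Reachable x y}.Finite ∧
        {y | ((G ω).deleteEdges {g}).Reachable x y}.ncard ≤ k}ᶜ := by
    ext ω
    simp only [Live, Set.mem_setOf_eq, Set.mem_iInter, Set.mem_compl_iff]
  rw [this]
  exact MeasurableSet.iInter fun g =>
    (meas_small (fun ω : Cfg d => {y | ((G ω).deleteEdges {g}).Reachable x y})
      (fun y => meas_reach_del g x y) k).compl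

theorem meas_att (k : ℕ) (x w : V d) : MeasurableSet {ω : Cfg d | Att (G ω) k x w} := by
  have h := meas_walk (fun ω : Cfg d => G ω) meas_adj
    (fun ω y => y ≠ w → ¬ Live (G ω) k y) (fun y => by
      by_cases hy : y = w
      · have : {ω : Cfg d | y ≠ w → ¬ Live (G ω) k y} = Set.univ := by
          ext ω
          simp [hy]
        rw [this]
        exact MeasurableSet.univ
      · have : {ω : Cfg d | y ≠ w → ¬ Live (G ω) k y} = {ω : Cfg d | Live (G ω) k y}ᶜ := by
          ext ω
          simp [hy]
        rw [this]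
        exact (meas_live k y).compl) x w
  have h2 : {ω : Cfg d | Att (G ω) k x w} = {ω : Cfg d | Live (G ω) k w} ∩
      {ω : Cfg d | ∃ P : (G ω).Walk x w, ∀ z ∈ P.support, z ≠ w → ¬ Live (G ω) k z} := by
    ext ω
    simp only [Att, Set.mem_setOf_eq, Set.mem_inter_iff]
  rw [h2]
  exact (meas_live k w).inter h

theorem measurable_shift (a : V d) : Measurable (shift a : Cfg d → Cfg d) :=
  measurable_pi_lambda _ fun _ => measurable_pi_apply _

/-- The reindexing of the edges by a translation. -/
def shiftEquiv (a : V d) : Ed d ≃ Ed d where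
  toFun e := (e.1 - a, e.2)
  invFun e := (e.1 + a, e.2)
  left_inv e := by simp
  right_inv e := by simp

theorem perc_shift (p : ℝ) (h0 : 0 ≤ p) (h1 : p ≤ 1) (a : V d) :
    (perc d p).map (shift a) = perc d p := by
  have := isProb_bern h0 h1
  have h := Measure.infinitePi_map_piCongrLeft (fun _ : Ed d => bern p) (shiftEquiv a)
  have h2 : (MeasurableEquiv.piCongrLeft (fun _ : Ed d => Bool) (shiftEquiv a) :
      Cfg d → Cfg d) = shift a := by
    funext ω e
    have := Equiv.piCongrLeft_apply_apply (fun _ : Ed d => Bool) (shiftEquiv a) ω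
      ((shiftEquiv a).symm e)
    rw [Equiv.apply_symm_apply] at this
    rw [MeasurableEquiv.coe_piCongrLeft, this]
    rfl
  rw [h2] at h
  exact h

/-- The translation as an isomorphism. -/
def shiftIso (a : V d) (ω : Cfg d) : G (shift a ω) ≃g G ω where
  toEquiv := Equiv.addRight a
  map_rel_iff' := by
    intro x y
    have he : ∀ s : Dir d, shift a ω (edge x s) = ω (edge (x + a) s) := by
      rintro ⟨i, b⟩
      cases b <;> simp [shift, edge, add_right_comm]
    simp only [G, Equiv.coe_addRight]
    constructor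
    · rintro ⟨s, h1, h2⟩
      refine ⟨s, ?_, by rw [he]; exact h2⟩
      have : y + a = (x + step s) + a := by rw [h1]; abel
      exact add_right_cancel this
    · rintro ⟨s, h1, h2⟩
      refine ⟨s, by rw [h1]; abel, by rw [← he]; exact h2⟩

lemma shiftIso_apply (a : V d) (ω : Cfg d) (x : V d) : shiftIso a ω x = x + a := rfl

theorem cluster_shift (a x : V d) (ω : Cfg d) :
    cluster (shift a ω) x = {y | y + a ∈ cluster ω (x + a)} := by
  ext y
  simp only [cluster, Set.mem_setOf_eq]
  rw [← shiftIso_apply a ω x, ← shiftIso_apply a ω y, SimpleGraph.Iso.reachable_iff]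

theorem inf_shift (a x : V d) (ω : Cfg d) :
    (cluster (shift a ω) x).Infinite ↔ (cluster ω (x + a)).Infinite := by
  have h : cluster ω (x + a) = (fun y => y + a) '' cluster (shift a ω) x := by
    rw [cluster_shift]
    ext y
    simp only [Set.mem_image, Set.mem_setOf_eq]
    constructor
    · intro hy
      exact ⟨y - a, by simpa using hy, by simp⟩
    · rintro ⟨z, hz, rfl⟩
      exact hz
  rw [h, Set.infinite_image_iff (add_left_injective a).injOn]

theorem edge_shift (a x : V d) (s : Dir d) (ω : Cfg d) :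
    shift a ω (edge x s) = ω (edge (x + a) s) := by
  obtain ⟨i, b⟩ := s
  cases b <;> simp [shift, edge, add_right_comm]

theorem live_shift (k : ℕ) (a x : V d) (ω : Cfg d) :
    Live (G (shift a ω)) k x ↔ Live (G ω) k (x + a) :=
  live_iso (shiftIso a ω) k x

theorem att_shift (k : ℕ) (a x w : V d) (ω : Cfg d) :
    Att (G (shift a ω)) k x w ↔ Att (G ω) k (x + a) (w + a) :=
  att_iso (shiftIso a ω) k x w

theorem inf_adj {ω : Cfg d} {x : V d} {s : Dir d} (h : ω (edge x s) = true) :
    (cluster ω (x + step s)).Infinite ↔ (cluster ω x).Infinite := by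
  have hadj : (G ω).Adj x (x + step s) := ⟨s, rfl, h⟩
  have : cluster ω (x + step s) = cluster ω x := by
    ext y
    simp only [cluster, Set.mem_setOf_eq]
    exact ⟨fun h => hadj.reachable.trans h, fun h => hadj.symm.reachable.trans h⟩
  rw [this]

end H5DF
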