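import Pool.Agent.H5.DF.Meas

/-!
The potentials: minimum of a coordinate over the clusters of the thinned configuration, averaged
over the thinning (MP_0d9ad5_pr).
-/

namespace H5DF

open MeasureTheory

variable {d : ℕ}

/-- The intersection of two configurations. -/
def inter (ω η : Cfg d) : Cfg d := fun e => ω e && η e

lemma mem_cluster_self (ω : Cfg d) (x : V d) : x ∈ cluster ω x := SimpleGraph.Reachable.refl x

lemma cluster_eq {ω : Cfg d} {x y : V d} (h : y ∈ cluster ω x) : cluster ω y = cluster ω x := by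
  ext z
  exact ⟨fun hz => h.trans hz, fun hz => h.symm.trans hz⟩

lemma G_le {ω ω' : Cfg d} (h : ∀ e, ω e = true → ω' e = true) : G ω ≤ G ω' := by
  intro x y hxy
  obtain ⟨s, h1, h2⟩ := hxy
  exact ⟨s, h1, h _ h2⟩

lemma cluster_mono {ω ω' : Cfg d} (h : ∀ e, ω e = true → ω' e = true) (x : V d) :
    cluster ω x ⊆ cluster ω' x := fun _ hy => SimpleGraph.Reachable.mono (G_le h) hy

/-- The cluster of `x` has diameter at most `K`. -/
def Good (K : ℕ) (ω : Cfg d) (x : V d) : Prop :=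
  ∀ y ∈ cluster ω x, ∀ z ∈ cluster ω x, ‖y - z‖ ≤ K

lemma good_iff {K : ℕ} {ω : Cfg d} {x y : V d} (h : y ∈ cluster ω x) :
    Good K ω y ↔ Good K ω x := by
  unfold Good
  rw [cluster_eq h]

lemma meas_good (K : ℕ) (x : V d) : MeasurableSet {ω : Cfg d | Good K ω x} := by
  have : {ω : Cfg d | Good K ω x} = ⋂ y : V d, ⋂ z : V d,
      ({ω | (G ω).Reachable x y}ᶜ ∪ {ω | (G ω).Reachable x z}ᶜ ∪ {ω | ‖y - z‖ ≤ K}) := by
    ext ω
    simp only [Good, cluster, Set.mem_setOf_eq, Set.mem_iInter, Set.mem_union, Set.mem_compl_iff]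
    constructor
    · intro h y z
      by_cases hy : (G ω).Reachable x y
      · by_cases hz : (G ω).Reachable x z
        · exact Or.inr (h y hy z hz)
        · exact Or.inl (Or.inr hz)
      · exact Or.inl (Or.inl hy)
    · intro h y hy z hz
      rcases h y z with (h1 | h1) | h1
      · exact absurd hy h1
      · exact absurd hz h1
      · exact h1
  rw [this]
  refine MeasurableSet.iInter fun y => MeasurableSet.iInter fun z => ?_
  exact ((meas_reach x y).compl.union (meas_reach x z).compl).union (MeasurableSet.const _)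

open Classical in
/-- The distance of `x` to the left end of its cluster (`0` for clusters of diameter `> K`). -/
noncomputable def dl (i0 : Fin d) (K : ℕ) (ω : Cfg d) (x : V d) : ℕ :=
  if Good K ω x then sSup {n : ℕ | ∃ z ∈ cluster ω x, (n : ℤ) = x i0 - z i0} else 0

lemma abs_coord_le (i0 : Fin d) (x : V d) : |(x i0 : ℝ)| ≤ ‖x‖ := by
  have := norm_le_pi_norm x i0
  rwa [Int.norm_eq_abs] at this

lemma coord_sub_le {K : ℕ} (i0 : Fin d) {ω : Cfg d} {x : V d} (hg : Good K ω x) {y z : V d}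
    (hy : y ∈ cluster ω x) (hz : z ∈ cluster ω x) : y i0 - z i0 ≤ (K : ℤ) := by
  have h1 := hg y hy z hz
  have h2 := abs_coord_le i0 (y - z)
  have h3 : ((y i0 - z i0 : ℤ) : ℝ) ≤ K := by
    have := le_abs_self (((y - z) i0 : ℤ) : ℝ)
    simp only [Pi.sub_apply] at this h2
    linarith
  exact_mod_cast h3

/-- For a good cluster the minimum of the coordinate is attained and `dl` is the distance to it. -/
lemma dl_spec (i0 : Fin d) {K : ℕ} {ω : Cfg d} {x : V d} (hg : Good K ω x) :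
    ∃ z ∈ cluster ω x, (∀ y ∈ cluster ω x, z i0 ≤ y i0) ∧ (dl i0 K ω x : ℤ) = x i0 - z i0 := by
  have hdl : dl i0 K ω x = sSup {n : ℕ | ∃ z ∈ cluster ω x, (n : ℤ) = x i0 - z i0} := by
    unfold dl
    rw [if_pos hg]
  have hne : ({n : ℕ | ∃ z ∈ cluster ω x, (n : ℤ) = x i0 - z i0}).Nonempty :=
    ⟨0, x, mem_cluster_self ω x, by simp⟩
  have hbd : BddAbove {n : ℕ | ∃ z ∈ cluster ω x, (n : ℤ) = x i0 - z i0} := by
    refine ⟨K, ?_⟩
    rintro n ⟨z, hz, hn⟩
    have := coord_sub_le i0 hg (mem_cluster_self ω x) hz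
    omega
  obtain ⟨z, hz, hzn⟩ := Nat.sSup_mem hne hbd
  rw [← hdl] at hzn
  refine ⟨z, hz, ?_, hzn⟩
  intro y hy
  by_contra hlt
  push Not at hlt
  have h0 : 0 ≤ x i0 - y i0 := by omega
  have hmem : (x i0 - y i0).toNat ∈ {n : ℕ | ∃ z ∈ cluster ω x, (n : ℤ) = x i0 - z i0} :=
    ⟨y, hy, by rw [Int.toNat_of_nonneg h0]⟩
  have hle := le_csSup hbd hmem
  rw [← hdl] at hle
  omega

lemma dl_le (i0 : Fin d) (K : ℕ) (ω : Cfg d) (x : V d) : dl i0 K ω x ≤ K := by
  by_cases hg : Good K ω x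
  · obtain ⟨z, hz, -, h2⟩ := dl_spec i0 hg
    have := coord_sub_le i0 hg (mem_cluster_self ω x) hz
    omega
  · simp [dl, hg]

/-- The potential of one configuration. -/
noncomputable def mK (i0 : Fin d) (K : ℕ) (ω : Cfg d) (x : V d) : ℝ :=
  (x i0 : ℝ) - dl i0 K ω x

lemma mK_same (i0 : Fin d) {K : ℕ} {ω : Cfg d} {x y : V d} (hy : y ∈ cluster ω x)
    (hg : Good K ω x) : mK i0 K ω y = mK i0 K ω x := by
  obtain ⟨z, hz, hz1, hz2⟩ := dl_spec i0 hg
  obtain ⟨z', hz', hz1', hz2'⟩ := dl_spec i0 ((good_iff hy).2 hg)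
  rw [cluster_eq hy] at hz' hz1'
  have h1 := hz1 z' hz'
  have h2 := hz1' z hz
  have h3 : (y i0 : ℤ) - dl i0 K ω y = x i0 - dl i0 K ω x := by omega
  unfold mK
  exact_mod_cast h3

lemma step_coord_le (i0 : Fin d) (s : Dir d) : |(step s i0 : ℝ)| ≤ 1 := by
  obtain ⟨i, b⟩ := s
  by_cases h : i0 = i
  · subst h
    cases b <;> simp [step]
  · cases b <;> simp [step, h]

/-- Gradient bound for one configuration. -/
lemma mK_diff (i0 : Fin d) (K : ℕ) (ω : Cfg d) (x : V d) (s : Dir d) :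
    |mK i0 K ω (x + step s) - mK i0 K ω x| ≤
      1 + dl i0 K ω x + dl i0 K ω (x + step s) := by
  have h := step_coord_le i0 s
  unfold mK
  have h1 : ((x + step s) i0 : ℝ) = x i0 + step s i0 := by simp
  rw [h1]
  have h2 := Nat.cast_nonneg (α := ℝ) (dl i0 K ω x)
  have h3 := Nat.cast_nonneg (α := ℝ) (dl i0 K ω (x + step s))
  rw [abs_le] at h ⊢
  constructor <;> linarith [h.1, h.2]

lemma adj_of_open {ω : Cfg d} {x : V d} {s : Dir d} (h : ω (edge x s) = true) :
    (G ω).Adj x (x + step s) := ⟨s, rfl, h⟩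

lemma mK_diff_open (i0 : Fin d) (K : ℕ) {ω : Cfg d} {x : V d} {s : Dir d}
    (h : ω (edge x s) = true) (hg : Good K ω x) :
    mK i0 K ω (x + step s) - mK i0 K ω x = 0 := by
  rw [mK_same i0 (x := x) (y := x + step s) (adj_of_open h).reachable hg, sub_self]

lemma mK_diff_open' (i0 : Fin d) (K : ℕ) {ω : Cfg d} {x : V d} {s : Dir d}
    (h : ω (edge x s) = true) (hg : ¬ Good K ω x) :
    |mK i0 K ω (x + step s) - mK i0 K ω x| ≤ 1 := by
  have hy : x + step s ∈ cluster ω x := (adj_of_open h).reachable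
  have hg' : ¬ Good K ω (x + step s) := fun h' => hg ((good_iff hy).1 h')
  have h1 := mK_diff i0 K ω x s
  simpa [dl, hg, hg'] using h1

/-- Shift covariance. -/
lemma good_shift (K : ℕ) (a x : V d) (ω : Cfg d) :
    Good K (shift a ω) x ↔ Good K ω (x + a) := by
  unfold Good
  rw [cluster_shift]
  constructor
  · intro h y hy z hz
    have := h (y - a) (by simpa using hy) (z - a) (by simpa using hz)
    simpa using this
  · intro h y hy z hz
    have := h (y + a) hy (z + a) hz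
    simpa using this

lemma dl_shift (i0 : Fin d) (K : ℕ) (a x : V d) (ω : Cfg d) :
    dl i0 K (shift a ω) x = dl i0 K ω (x + a) := by
  unfold dl
  have h2 : {n : ℕ | ∃ z ∈ cluster (shift a ω) x, (n : ℤ) = x i0 - z i0} =
      {n : ℕ | ∃ z ∈ cluster ω (x + a), (n : ℤ) = (x + a) i0 - z i0} := by
    ext n
    rw [cluster_shift]
    constructor
    · rintro ⟨z, hz, hn⟩
      exact ⟨z + a, hz, by simp [hn]⟩
    · rintro ⟨z, hz, hn⟩
      refine ⟨z - a, by simpa using hz, ?_⟩
      rw [hn]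
      simp only [Pi.add_apply, Pi.sub_apply]
      ring
  rw [h2]
  by_cases hg : Good K ω (x + a)
  · rw [if_pos hg, if_pos ((good_shift K a x ω).2 hg)]
  · rw [if_neg hg, if_neg fun h => hg ((good_shift K a x ω).1 h)]

/-- Measurability of `dl`. -/
lemma meas_dl (i0 : Fin d) (K : ℕ) (x : V d) : Measurable fun ω : Cfg d => dl i0 K ω x := by
  refine measurable_of_Ioi fun n => ?_
  have : (fun ω : Cfg d => dl i0 K ω x) ⁻¹' Set.Ioi n = {ω | Good K ω x} ∩
      ⋃ z : V d, ({ω | (G ω).Reachable x z} ∩ {ω | (n : ℤ) < x i0 - z i0}) := by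
    ext ω
    simp only [Set.mem_preimage, Set.mem_Ioi, Set.mem_inter_iff, Set.mem_setOf_eq,
      Set.mem_iUnion]
    constructor
    · intro h
      by_cases hg : Good K ω x
      · obtain ⟨z, hz, -, h2⟩ := dl_spec i0 hg
        exact ⟨hg, z, hz, by omega⟩
      · simp [dl, hg] at h
    · rintro ⟨hg, z, hz, hn⟩
      obtain ⟨z', hz', h1, h2⟩ := dl_spec i0 hg
      have := h1 z hz
      omega
  rw [this]
  refine (meas_good K x).inter (MeasurableSet.iUnion fun z => ?_)
  exact (meas_reach x z).inter (MeasurableSet.const _)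

lemma measurable_inter : Measurable fun x : Cfg d × Cfg d => inter x.1 x.2 := by
  refine measurable_pi_lambda _ fun e => ?_
  have h1 : Measurable fun x : Cfg d × Cfg d => x.1 e := by fun_prop
  have h2 : Measurable fun x : Cfg d × Cfg d => x.2 e := by fun_prop
  have h3 : Measurable fun b : Bool × Bool => b.1 && b.2 := measurable_of_finite _
  exact h3.comp (h1.prodMk h2)

lemma inter_shift (a : V d) (ω η : Cfg d) :
    inter (shift a ω) (shift a η) = shift a (inter ω η) := rfl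

/-- The averaged potential. -/
noncomputable def hK (i0 : Fin d) (K : ℕ) (r : ℝ) (ω : Cfg d) (x : V d) : ℝ :=
  (x i0 : ℝ) - ∫ η, (dl i0 K (inter ω η) x : ℝ) ∂(perc d r)

lemma isPP {p : ℝ} (h0 : 0 ≤ p) (h1 : p ≤ 1) : IsProbabilityMeasure (perc d p) := by
  haveI := isProb_bern h0 h1
  unfold perc
  infer_instance

lemma meas_dl_inter (i0 : Fin d) (K : ℕ) (x : V d) :
    Measurable fun q : Cfg d × Cfg d => (dl i0 K (inter q.1 q.2) x : ℝ) := by
  have h1 : Measurable fun q : Cfg d × Cfg d => dl i0 K (inter q.1 q.2) x :=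
    (meas_dl i0 K x).comp measurable_inter
  exact (measurable_from_nat (f := fun n : ℕ => (n : ℝ))).comp h1

lemma meas_dl_inter' (i0 : Fin d) (K : ℕ) (x : V d) (ω : Cfg d) :
    Measurable fun η : Cfg d => (dl i0 K (inter ω η) x : ℝ) := by
  have := (meas_dl_inter i0 K x).comp (measurable_prodMk_left (x := ω))
  exact this

lemma integrable_dl_inter (i0 : Fin d) (K : ℕ) {r : ℝ} (h0 : 0 ≤ r) (h1 : r ≤ 1) (x : V d)
    (ω : Cfg d) : Integrable (fun η : Cfg d => (dl i0 K (inter ω η) x : ℝ)) (perc d r) := by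
  haveI := isPP (d := d) h0 h1
  refine Integrable.of_bound (meas_dl_inter' i0 K x ω).aestronglyMeasurable K ?_
  refine Filter.Eventually.of_forall fun η => ?_
  rw [Real.norm_of_nonneg (Nat.cast_nonneg _)]
  exact_mod_cast dl_le i0 K _ _

lemma hK_meas (i0 : Fin d) (K : ℕ) {r : ℝ} (h0 : 0 ≤ r) (h1 : r ≤ 1) (x : V d) :
    Measurable fun ω : Cfg d => hK i0 K r ω x := by
  haveI := isPP (d := d) h0 h1
  unfold hK
  refine Measurable.sub measurable_const ?_
  exact ((meas_dl_inter i0 K x).stronglyMeasurable.integral_prod_right (ν := perc d r)).measurable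

lemma hK_int_bound (i0 : Fin d) (K : ℕ) {r : ℝ} (h0 : 0 ≤ r) (h1 : r ≤ 1) (ω : Cfg d)
    (x : V d) : 0 ≤ (x i0 : ℝ) - hK i0 K r ω x ∧ (x i0 : ℝ) - hK i0 K r ω x ≤ K := by
  haveI := isPP (d := d) h0 h1
  have hh : (x i0 : ℝ) - hK i0 K r ω x = ∫ η, (dl i0 K (inter ω η) x : ℝ) ∂(perc d r) := by
    unfold hK; ring
  rw [hh]
  constructor
  · exact integral_nonneg fun η => Nat.cast_nonneg _
  · have : ∫ η, (dl i0 K (inter ω η) x : ℝ) ∂(perc d r) ≤ ∫ _η, (K : ℝ) ∂(perc d r) := by
      refine integral_mono (integrable_dl_inter i0 K h0 h1 x ω) (integrable_const _) fun η => ?_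
      have := dl_le i0 K (inter ω η) x
      show (dl i0 K (inter ω η) x : ℝ) ≤ K
      exact_mod_cast this
    simpa using this

lemma hK_shift (i0 : Fin d) (K : ℕ) {r : ℝ} (h0 : 0 ≤ r) (h1 : r ≤ 1) (a x : V d)
    (ω : Cfg d) : hK i0 K r (shift a ω) x = hK i0 K r ω (x + a) - a i0 := by
  unfold hK
  have h2 : ∫ η, (dl i0 K (inter (shift a ω) η) x : ℝ) ∂(perc d r) =
      ∫ η, (dl i0 K (inter ω η) (x + a) : ℝ) ∂(perc d r) := by
    conv_lhs => rw [← perc_shift (d := d) r h0 h1 a]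
    rw [integral_map (measurable_shift a).aemeasurable
      (meas_dl_inter' i0 K x (shift a ω)).aestronglyMeasurable]
    refine integral_congr_ae (Filter.Eventually.of_forall fun η => ?_)
    simp only [inter_shift, dl_shift]
  rw [h2]
  simp only [Pi.add_apply, Int.cast_add]
  ring

end H5DF
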