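import Mathlib

/-!
Definitions for MP_0d9ad5_pr: bond percolation on `Z^d`, the walk on the infinite cluster and its
diffusivity.
-/

namespace H5DF

open MeasureTheory Filter Topology

/-- The vertices of `Z^d`. -/
abbrev V (d : ℕ) := Fin d → ℤ

/-- The edges of `Z^d`: `(x, i)` is the edge with ends `x` and `x + e_i`. -/
abbrev Ed (d : ℕ) := V d × Fin d

/-- Configurations: `true` means open. -/
abbrev Cfg (d : ℕ) := Ed d → Bool

/-- The `2 d` directions: `(i, true)` is `e_i` and `(i, false)` is `- e_i`. -/
abbrev Dir (d : ℕ) := Fin d × Bool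

/-- Bernoulli measure on `Bool`. -/
noncomputable def bern (p : ℝ) : Measure Bool :=
  ENNReal.ofReal p • Measure.dirac true + ENNReal.ofReal (1 - p) • Measure.dirac false

/-- Bernoulli bond percolation on `Z^d`: every edge is open with probability `p`,
independently. -/
noncomputable def perc (d : ℕ) (p : ℝ) : Measure (Cfg d) :=
  Measure.infinitePi (fun _ => bern p)

/-- The unit step in direction `s`. -/
def step {d : ℕ} (s : Dir d) : V d := Pi.single s.1 (if s.2 then 1 else -1)

/-- The edge joining `x` and `x + step s`. -/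
def edge {d : ℕ} (x : V d) (s : Dir d) : Ed d :=
  if s.2 then (x, s.1) else (x + step s, s.1)

/-- The opposite direction. -/
def opp {d : ℕ} (s : Dir d) : Dir d := (s.1, !s.2)

lemma step_opp {d : ℕ} (s : Dir d) : step (opp s) = - step s := by
  obtain ⟨i, b⟩ := s
  cases b <;> simp [step, opp, Pi.single_neg]

lemma edge_opp {d : ℕ} (x : V d) (s : Dir d) : edge (x + step s) (opp s) = edge x s := by
  obtain ⟨i, b⟩ := s
  cases b
  · simp [edge, opp]
  · have h := step_opp (d := d) (i, true)
    simp only [opp, Bool.not_true] at h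
    simp [edge, opp, h]

lemma step_ne_zero {d : ℕ} (s : Dir d) : step s ≠ 0 := by
  obtain ⟨i, b⟩ := s
  intro h
  have h1 := congrFun h i
  cases b <;> simp [step] at h1

/-- The open subgraph. -/
def G {d : ℕ} (ω : Cfg d) : SimpleGraph (V d) where
  Adj x y := ∃ s : Dir d, y = x + step s ∧ ω (edge x s) = true
  symm := by
    refine ⟨?_⟩
    rintro x y ⟨s, rfl, hs⟩
    refine ⟨opp s, ?_, ?_⟩
    · rw [step_opp]; abel
    · rw [edge_opp]; exact hs
  loopless := ⟨by
    rintro x ⟨s, h, -⟩
    exact step_ne_zero s (by simpa using h.symm)⟩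

/-- The open cluster of `x`. -/
def cluster {d : ℕ} (ω : Cfg d) (x : V d) : Set (V d) := {y | (G ω).Reachable x y}

/-- The percolation probability. -/
noncomputable def theta (d : ℕ) (p : ℝ) : ℝ :=
  (perc d p).real {ω | (cluster ω 0).Infinite}

/-- The two-point function. -/
noncomputable def tau (d : ℕ) (p : ℝ) (x : V d) : ENNReal :=
  perc d p {ω | x ∈ cluster ω 0}

/-- The degree of `x` in the open subgraph. -/
noncomputable def deg {d : ℕ} (ω : Cfg d) (x : V d) : ℝ :=
  ∑ s : Dir d, if ω (edge x s) = true then 1 else 0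

/-- `walkE ω n f x` is the expectation of `f (X_n)` for the simple random walk on the open
subgraph started at `X_0 = x` (each step goes to a uniformly chosen neighbour). -/
noncomputable def walkE {d : ℕ} (ω : Cfg d) : ℕ → (V d → ℝ) → V d → ℝ
  | 0, f, x => f x
  | n + 1, f, x =>
    (∑ s : Dir d, if ω (edge x s) = true then walkE ω n f (x + step s) else 0) / deg ω x

/-- `D` is the diffusivity at density `p`: for almost every configuration in which `0` lies in an
infinite cluster, the law of `X_n / √n` for the walk started at `0` converges weakly to the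
centred Gaussian law with covariance matrix `D I_d`. -/
def HasDiffusivity (d : ℕ) (p : ℝ) (D : NNReal) : Prop :=
  ∀ᵐ ω ∂(perc d p), (cluster ω 0).Infinite →
    ∀ f : BoundedContinuousFunction (Fin d → ℝ) ℝ,
      Tendsto (fun n : ℕ => walkE ω n (fun x => f (fun i => (x i : ℝ) / Real.sqrt n)) 0) atTop
        (𝓝 (∫ y, f y ∂(Measure.pi fun _ : Fin d => ProbabilityTheory.gaussianReal 0 D)))

/-- Translation of configurations. -/
def shift {d : ℕ} (a : V d) (ω : Cfg d) : Cfg d := fun e => ω (e.1 + a, e.2)

end H5DF

/-!
JOB DF-7 (MP_0d9ad5_pr). Bernoulli products: resampling one coordinate, thinning.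
PROOF. Both by `Measure.eq_infinitePi` (check boxes `Set.pi s t`). resample: the preimage of the box is
a rectangle (`bern p (t e)` if `e ∈ s`) and `infinitePi_pi` on `s.erase e`. thin_law: by Fubini the
measure of the preimage of the box is the integral over ω of the product over `i ∈ s` of
`bern r {b | (ω i && b) ∈ t i}`; the integral of a product over finitely many coordinates is the
product (`iIndepFun_infinitePi`), each factor is `bern (p r) (t i)`.
-/

namespace H5DF

open MeasureTheory

lemma isProb_bern {p : ℝ} (h0 : 0 ≤ p) (h1 : p ≤ 1) : IsProbabilityMeasure (bern p) := by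
  refine ⟨?_⟩
  simp only [bern, Measure.coe_add, Measure.coe_smul, Pi.add_apply, Pi.smul_apply, measure_univ,
    smul_eq_mul, mul_one]
  rw [← ENNReal.ofReal_add h0 (by linarith)]
  simp

theorem resample {ι : Type*} [DecidableEq ι] (p : ℝ) (h0 : 0 ≤ p) (h1 : p ≤ 1) (e : ι) :
    ((bern p).prod (Measure.infinitePi fun _ : ι => bern p)).map
        (fun x : Bool × (ι → Bool) => Function.update x.2 e x.1) =
      Measure.infinitePi fun _ : ι => bern p := by
  have := isProb_bern h0 h1
  refine Measure.eq_infinitePi _ fun s t ht => ?_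
  have hm : Measurable (fun x : Bool × (ι → Bool) => Function.update x.2 e x.1) := by
    refine measurable_pi_iff.2 fun i => ?_
    by_cases hi : i = e
    · subst hi
      simpa using measurable_fst
    · simp only [Function.update_of_ne hi]
      exact (measurable_pi_apply i).comp measurable_snd
  rw [Measure.map_apply hm (.pi s.countable_toSet fun _ _ => ht _)]
  have hpre : (fun x : Bool × (ι → Bool) => Function.update x.2 e x.1) ⁻¹'
      ((s : Set ι).pi t) =
      (if e ∈ s then t e else Set.univ) ×ˢ (((s.erase e : Finset ι) : Set ι).pi t) := by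
    ext ⟨b, ω⟩
    simp only [Set.mem_preimage, Set.mem_pi, Finset.mem_coe, Set.mem_prod, Finset.mem_erase]
    constructor
    · intro h
      refine ⟨?_, fun i hi => ?_⟩
      · split_ifs with hes
        · simpa using h e hes
        · trivial
      · have := h i hi.2
        rwa [Function.update_of_ne hi.1] at this
    · rintro ⟨h1, h2⟩ i hi
      by_cases hie : i = e
      · subst hie
        rw [if_pos hi] at h1
        simpa using h1
      · rw [Function.update_of_ne hie]
        exact h2 i ⟨hie, hi⟩
  rw [hpre, Measure.prod_prod, Measure.infinitePi_pi _ (fun i _ => ht i)]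
  split_ifs with hes
  · exact Finset.mul_prod_erase s (fun i => bern p (t i)) hes
  · rw [measure_univ, one_mul, Finset.erase_eq_of_notMem hes]

open scoped Classical in
private lemma bern_apply (p : ℝ) (t : Set Bool) :
    bern p t = ENNReal.ofReal p * (if true ∈ t then 1 else 0) +
      ENNReal.ofReal (1 - p) * (if false ∈ t then 1 else 0) := by
  have h : ∀ a : Bool, Measure.dirac a t = if a ∈ t then (1 : ENNReal) else 0 := by
    intro a
    rw [Measure.dirac_apply' _ (MeasurableSet.of_discrete (s := t))]
    by_cases ha : a ∈ t <;> simp [ha]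
  simp only [bern, smul_eq_mul, Measure.coe_add, Measure.coe_smul, Pi.add_apply, Pi.smul_apply, h]

private lemma thin_factor (p r : ℝ) (hp0 : 0 ≤ p) (hp1 : p ≤ 1) (hr0 : 0 ≤ r) (hr1 : r ≤ 1)
    (t : Set Bool) :
    ∫⁻ a, bern r {b | (a && b) ∈ t} ∂(bern p) = bern (p * r) t := by
  have key : ENNReal.ofReal p * ENNReal.ofReal (1 - r) + ENNReal.ofReal (1 - p) =
      ENNReal.ofReal (1 - p * r) := by
    rw [← ENNReal.ofReal_mul hp0, ← ENNReal.ofReal_add
      (mul_nonneg hp0 (by linarith)) (by linarith)]
    congr 1
    ring
  have key2 : ENNReal.ofReal r + ENNReal.ofReal (1 - r) = 1 := by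
    rw [← ENNReal.ofReal_add hr0 (by linarith)]
    simp
  have hmul : ENNReal.ofReal p * ENNReal.ofReal r = ENNReal.ofReal (p * r) :=
    (ENNReal.ofReal_mul hp0).symm
  have hint : ∫⁻ a, bern r {b | (a && b) ∈ t} ∂(bern p) =
      ENNReal.ofReal p * bern r {b | (true && b) ∈ t} +
        ENNReal.ofReal (1 - p) * bern r {b | (false && b) ∈ t} := by
    conv_lhs => rw [bern]
    simp only [lintegral_add_measure, lintegral_smul_measure, lintegral_dirac, smul_eq_mul]
  have e1 : {b : Bool | (true && b) ∈ t} = t := by
    ext b
    simp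
  have := isProb_bern hr0 hr1
  rw [hint, e1]
  by_cases h2 : false ∈ t
  · have e2 : {b : Bool | (false && b) ∈ t} = Set.univ := by
      ext b
      simpa using h2
    rw [e2, measure_univ, mul_one, bern_apply r t, bern_apply (p * r) t]
    by_cases h1 : true ∈ t
    · simp only [h1, h2, if_true, mul_one]
      rw [key2, mul_one, ← hmul, ← key, ← add_assoc, ← mul_add, key2, mul_one]
    · simp only [h1, h2, if_true, if_false, mul_one, mul_zero, zero_add]
      exact key
  · have e2 : {b : Bool | (false && b) ∈ t} = ∅ := by
      ext b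
      simpa using h2
    rw [e2, measure_empty, mul_zero, add_zero, bern_apply r t, bern_apply (p * r) t]
    by_cases h1 : true ∈ t
    · simp only [h1, h2, if_true, if_false, mul_one, mul_zero, add_zero]
      exact hmul
    · simp only [h1, h2, if_false, mul_zero, add_zero]

theorem thin_law {ι : Type*} (p r : ℝ) (hp0 : 0 ≤ p) (hp1 : p ≤ 1) (hr0 : 0 ≤ r) (hr1 : r ≤ 1) :
    ((Measure.infinitePi fun _ : ι => bern p).prod (Measure.infinitePi fun _ : ι => bern r)).map
        (fun (x : (ι → Bool) × (ι → Bool)) (i : ι) => x.1 i && x.2 i) =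
      Measure.infinitePi fun _ : ι => bern (p * r) := by
  have := isProb_bern hp0 hp1
  have := isProb_bern hr0 hr1
  have := isProb_bern (mul_nonneg hp0 hr0) (mul_le_one₀ hp1 hr0 hr1)
  refine Measure.eq_infinitePi _ fun s t ht => ?_
  have hand : Measurable (fun q : Bool × Bool => (q.1 && q.2)) := measurable_of_countable _
  have hm : Measurable (fun (x : (ι → Bool) × (ι → Bool)) (i : ι) => x.1 i && x.2 i) := by
    refine measurable_pi_iff.2 fun i => ?_
    have h1 : Measurable (fun x : (ι → Bool) × (ι → Bool) => (x.1 i, x.2 i)) :=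
      ((measurable_pi_apply i).comp measurable_fst).prodMk
        ((measurable_pi_apply i).comp measurable_snd)
    exact hand.comp h1
  have hbox : MeasurableSet ((s : Set ι).pi t) := .pi s.countable_toSet fun _ _ => ht _
  rw [Measure.map_apply hm hbox, Measure.prod_apply (hm hbox)]
  have hslice : ∀ ω : ι → Bool,
      (Measure.infinitePi fun _ : ι => bern r) (Prod.mk ω ⁻¹'
        ((fun (x : (ι → Bool) × (ι → Bool)) (i : ι) => x.1 i && x.2 i) ⁻¹' ((s : Set ι).pi t))) =
      ∏ i ∈ s, bern r {b | (ω i && b) ∈ t i} := by
    intro ω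
    have : (Prod.mk ω ⁻¹'
        ((fun (x : (ι → Bool) × (ι → Bool)) (i : ι) => x.1 i && x.2 i) ⁻¹' ((s : Set ι).pi t))) =
        (s : Set ι).pi (fun i => {b | (ω i && b) ∈ t i}) := by
      ext η
      simp
    rw [this, Measure.infinitePi_pi _ (fun i _ => MeasurableSet.of_discrete)]
  simp_rw [hslice]
  have hind : ProbabilityTheory.iIndepFun
      (fun (i : ι) (ω : ι → Bool) => (fun a : Bool => bern r {b | (a && b) ∈ t i}) (ω i))
      (Measure.infinitePi fun _ : ι => bern p) :=
    ProbabilityTheory.iIndepFun_infinitePi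
      (X := fun (i : ι) (a : Bool) => bern r {b | (a && b) ∈ t i})
      (P := fun _ : ι => bern p) (fun i => measurable_of_countable _)
  rw [ProbabilityTheory.lintegral_prod_eq_prod_lintegral_of_indepFun s _ hind
    (fun i => (measurable_of_countable
      (fun a : Bool => bern r {b | (a && b) ∈ t i})).comp (measurable_pi_apply i))]
  refine Finset.prod_congr rfl fun i _ => ?_
  have hmap := lintegral_map (μ := Measure.infinitePi fun _ : ι => bern p)
    (f := fun a : Bool => bern r {b | (a && b) ∈ t i}) (g := fun ω : ι → Bool => ω i)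
    (measurable_of_countable _) (measurable_pi_apply i)
  rw [Measure.infinitePi_map_eval (fun _ : ι => bern p) i,
    thin_factor p r hp0 hp1 hr0 hr1 (t i)] at hmap
  exact hmap.symm

end H5DF
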